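import Pool.Agent.Helper401_HS.Chain2

set_option autoImplicit false

open MeasureTheory Set

/-!
Percolation in half-spaces above the critical point (helper401).
-/

namespace Pool.Agent.Helper401_HS

open Pool.Agent.Y990.CB Pool.Agent.Y990.OA
open Pool.Agent.W783.PC (pm DepOn Inc bern)
open Pool.Agent.W424.PC

noncomputable section

variable {d : ℕ}

lemma cl_meas' (M : Mod d) (R : Set (Z d)) (x : Z d) :
    MeasurableSet {ω : M.ι → Bool | (cl M ω R x).Infinite} := by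
  have : {ω : M.ι → Bool | (cl M ω R x).Infinite} =
      ⋂ k : ℕ, ⋃ T : Finset (Z d), ⋃ (_ : k ≤ T.card), ⋂ y ∈ T, Cn M R x y := by
    ext ω
    simp only [mem_iInter, mem_iUnion]
    constructor
    · intro h k
      obtain ⟨T, hT, hc⟩ := Set.Infinite.exists_subset_card_eq h k
      exact ⟨T, hc.ge, fun y hy => hT hy⟩
    · intro h hfin
      obtain ⟨T, hc, hT⟩ := h ((cl M ω R x).ncard + 1)
      have hsub : (T : Set (Z d)) ⊆ cl M ω R x := fun y hy => hT y hy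
      have := Set.ncard_le_ncard hsub hfin
      rw [Set.ncard_coe_finset] at this
      omega
  rw [this]
  refine MeasurableSet.iInter fun k => MeasurableSet.iUnion fun T => MeasurableSet.iUnion fun _ =>
    Finset.measurableSet_biInter T fun y _ => Cn_meas M R x y

lemma cl_meas (R : Set (Z d)) (x : Z d) :
    MeasurableSet {ω : Sym2 (Z d) → Bool | (cl (bondM d) ω R x).Infinite} :=
  cl_meas' (bondM d) R x

lemma cl_inc (R : Set (Z d)) (x : Z d) :
    Inc {ω : Sym2 (Z d) → Bool | (cl (bondM d) ω R x).Infinite} :=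
  fun _ _ h hω => Set.Infinite.mono (cl_mono (M := bondM d) h (Subset.refl _) x) hω

/-- The radii are at least geometric. -/
lemma nn_rpow {n0 : ℕ} (h0 : 1 ≤ n0) (t : ℕ) {γ : ℝ} (hγ : 0 < γ) :
    (nn n0 t : ℝ) ^ (-γ) ≤ (n0 : ℝ) ^ (-γ) * 2 ^ γ * ((2 : ℝ) ^ (-(γ / 4))) ^ t := by
  have hn : (0 : ℝ) < n0 := by exact_mod_cast h0
  unfold nn
  push_cast
  rw [Real.mul_rpow hn.le (by positivity), mul_assoc]
  refine mul_le_mul_of_nonneg_left ?_ (by positivity)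
  rw [← Real.rpow_natCast, ← Real.rpow_mul (by norm_num), ← Real.rpow_natCast,
    ← Real.rpow_mul (by norm_num), ← Real.rpow_add (by norm_num)]
  refine Real.rpow_le_rpow_of_exponent_le (by norm_num) ?_
  have h1 : (t : ℝ) ≤ 4 * ((t / 4 : ℕ) : ℝ) + 4 := by
    have : t ≤ 4 * (t / 4) + 4 := by omega
    exact_mod_cast this
  nlinarith

/-- **The chain.** -/
theorem chain_pos (hd : 3 ≤ d) {p δ : unitInterval} (hp : pc (bondM d) < p) (hp1 : (p : ℝ) < 1)
    (hδ0 : 0 < (δ : ℝ)) (hδp : δ ≤ p) (i : Fin d) :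
    ∃ n0 : ℕ, 1 ≤ n0 ∧ 0 < mr d p δ (Ga i n0) := by
  obtain ⟨C, β, hC, hβ, hF⟩ := face_poly hd hp
  have hδp' : (δ : ℝ) ≤ p := hδp
  have hp0 : 0 < (p : ℝ) := by linarith
  have hlp : Real.log (1 - p) < 0 := Real.log_neg (by linarith) (by linarith)
  have hlδ : Real.log (1 - δ) < 0 := Real.log_neg (by linarith) (by linarith)
  obtain ⟨a, ha⟩ : ∃ a, a = Real.log (1 - δ) / Real.log (1 - p) := ⟨_, rfl⟩
  have ha0 : 0 < a := by rw [ha]; exact div_pos_of_neg_of_neg hlδ hlp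
  obtain ⟨γ, hγ⟩ : ∃ γ, γ = β * a := ⟨_, rfl⟩
  have hγ0 : 0 < γ := by rw [hγ]; positivity
  obtain ⟨ρ, hρ⟩ : ∃ ρ : ℝ, ρ = (2 : ℝ) ^ (-(γ / 4)) := ⟨_, rfl⟩
  have hρ0 : 0 < ρ := by rw [hρ]; positivity
  have hρ1 : ρ < 1 := by
    rw [hρ]
    exact Real.rpow_lt_one_of_one_lt_of_neg (by norm_num) (by linarith)
  -- choice of the first scale
  obtain ⟨n0, hn0, hsmall⟩ : ∃ n0 : ℕ, 1 ≤ n0 ∧
      C ^ a * ((n0 : ℝ) ^ (-γ) * 2 ^ γ) * (1 - ρ)⁻¹ < 1 := by
    have h1 : Filter.Tendsto (fun n : ℕ => C ^ a * (((n : ℝ)) ^ (-γ) * 2 ^ γ) * (1 - ρ)⁻¹)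
        Filter.atTop (nhds (C ^ a * (0 * 2 ^ γ) * (1 - ρ)⁻¹)) := by
      have h2 : Filter.Tendsto (fun n : ℕ => ((n : ℝ)) ^ (-γ)) Filter.atTop (nhds 0) :=
        (tendsto_rpow_neg_atTop hγ0).comp tendsto_natCast_atTop_atTop
      exact ((h2.mul_const _).const_mul _).mul_const _
    rw [zero_mul, mul_zero, zero_mul] at h1
    obtain ⟨n0, h3, h4⟩ := ((h1.eventually (gt_mem_nhds (zero_lt_one))).and
      (Filter.eventually_ge_atTop 1)).exists
    exact ⟨n0, h4, h3⟩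
  refine ⟨n0, hn0, ?_⟩
  obtain ⟨K, hK⟩ : ∃ K : ℝ, K = C ^ a * ((n0 : ℝ) ^ (-γ) * 2 ^ γ) := ⟨_, rfl⟩
  have hK0 : 0 ≤ K := by rw [hK]; positivity
  rw [← hK] at hsmall
  -- the steps
  have hstep : ∀ t : ℕ, mr d p δ (Gt i n0 t \ Gt i n0 (t + 1)) ≤ ENNReal.ofReal (K * ρ ^ t) := by
    intro t
    refine step_fail hn0 ?_
    intro c R hIv hcR hci
    have hRF : ∀ x ∈ R, x ∉ Fc i (c i + nn n0 t) := by
      intro x hx hxF
      have e1 : x i = c i + nn n0 t := hxF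
      have e2 := (hIv.2.1 x hx).2
      have e3 : (1 : ℤ) ≤ nn n0 t := by exact_mod_cast nn_pos hn0 t
      rw [hci] at e1
      linarith
    have h1 := fail_le (d := d) hδ0 hδp hp1 (qq_ne t) (n := nn n0 t) (c := c) (R := R)
      (F := Fc i (c i + nn n0 t)) hRF
    have h2 := hF (nn n0 t) i c (R : Set (Z d)) (nn_pos hn0 t) (Iv_dist hIv hcR hci)
    have h01 : (mb d p).real (Lk (bondM d) (Bo c (nn n0 t)) (R : Set (Z d))
      (Fc i (c i + nn n0 t))) ≤ 1 := measureReal_le_one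
    rw [← ha] at h1
    have h3 : (mr d p δ).real (Fl (qq t) (nn n0 t) c R (Fc i (c i + nn n0 t))) ≤ K * ρ ^ t := by
      have hnn : (0 : ℝ) < nn n0 t := by exact_mod_cast nn_pos hn0 t
      calc (mr d p δ).real (Fl (qq t) (nn n0 t) c R (Fc i (c i + nn n0 t)))
          ≤ (C * (nn n0 t : ℝ) ^ (-β)) ^ a := h1.trans (Real.rpow_le_rpow (by linarith) h2 ha0.le)
        _ = C ^ a * (nn n0 t : ℝ) ^ (-γ) := by
            rw [Real.mul_rpow hC.le (by positivity), ← Real.rpow_mul hnn.le, hγ]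
            congr 2
            ring
        _ ≤ C ^ a * ((n0 : ℝ) ^ (-γ) * 2 ^ γ * ((2 : ℝ) ^ (-(γ / 4))) ^ t) :=
            mul_le_mul_of_nonneg_left (nn_rpow hn0 t hγ0) (by positivity)
        _ = K * ρ ^ t := by rw [hK, hρ]; ring
    rw [ENNReal.le_ofReal_iff_toReal_le (measure_ne_top _ _) (by positivity)]
    exact h3
  have hcomp : mr d p δ (Ga i n0)ᶜ < 1 := by
    calc mr d p δ (Ga i n0)ᶜ ≤ mr d p δ (⋃ t : ℕ, (Gt i n0 t \ Gt i n0 (t + 1))) :=
          measure_mono (Ga_compl i n0)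
      _ ≤ ∑' t : ℕ, mr d p δ (Gt i n0 t \ Gt i n0 (t + 1)) := measure_iUnion_le _
      _ ≤ ∑' t : ℕ, ENNReal.ofReal (K * ρ ^ t) := ENNReal.tsum_le_tsum hstep
      _ = ENNReal.ofReal (∑' t : ℕ, K * ρ ^ t) :=
          (ENNReal.ofReal_tsum_of_nonneg (fun t => by positivity)
            ((summable_geometric_of_lt_one hρ0.le hρ1).mul_left K)).symm
      _ = ENNReal.ofReal (K * (1 - ρ)⁻¹) := by
          rw [tsum_mul_left, tsum_geometric_of_lt_one hρ0.le hρ1]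
      _ < 1 := by
          rw [ENNReal.ofReal_lt_one]
          exact hsmall
  rw [pos_iff_ne_zero]
  intro h0
  rw [(prob_compl_eq_one_iff (Ga_meas i n0)).2 h0] at hcomp
  exact lt_irrefl _ hcomp

/-- **Percolation in half-spaces** above the critical point, for bond percolation in dimension at
least three. -/
theorem half (hd : 3 ≤ d) {p : unitInterval} (hp : pc (bondM d) < p) (i : Fin d) :
    0 < (mb d p).real (PH i) := by
  have hp' : (pc (bondM d) : ℝ) < p := hp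
  have hpc0 : 0 ≤ (pc (bondM d) : ℝ) := (pc (bondM d)).2.1
  have hp1 : (p : ℝ) ≤ 1 := p.2.2
  set p0 : unitInterval := ⟨((pc (bondM d) : ℝ) + p) / 2, by linarith, by linarith⟩ with hp0d
  have hv0 : (p0 : ℝ) = ((pc (bondM d) : ℝ) + p) / 2 := rfl
  set δ : unitInterval := ⟨((p : ℝ) - p0) / 8, by rw [hv0]; linarith, by rw [hv0]; linarith⟩
    with hδd
  have hvδ : (δ : ℝ) = ((p : ℝ) - p0) / 8 := rfl
  have h1 : pc (bondM d) < p0 := by
    show (pc (bondM d) : ℝ) < p0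
    rw [hv0]; linarith
  have h2 : (p0 : ℝ) < 1 := by rw [hv0]; linarith
  have h3 : 0 < (δ : ℝ) := by rw [hvδ, hv0]; linarith
  have h4 : δ ≤ p0 := by
    show (δ : ℝ) ≤ p0
    rw [hvδ, hv0]; linarith
  obtain ⟨n0, hn0, hpos⟩ := chain_pos hd h1 h2 h3 h4 i
  -- the union of the fields is below `p`
  have h5 : pu p0 δ ≤ p := by
    show 1 - (1 - (p0 : ℝ)) * (1 - (δ : ℝ)) ^ 8 ≤ p
    have e1 : 1 - 8 * (δ : ℝ) ≤ (1 - (δ : ℝ)) ^ 8 := by
      have := one_add_mul_le_pow (a := -(δ : ℝ)) (by linarith [δ.2.2]) 8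
      push_cast at this
      have e2 : (1 + -(δ : ℝ)) = 1 - δ := by ring
      rw [e2] at this
      linarith
    have e3 : (1 - (p0 : ℝ)) * (1 - 8 * (δ : ℝ)) ≤ (1 - (p0 : ℝ)) * (1 - (δ : ℝ)) ^ 8 :=
      mul_le_mul_of_nonneg_left e1 (by linarith)
    have e4 : 8 * (δ : ℝ) = p - p0 := by rw [hvδ]; ring
    rw [e4] at e3
    have e5 : (1 - (p0 : ℝ)) * (1 - ((p : ℝ) - p0)) ≥ 1 - p := by
      have : 0 ≤ (p0 : ℝ) * ((p : ℝ) - p0) := by
        refine mul_nonneg p0.2.1 ?_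
        rw [hv0]; linarith
      nlinarith
    linarith
  have h6 := un_le p0 δ p h5 (cl_meas (Hs i) (0 : Z d)) (cl_inc (Hs i) 0)
  -- the chain with an open initial path
  have h7 : mr d p0 δ (Ga i n0 ∩ Po i n0) = mr d p0 δ (Ga i n0) * mr d p0 δ (Po i n0) := by
    have hm : MeasurableSet (Po i n0 : Set (Cf d)) :=
      Pool.Agent.W45.PC.s_depmeas _ _ _ (Po_dep i n0)
    exact Pool.Agent.W45.PC.s_indep _ _ _ _ _ _ (Ga_dep i n0) (Po_dep i n0) disjoint_compl_left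
      (Ga_meas i n0) hm
  have h8 : 0 < mr d p0 δ (Po i n0) := by
    have := Po_pos i n0 (p := p0) (δ := δ) (by linarith)
    exact (ENNReal.toReal_pos_iff.1 this).1
  have h9 : 0 < mr d p0 δ (Ga i n0 ∩ Po i n0) := by
    rw [h7]
    exact ENNReal.mul_pos hpos.ne' h8.ne'
  have h10 : mr d p0 δ (Ga i n0 ∩ Po i n0) ≤ mb d p (PH i) := by
    refine (measure_mono ?_).trans h6
    rintro ω ⟨g1, g2⟩
    exact PH_of hn0 g1 g2
  exact ENNReal.toReal_pos (lt_of_lt_of_le h9 h10).ne' (measure_ne_top _ _)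

end

end Pool.Agent.Helper401_HS
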