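import Pool.Agent.Helper401_HS.Hole
import Pool.Agent.Helper401_FP.Crit

set_option autoImplicit false

open MeasureTheory Set

/-!
Truncated one-arm probabilities and connections to a face (helper401).
-/

namespace Pool.Agent.Helper401_HS

open Pool.Agent.Y990.CB Pool.Agent.Y990.OA
open Pool.Agent.W783.PC (pm DepOn Inc bern)
open Pool.Agent.W424.PC
open Pool.Agent.Helper401_FP (two_arm th_mono Perc_dep)

noncomputable section

variable {d : ℕ}

lemma fr_or {z y : Z d} {r N : ℕ} (h : r ≤ N) (hy : y ∈ Fr z N) : y ∉ Bo z r ∨ y ∈ Fr z r := by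
  by_cases hc : y ∈ Bo z r
  · right
    refine ⟨hc, ?_⟩
    obtain ⟨i, hi⟩ := hy.2
    refine ⟨i, le_antisymm (hc i) ?_⟩
    rw [hi]
    exact_mod_cast h
  · exact Or.inl hc

lemma Am_anti {ω : Sym2 (Z d) → Bool} {z x : Z d} {r N : ℕ} (h : r ≤ N) (hx : x ∈ Bo z r)
    (hA : Am (bondM d) ω z N x) : Am (bondM d) ω z r x := by
  obtain ⟨x', h1, h2⟩ := hA
  exact exit_Am hx (fr_or h h1) h2

lemma Av_meas (k n : ℕ) : MeasurableSet (Av d k n) := Lk_meas (bondM d) _ _ _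

/-- Percolation parameters above the critical point. -/
lemma th_pos_of_gt {q : unitInterval} (h : pc (bondM d) < q) : 0 < th (bondM d) q := by
  have hb : BddAbove {x : ℝ | ∃ q : unitInterval, (q : ℝ) = x ∧ th (bondM d) q = 0} :=
    ⟨1, by rintro x ⟨q, rfl, _⟩; exact q.2.2⟩
  have h0 : 0 ≤ th (bondM d) q := measureReal_nonneg
  rcases h0.lt_or_eq with h1 | h1
  · exact h1
  · exfalso
    have h2 : (q : ℝ) ≤ sSup {x : ℝ | ∃ q : unitInterval, (q : ℝ) = x ∧ th (bondM d) q = 0} :=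
      le_csSup hb ⟨q, rfl, h1.symm⟩
    have h3 : (pc (bondM d) : ℝ) < q := h
    exact absurd h3 (not_lt.2 h2)

/-- Holes above the critical point. -/
theorem hole_pc {p : unitInterval} (hp : pc (bondM d) < p) :
    ∃ C β : ℝ, 0 < C ∧ 0 < β ∧ ∀ k n : ℕ, 1 ≤ k → k ≤ n →
      hol (bondM d) p k n ≤ C * (k : ℝ) ^ (-β) := by
  have hp' : (pc (bondM d) : ℝ) < p := hp
  set q : unitInterval := ⟨((pc (bondM d) : ℝ) + p) / 2,
    by linarith [(pc (bondM d)).2.1, p.2.1], by linarith [(pc (bondM d)).2.2, p.2.2]⟩ with hq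
  have h1 : pc (bondM d) < q := by
    show (pc (bondM d) : ℝ) < ((pc (bondM d) : ℝ) + p) / 2
    linarith
  have h2 : q < p := by
    show ((pc (bondM d) : ℝ) + p) / 2 < p
    linarith
  exact hole_poly h2 (th_pos_of_gt h1)

/-- **The truncated one-arm probability is polynomially small.** -/
theorem arm_poly (hd : 3 ≤ d) {p : unitInterval} (hp : pc (bondM d) < p) :
    ∃ C β : ℝ, 0 < C ∧ 0 < β ∧ ∀ r N : ℕ, 1 ≤ r →
      (mb d p).real {ω | Am (bondM d) ω 0 r 0 ∧ ¬ Am (bondM d) ω 0 N 0} ≤ C * (r : ℝ) ^ (-β) := by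
  obtain ⟨A, hA2, hA⟩ := two_arm hd
  obtain ⟨C1, β1, hC1, hβ1, hH⟩ := hole_pc hp
  obtain ⟨C', β, hC', hβ, hF⟩ := to_poly 2 (2 * A) (by omega) (C1 + 8) (min β1 (1 / 50))
    (by positivity) (by positivity)
  refine ⟨C', β, hC', hβ, fun r N hr => ?_⟩
  refine hF (fun r => (mb d p).real {ω | Am (bondM d) ω 0 r 0 ∧ ¬ Am (bondM d) ω 0 N 0})
    (fun _ => measureReal_le_one) ?_ r hr
  intro m hm2 hm1 r hmr
  have hmR : (1 : ℝ) ≤ m := by exact_mod_cast hm1
  have hmR0 : (0 : ℝ) < m := by linarith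
  have hkA : (m + 2) ^ A ≤ r := by
    have h1 : m + 2 ≤ m ^ 2 := by nlinarith
    calc (m + 2) ^ A ≤ (m ^ 2) ^ A := Nat.pow_le_pow_left h1 A
      _ = m ^ (2 * A) := by rw [pow_mul]
      _ ≤ r := hmr
  have hmr' : m ≤ r := by
    calc m = m ^ 1 := (pow_one m).symm
      _ ≤ m ^ (2 * A) := Nat.pow_le_pow_right hm1 (by omega)
      _ ≤ r := hmr
  show (mb d p).real {ω | Am (bondM d) ω 0 r 0 ∧ ¬ Am (bondM d) ω 0 N 0} ≤ _
  by_cases hrN : r ≤ N
  swap
  · have : {ω : Sym2 (Z d) → Bool | Am (bondM d) ω 0 r 0 ∧ ¬ Am (bondM d) ω 0 N 0} = ∅ := by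
      rw [Set.eq_empty_iff_forall_notMem]
      rintro ω ⟨h1, h2⟩
      exact h2 (Am_anti (by omega) (self_mem_Bo 0 N) h1)
    rw [this, measureReal_empty]
    positivity
  have hsub : {ω : Sym2 (Z d) → Bool | Am (bondM d) ω 0 r 0 ∧ ¬ Am (bondM d) ω 0 N 0} ⊆
      (Av d m N)ᶜ ∪ Ta (bondM d) 0 m r := by
    rintro ω ⟨h1, h2⟩
    by_cases hc1 : ω ∈ Av d m N
    swap
    · exact Or.inl hc1
    refine Or.inr ?_
    by_contra hc2
    obtain ⟨x, hx, y, hy, hxy⟩ := hc1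
    have hAx : Am (bondM d) ω 0 r x := exit_Am (Bo_mono 0 hmr' hx) (fr_or hrN hy) hxy
    have hreach : (G (bondM d) ω (Bo 0 r)).Reachable 0 x := by
      by_contra hr'
      exact hc2 ⟨0, self_mem_Bo 0 m, x, hx, h1, hAx, hr'⟩
    exact h2 ⟨y, hy, (reach_mono (Bo_mono 0 hrN) hreach).trans hxy⟩
  have h1 : (mb d p).real (Av d m N)ᶜ ≤ C1 * (m : ℝ) ^ (-β1) := by
    rw [probReal_compl_eq_one_sub (Av_meas m N)]
    have := hH m N hm1 (hmr'.trans hrN)
    rw [hol_Av] at this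
    exact this
  have h2 : (mb d p).real (Ta (bondM d) 0 m r) ≤ 8 * (r : ℝ) ^ (-(1 / 50 : ℝ)) :=
    hA p hp.le m r hkA
  have h3 : (m : ℝ) ^ (-β1) ≤ (m : ℝ) ^ (-(min β1 (1 / 50))) :=
    Real.rpow_le_rpow_of_exponent_le hmR (neg_le_neg (min_le_left _ _))
  have h4 : (r : ℝ) ^ (-(1 / 50 : ℝ)) ≤ (m : ℝ) ^ (-(min β1 (1 / 50))) := by
    calc (r : ℝ) ^ (-(1 / 50 : ℝ)) ≤ (m : ℝ) ^ (-(1 / 50 : ℝ)) :=
          Real.rpow_le_rpow_of_nonpos hmR0 (by exact_mod_cast hmr') (by norm_num)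
      _ ≤ _ := Real.rpow_le_rpow_of_exponent_le hmR (neg_le_neg (min_le_right _ _))
  calc (mb d p).real {ω | Am (bondM d) ω 0 r 0 ∧ ¬ Am (bondM d) ω 0 N 0}
      ≤ (mb d p).real ((Av d m N)ᶜ ∪ Ta (bondM d) 0 m r) :=
        measureReal_mono hsub (measure_ne_top _ _)
    _ ≤ (mb d p).real (Av d m N)ᶜ + (mb d p).real (Ta (bondM d) 0 m r) := measureReal_union_le _ _
    _ ≤ C1 * (m : ℝ) ^ (-(min β1 (1 / 50))) + 8 * (m : ℝ) ^ (-(min β1 (1 / 50))) := by
        refine add_le_add (h1.trans (mul_le_mul_of_nonneg_left h3 hC1.le))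
          (h2.trans (mul_le_mul_of_nonneg_left h4 (by norm_num)))
    _ = (C1 + 8) * (m : ℝ) ^ (-(min β1 (1 / 50))) := by ring

/-! ### Symmetries -/

/-- Connections in a transformed region. -/
theorem Lk_symm (p : unitInterval) (σ : Z d ≃ Z d) (hσ : ∀ x y, Nb (σ x) (σ y) ↔ Nb x y)
    (R A B : Set (Z d)) :
    (mb d p).real (Lk (bondM d) (σ '' R) (σ '' A) (σ '' B)) =
      (mb d p).real (Lk (bondM d) R A B) := by
  have h := mu_inv_real (bondM d) p σ (Lk_meas (bondM d) R A B)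
  refine Eq.trans ?_ h
  have e : Lk (bondM d) (σ '' R) (σ '' A) (σ '' B) =
      {ω | (fun c => ω ((bondM d).tr σ c)) ∈ Lk (bondM d) R A B} := by
    ext ω
    constructor
    · rintro ⟨_, ⟨x, hx, rfl⟩, _, ⟨y, hy, rfl⟩, h⟩
      exact ⟨x, hx, y, hy, (reach_sym (bondM d) σ hσ ω R x y).2 h⟩
    · rintro ⟨x, hx, y, hy, h⟩
      exact ⟨σ x, ⟨x, hx, rfl⟩, σ y, ⟨y, hy, rfl⟩, (reach_sym (bondM d) σ hσ ω R x y).1 h⟩
  rw [e]
  rfl

/-- The face in direction `i`. -/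
def Fc (i : Fin d) (t : ℤ) : Set (Z d) := {x | x i = t}

/-- Exchange of two coordinates and multiplication by a sign. -/
def sg (i j : Fin d) (t : ℤˣ) : Z d ≃ Z d where
  toFun x := fun l => (t : ℤ) * x (Equiv.swap i j l)
  invFun x := fun l => (t : ℤ) * x (Equiv.swap i j l)
  left_inv x := by
    funext l
    simp only [Equiv.swap_apply_self]
    rw [← mul_assoc, Int.units_coe_mul_self, one_mul]
  right_inv x := by
    funext l
    simp only [Equiv.swap_apply_self]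
    rw [← mul_assoc, Int.units_coe_mul_self, one_mul]

lemma sg_apply (i j : Fin d) (t : ℤˣ) (x : Z d) (l : Fin d) :
    sg i j t x l = (t : ℤ) * x (Equiv.swap i j l) := rfl

lemma abs_unit (t : ℤˣ) (a : ℤ) : |(t : ℤ) * a| = |a| := by
  rcases Int.units_eq_one_or t with rfl | rfl <;> simp

lemma sg_Nb (i j : Fin d) (t : ℤˣ) (x y : Z d) : Nb (sg i j t x) (sg i j t y) ↔ Nb x y := by
  unfold Nb
  have : ∑ l, |sg i j t x l - sg i j t y l| = ∑ l, |x l - y l| := by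
    simp only [sg_apply, ← mul_sub, abs_unit]
    exact Equiv.sum_comp (Equiv.swap i j) (fun l => |x l - y l|)
  rw [this]

lemma sg_Bo (i j : Fin d) (t : ℤˣ) (L : ℕ) : sg i j t '' Bo 0 L = Bo (0 : Z d) L := by
  have key : ∀ x : Z d, x ∈ Bo (0 : Z d) L → sg i j t x ∈ Bo (0 : Z d) L := by
    intro x hx l
    have := hx (Equiv.swap i j l)
    simp only [Pi.zero_apply, sub_zero] at this ⊢
    rw [sg_apply, abs_unit]
    exact this
  ext x
  constructor
  · rintro ⟨y, hy, rfl⟩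
    exact key y hy
  · intro hx
    exact ⟨sg i j t x, key x hx, (sg i j t).left_inv x⟩

lemma sg_Fc (i j : Fin d) (t : ℤˣ) (s : ℤ) : sg i j t '' Fc i s = Fc j (t * s) := by
  ext x
  constructor
  · rintro ⟨y, hy, rfl⟩
    have hy' : y i = s := hy
    show sg i j t y j = t * s
    rw [sg_apply, Equiv.swap_apply_right, hy']
  · intro hx
    have hx' : x j = t * s := hx
    refine ⟨sg i j t x, ?_, (sg i j t).left_inv x⟩
    show sg i j t x i = s
    rw [sg_apply, Equiv.swap_apply_left, hx', ← mul_assoc, Int.units_coe_mul_self, one_mul]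

/-- All faces are reached with the same probability. -/
lemma face_sym (p : unitInterval) (i j : Fin d) (t : ℤˣ) (k n : ℕ) :
    (mb d p).real (Lk (bondM d) (Bo 0 n) (Bo 0 k) (Fc j (t * n))) =
      (mb d p).real (Lk (bondM d) (Bo 0 n) (Bo 0 k) (Fc i n)) := by
  have h := Lk_symm p (sg i j t) (sg_Nb i j t) (Bo (0 : Z d) n) (Bo 0 k) (Fc i n)
  rw [sg_Bo, sg_Bo, sg_Fc] at h
  exact h

/-- The square root trick: a face is missed with small probability. -/
theorem face_miss (p : unitInterval) (i : Fin d) (k n : ℕ) :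
    (1 - (mb d p).real (Lk (bondM d) (Bo 0 n) (Bo 0 k) (Fc i n))) ^ (2 * d) ≤
      hol (bondM d) p k n := by
  classical
  set q := 1 - (mb d p).real (Lk (bondM d) (Bo 0 n) (Bo 0 k) (Fc i n)) with hq
  set A : Fin d × ℤˣ → Set (Sym2 (Z d) → Bool) := fun a =>
    Lk (bondM d) (Bo 0 n) (Bo 0 k) (Fc a.1 (a.2 * n)) with hA
  have h01 : (mb d p).real (Lk (bondM d) (Bo 0 n) (Bo 0 k) (Fc i n)) ≤ 1 := measureReal_le_one
  have h := harris_prod (bondM d) p (S := In (bondM d) (Bo (0 : Z d) n))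
    (In_fin (bondM d) (Bo_finite 0 n)) A
    (fun a => Lk_dep (bondM d) _ _ _) (fun a => Lk_inc (bondM d) _ _ _) q
    (by rw [hq]; linarith) Finset.univ
    (fun a _ => by
      have h1 : (mu (bondM d) p).real (A a)ᶜ = 1 - (mb d p).real (A a) :=
        probReal_compl_eq_one_sub (Lk_meas (bondM d) _ _ _)
      have h2 : (mb d p).real (A a) =
          (mb d p).real (Lk (bondM d) (Bo 0 n) (Bo 0 k) (Fc i n)) := face_sym p i a.1 a.2 k n
      rw [h1, h2])
  have hcard : (Finset.univ : Finset (Fin d × ℤˣ)).card = 2 * d := by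
    rw [Finset.card_univ, Fintype.card_prod, Fintype.card_fin, Fintype.card_units_int]
    ring
  rw [hcard] at h
  refine h.trans ?_
  unfold hol
  refine measureReal_mono ?_ (measure_ne_top _ _)
  intro ω hω hc
  obtain ⟨x, hx, y, hy, hxy⟩ := hc
  obtain ⟨j, hj⟩ := hy.2
  rw [mem_iInter₂] at hω
  simp only [Pi.zero_apply, sub_zero] at hj
  have hn0 : (0 : ℤ) ≤ n := Int.natCast_nonneg n
  rcases abs_cases (y j) with ⟨h1, _⟩ | ⟨h1, _⟩
  · refine hω (j, 1) (Finset.mem_univ _) ⟨x, hx, y, ?_, hxy⟩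
    show y j = ((1 : ℤˣ) : ℤ) * n
    rw [Units.val_one, one_mul]
    linarith
  · refine hω (j, -1) (Finset.mem_univ _) ⟨x, hx, y, ?_, hxy⟩
    show y j = ((-1 : ℤˣ) : ℤ) * n
    rw [Units.val_neg, Units.val_one]
    linarith

end

end Pool.Agent.Helper401_HS
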