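import Pool.Agent.Helper401_HS.Step

set_option autoImplicit false

open MeasureTheory Set

/-!
The chain of explorations along a direction (helper401).
-/

namespace Pool.Agent.Helper401_HS

open Pool.Agent.Y990.CB Pool.Agent.Y990.OA
open Pool.Agent.W783.PC (pm DepOn Inc bern)
open Pool.Agent.W424.PC

noncomputable section

variable {d : ℕ}

/-- The radii. -/
def nn (n0 t : ℕ) : ℕ := n0 * 2 ^ (t / 4)

/-- The levels. -/
def Dd (n0 t : ℕ) : ℕ := nn n0 t * (4 + t % 4)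

/-- The labels of the fields. -/
def qq (t : ℕ) : Fin 9 := ⟨1 + t % 8, by omega⟩

lemma qq_ne (t : ℕ) : qq t ≠ 0 := by
  intro h
  have := congrArg Fin.val h
  simp [qq] at this

lemma qq_eq {s t : ℕ} (h : qq s = qq t) : s % 8 = t % 8 := by
  have := congrArg Fin.val h
  simp only [qq] at this
  omega

lemma Dd_succ (n0 t : ℕ) : Dd n0 (t + 1) = Dd n0 t + nn n0 t := by
  unfold Dd nn
  rcases Nat.lt_or_ge (t % 4) 3 with h | h
  · have h1 : (t + 1) / 4 = t / 4 := by omega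
    have h2 : (t + 1) % 4 = t % 4 + 1 := by omega
    rw [h1, h2]
    ring
  · have h0 : t % 4 = 3 := by omega
    have h1 : (t + 1) / 4 = t / 4 + 1 := by omega
    have h2 : (t + 1) % 4 = 0 := by omega
    rw [h1, h2, h0, pow_succ]
    ring

lemma nn_le (n0 t : ℕ) : nn n0 t ≤ Dd n0 t := Nat.le_mul_of_pos_right _ (by omega)

lemma nn_pos {n0 : ℕ} (h : 1 ≤ n0) (t : ℕ) : 1 ≤ nn n0 t := by
  unfold nn
  exact Nat.mul_pos h (by positivity)

lemma Dd_ge {n0 : ℕ} (h : 1 ≤ n0) (t : ℕ) : t ≤ Dd n0 t := by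
  induction t with
  | zero => exact Nat.zero_le _
  | succ t ih =>
    rw [Dd_succ]
    have := nn_pos h t
    omega

lemma slab_sep {n0 : ℕ} (h0 : 1 ≤ n0) {s t : ℕ} (hst : s < t) (h8 : s % 8 = t % 8) :
    Dd n0 s + nn n0 s + nn n0 t < Dd n0 t := by
  obtain ⟨u, hu⟩ : ∃ u, t = s + 8 * (u + 1) := ⟨(t - s) / 8 - 1, by omega⟩
  subst hu
  unfold Dd
  have h1 : (s + 8 * (u + 1)) / 4 = s / 4 + 2 * (u + 1) := by omega
  have h2 : (s + 8 * (u + 1)) % 4 = s % 4 := by omega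
  have h3 : nn n0 (s + 8 * (u + 1)) = nn n0 s * (4 * 4 ^ u) := by
    unfold nn
    rw [h1, pow_add, pow_mul, pow_succ]
    ring
  rw [h2, h3]
  have hn := nn_pos h0 s
  have h4 : 1 ≤ 4 ^ u := Nat.one_le_pow _ _ (by norm_num)
  obtain ⟨v, hv⟩ : ∃ v, 4 ^ u = v + 1 := ⟨4 ^ u - 1, by omega⟩
  rw [hv]
  set n := nn n0 s
  set m := s % 4
  have : n * (4 + m) + n + n * (4 * (v + 1)) < n * (4 * (v + 1)) * (4 + m) := by
    have e1 : n * (4 * (v + 1)) * (4 + m) = n * (4 * (v + 1)) + n * (4 * (v + 1)) * (3 + m) := by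
      ring
    rw [e1]
    have e2 : n * (4 + m) + n < n * (4 * (v + 1)) * (3 + m) := by
      have e3 : n * (4 * (v + 1)) * (3 + m) =
          n * (4 + m) + n + n * (7 + 3 * m) + n * (4 * v) * (3 + m) := by ring
      rw [e3]
      have : 0 < n * (7 + 3 * m) := by positivity
      omega
    omega
  exact this

/-- The initial path. -/
def R0 (i : Fin d) (n0 : ℕ) : Finset (Z d) :=
  (Finset.range (Dd n0 0 + 1)).image (fun j : ℕ => (Pi.single i (j : ℤ) : Z d))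

lemma mem_R0 {i : Fin d} {n0 : ℕ} {x : Z d} :
    x ∈ R0 i n0 ↔ ∃ j : ℕ, j ≤ Dd n0 0 ∧ x = Pi.single i (j : ℤ) := by
  unfold R0
  rw [Finset.mem_image]
  constructor
  · rintro ⟨j, hj, rfl⟩
    exact ⟨j, by have := Finset.mem_range.1 hj; omega, rfl⟩
  · rintro ⟨j, hj, rfl⟩
    exact ⟨j, Finset.mem_range.2 (by omega), rfl⟩

open Classical in
/-- A vertex of `R` at level `D`. -/
def pk (i : Fin d) (D : ℕ) (R : Finset (Z d)) : Z d :=
  if h : ∃ c ∈ R, c i = (D : ℤ) then h.choose else 0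

lemma pk_spec {i : Fin d} {D : ℕ} {R : Finset (Z d)} (h : ∃ c ∈ R, c i = (D : ℤ)) :
    pk i D R ∈ R ∧ pk i D R i = (D : ℤ) := by
  unfold pk
  rw [dif_pos h]
  exact h.choose_spec

open Classical in
/-- One step. -/
def nx (i : Fin d) (n0 t : ℕ) (ω : Cf d) (R : Finset (Z d)) : Finset (Z d) :=
  if (∃ c ∈ R, c i = (Dd n0 t : ℤ)) then R ∪ Nw ω (qq t) (nn n0 t) (pk i (Dd n0 t) R) R else R

/-- The explored sets. -/
def Rt (i : Fin d) (n0 : ℕ) (ω : Cf d) : ℕ → Finset (Z d)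
  | 0 => R0 i n0
  | t + 1 => nx i n0 t ω (Rt i n0 ω t)

lemma nx_pos {i : Fin d} {n0 t : ℕ} {ω : Cf d} {R : Finset (Z d)}
    (h : ∃ c ∈ R, c i = (Dd n0 t : ℤ)) :
    nx i n0 t ω R = R ∪ Nw ω (qq t) (nn n0 t) (pk i (Dd n0 t) R) R := by
  unfold nx
  rw [if_pos h]

lemma nx_neg {i : Fin d} {n0 t : ℕ} {ω : Cf d} {R : Finset (Z d)}
    (h : ¬ ∃ c ∈ R, c i = (Dd n0 t : ℤ)) : nx i n0 t ω R = R := by
  unfold nx
  rw [if_neg h]

lemma sub_nx (i : Fin d) (n0 t : ℕ) (ω : Cf d) (R : Finset (Z d)) : R ⊆ nx i n0 t ω R := by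
  by_cases h : ∃ c ∈ R, c i = (Dd n0 t : ℤ)
  · rw [nx_pos h]
    exact Finset.subset_union_left
  · rw [nx_neg h]

lemma Rt_mono (i : Fin d) (n0 : ℕ) (ω : Cf d) {s t : ℕ} (h : s ≤ t) :
    Rt i n0 ω s ⊆ Rt i n0 ω t := by
  induction t, h using Nat.le_induction with
  | base => exact Finset.Subset.refl _
  | succ t _ ih => exact ih.trans (sub_nx i n0 t ω _)

/-- The invariants. -/
def Iv (i : Fin d) (n0 t : ℕ) (R : Finset (Z d)) : Prop :=
  R0 i n0 ⊆ R ∧ (∀ x ∈ R, 0 ≤ x i ∧ x i ≤ Dd n0 t) ∧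
    ∀ x ∈ R, (G (bondM d) (fun _ => true) (R : Set (Z d))).Reachable 0 x

lemma zero_mem_R0 (i : Fin d) (n0 : ℕ) : (0 : Z d) ∈ R0 i n0 :=
  mem_R0.2 ⟨0, Nat.zero_le _, by simp⟩

lemma nb_single (i : Fin d) (j : ℤ) : Nb (Pi.single i j : Z d) (Pi.single i (j + 1)) := by
  unfold Nb
  rw [Finset.sum_eq_single i]
  · simp
  · intro l _ hl
    simp [Pi.single_eq_of_ne hl]
  · intro h
    exact absurd (Finset.mem_univ i) h

lemma Iv_zero (i : Fin d) (n0 : ℕ) : Iv i n0 0 (R0 i n0) := by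
  refine ⟨Finset.Subset.refl _, ?_, ?_⟩
  · intro x hx
    obtain ⟨j, hj, rfl⟩ := mem_R0.1 hx
    simp only [Pi.single_eq_same]
    exact ⟨by positivity, by exact_mod_cast hj⟩
  · intro x hx
    obtain ⟨j, hj, rfl⟩ := mem_R0.1 hx
    clear hx
    induction j with
    | zero => simp
    | succ j ih =>
      refine (ih (by omega)).trans (SimpleGraph.Adj.reachable ?_)
      refine adjb.2 ⟨?_, ?_, ?_, rfl⟩
      · have := nb_single i (j : ℤ)
        push_cast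
        exact this
      · exact Finset.mem_coe.2 (mem_R0.2 ⟨j, by omega, rfl⟩)
      · exact Finset.mem_coe.2 (mem_R0.2 ⟨j + 1, hj, rfl⟩)

lemma Nw_level {ω : Cf d} {q : Fin 9} {n : ℕ} {c : Z d} {R : Finset (Z d)} {x : Z d} (i : Fin d)
    (h : x ∈ Nw ω q n c R) : |x i - c i| ≤ n := (mem_Nw.1 h).1 i

lemma Iv_nx {i : Fin d} {n0 t : ℕ} {ω : Cf d} {R : Finset (Z d)} (h : Iv i n0 t R) :
    Iv i n0 (t + 1) (nx i n0 t ω R) := by
  obtain ⟨h1, h2, h3⟩ := h
  have hD : (Dd n0 (t + 1) : ℤ) = Dd n0 t + nn n0 t := by exact_mod_cast Dd_succ n0 t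
  have hn : (nn n0 t : ℤ) ≤ Dd n0 t := by exact_mod_cast nn_le n0 t
  by_cases hc : ∃ c ∈ R, c i = (Dd n0 t : ℤ)
  · obtain ⟨hpk, hpi⟩ := pk_spec hc
    rw [nx_pos hc]
    refine ⟨h1.trans Finset.subset_union_left, ?_, ?_⟩
    · intro x hx
      rcases Finset.mem_union.1 hx with hx | hx
      · have := h2 x hx
        exact ⟨this.1, by linarith [this.2, Int.natCast_nonneg (nn n0 t)]⟩
      · have h4 := abs_le.1 (Nw_level i hx)
        rw [hpi] at h4
        constructor <;> linarith [h4.1, h4.2]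
    · intro x hx
      have hmono : ∀ y z : Z d, (G (bondM d) (fun _ => true) (R : Set (Z d))).Reachable y z →
          (G (bondM d) (fun _ => true) ((R ∪ Nw ω (qq t) (nn n0 t) (pk i (Dd n0 t) R) R :
            Finset (Z d)) : Set (Z d))).Reachable y z := fun y z h =>
        reach_mono (Finset.coe_subset.2 Finset.subset_union_left) h
      rcases Finset.mem_union.1 hx with hx | hx
      · exact hmono 0 x (h3 x hx)
      · obtain ⟨u, hu, hr⟩ := Nw_reach hx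
        exact (hmono 0 u (h3 u hu)).trans
          (hr.mono (G_mono (bondM d) (fun _ _ => rfl) (Subset.refl _)))
  · rw [nx_neg hc]
    refine ⟨h1, fun x hx => ?_, h3⟩
    have := h2 x hx
    exact ⟨this.1, by linarith [this.2, Int.natCast_nonneg (nn n0 t)]⟩

lemma Iv_Rt (i : Fin d) (n0 : ℕ) (ω : Cf d) (t : ℕ) : Iv i n0 t (Rt i n0 ω t) := by
  induction t with
  | zero => exact Iv_zero i n0
  | succ t ih => exact Iv_nx ih

/-- The norm changes by at most one along an edge. -/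
lemma nm_nb {a b c : Z d} (h : Nb a b) : nm (b - c) ≤ nm (a - c) + 1 := by
  rw [nm_le]
  intro l
  have h1 := abs_le_nm (a - c) l
  have h2 := Nb_coord (Nb_comm.1 h) l
  have h3 : |(b - c) l| ≤ |b l - a l| + |(a - c) l| := by
    simp only [Pi.sub_apply]
    exact abs_sub_le _ _ _
  push_cast
  linarith

lemma walk_nm {ω : Sym2 (Z d) → Bool} {R : Set (Z d)} {c a b : Z d} {ρ : ℕ}
    (w : (G (bondM d) ω R).Walk a b) (ha : a ∈ R) (h1 : nm (a - c) ≤ ρ) (h2 : ρ ≤ nm (b - c)) :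
    ∃ z ∈ R, nm (z - c) = ρ := by
  induction w with
  | nil => exact ⟨_, ha, le_antisymm h1 h2⟩
  | cons h q ih =>
    rename_i a a' b
    by_cases he : nm (a - c) = ρ
    · exact ⟨a, ha, he⟩
    · obtain ⟨g1, g2, g3, g4⟩ := adjb.1 h
      refine ih g3 ?_ h2
      have := nm_nb (c := c) g1
      omega

/-- There are points of `R` at all distances up to `nn n0 t`. -/
lemma Iv_dist {i : Fin d} {n0 t : ℕ} {R : Finset (Z d)} (h : Iv i n0 t R) {c : Z d} (hc : c ∈ R)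
    (hci : c i = (Dd n0 t : ℤ)) : ∀ ρ ≤ nn n0 t, ∃ a ∈ (R : Set (Z d)), nm (a - c) = ρ := by
  intro ρ hρ
  obtain ⟨w⟩ := (h.2.2 c hc).symm
  refine walk_nm w (Finset.mem_coe.2 hc) ?_ ?_
  · rw [sub_self]
    have : nm (0 : Z d) = 0 := Nat.le_zero.1 (nm_le.2 (by intro l; simp))
    omega
  · have h1 := abs_le_nm (0 - c) i
    rw [Pi.sub_apply, Pi.zero_apply, zero_sub, abs_neg, hci] at h1
    have h2 : Dd n0 t ≤ nm (0 - c) := by
      have : |(Dd n0 t : ℤ)| = Dd n0 t := abs_of_nonneg (by positivity)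
      rw [this] at h1
      exact_mod_cast h1
    exact hρ.trans ((nn_le n0 t).trans h2)

/-! ### Locality -/

/-- The slab. -/
def slab (i : Fin d) (n0 t : ℕ) : Set (Z d) := {x | |x i - Dd n0 t| ≤ nn n0 t}

/-- The coordinates used before time `t`. -/
def Vt (i : Fin d) (n0 t : ℕ) (R : Finset (Z d)) : Set (J (Sym2 (Z d))) :=
  {x | (x.1 = 0 ∧ Tch x.2 (R : Set (Z d))) ∨ ∃ s < t, x.1 = qq s ∧ x.2 ∈ In (bondM d) (slab i n0 s)}

lemma Bo_slab {i : Fin d} {n0 t : ℕ} {c : Z d} (h : c i = (Dd n0 t : ℤ)) :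
    Bo c (nn n0 t) ⊆ slab i n0 t := by
  intro x hx
  have := hx i
  rw [h] at this
  exact this

lemma nx_local {i : Fin d} {n0 t : ℕ} {ω ω' : Cf d} {R : Finset (Z d)}
    (h1 : ∀ e, e ∈ In (bondM d) (slab i n0 t) → ω (qq t, e) = ω' (qq t, e))
    (h2 : ∀ e, Tch e (nx i n0 t ω R : Set (Z d)) → e ∉ {e | Tch e (R : Set (Z d))} →
      ω (0, e) = ω' (0, e)) :
    nx i n0 t ω' R = nx i n0 t ω R := by
  by_cases hc : ∃ c ∈ R, c i = (Dd n0 t : ℤ)
  · obtain ⟨hpk, hpi⟩ := pk_spec hc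
    rw [nx_pos hc] at h2
    rw [nx_pos hc, nx_pos hc, Nw_local (ω := ω) (ω' := ω')]
    · intro e he
      exact h1 e (In_mono (bondM d) (Bo_slab hpi) he)
    · intro e ht he
      refine h2 e ?_ ?_
      · obtain ⟨x, hx, hxe⟩ := ht
        exact ⟨x, Finset.mem_coe.2 (Finset.mem_union_right _ (Finset.mem_coe.1 hx)), hxe⟩
      · rintro ⟨x, hx, hxe⟩
        obtain ⟨y, rfl⟩ := Sym2.mem_iff_exists.1 hxe
        exact not_in (fun hc' => hc'.2 hx) he
  · rw [nx_neg hc, nx_neg hc]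

lemma Rt_local {i : Fin d} {n0 t : ℕ} {ω ω' : Cf d} {R : Finset (Z d)}
    (hR : Rt i n0 ω t = R) (h : ∀ x ∈ Vt i n0 t R, ω x = ω' x) :
    Rt i n0 ω' t = R := by
  have key : ∀ s, s ≤ t → Rt i n0 ω' s = Rt i n0 ω s := by
    intro s
    induction s with
    | zero => intro _; rfl
    | succ s ih =>
      intro hs
      have ih' := ih (by omega)
      show nx i n0 s ω' (Rt i n0 ω' s) = nx i n0 s ω (Rt i n0 ω s)
      rw [ih']
      refine nx_local ?_ ?_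
      · intro e he
        exact h (qq s, e) (Or.inr ⟨s, by omega, rfl, he⟩)
      · intro e ht _
        refine h (0, e) (Or.inl ⟨rfl, ?_⟩)
        obtain ⟨x, hx, hxe⟩ := ht
        have hsub : Rt i n0 ω (s + 1) ⊆ R := by
          rw [← hR]
          exact Rt_mono i n0 ω hs
        exact ⟨x, Finset.mem_coe.2 (hsub (Finset.mem_coe.1 hx)), hxe⟩
  rw [key t le_rfl, hR]

lemma Rt_dep (i : Fin d) (n0 t : ℕ) (R : Finset (Z d)) :
    DepOn {ω : Cf d | Rt i n0 ω t = R} (Vt i n0 t R) := by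
  intro ω ω' h
  exact ⟨fun hR => Rt_local hR h, fun hR => Rt_local hR fun x hx => (h x hx).symm⟩

/-- The coordinates used by the failure event. -/
def Wt (q : Fin 9) (n : ℕ) (c : Z d) (R : Finset (Z d)) : Set (J (Sym2 (Z d))) :=
  U0 (Bo c n \ (R : Set (Z d))) ∪ {x | x.1 = q ∧ x.2 ∈ In (bondM d) (Bo c n)}

lemma Fl_dep (q : Fin 9) (n : ℕ) (c : Z d) (R : Finset (Z d)) (F : Set (Z d)) :
    DepOn (Fl q n c R F) (Wt q n c R) := by
  intro ω ω' h
  show (∀ e ∈ Gd ω n c R F, ω (q, e) = false) ↔ (∀ e ∈ Gd ω' n c R F, ω' (q, e) = false)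
  rw [Gd_dep (ω := ω) (ω' := ω') fun x hx => h x (Or.inl hx)]
  refine forall₂_congr fun e he => ?_
  rw [h (q, e) (Or.inr ⟨rfl, Gd_sub he⟩)]

lemma VW_disj {i : Fin d} {n0 t : ℕ} (h0 : 1 ≤ n0) {R : Finset (Z d)} {c : Z d}
    (hc : c i = (Dd n0 t : ℤ)) : Disjoint (Vt i n0 t R) (Wt (qq t) (nn n0 t) c R) := by
  rw [Set.disjoint_left]
  rintro ⟨f, e⟩ hV hW
  rcases hV with ⟨v1, v2⟩ | ⟨s, hs, v1, v2⟩
  · rcases hW with ⟨w1, w2⟩ | ⟨w1, w2⟩
    · obtain ⟨x, hx, hxe⟩ := v2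
      obtain ⟨y, hy⟩ := Sym2.mem_iff_exists.1 hxe
      rw [hy] at w2
      exact not_in (fun hc' => hc'.2 hx) w2
    · exact qq_ne t (w1.symm.trans v1)
  · rcases hW with ⟨w1, w2⟩ | ⟨w1, w2⟩
    · exact qq_ne s (v1.symm.trans w1)
    · have h8 : s % 8 = t % 8 := qq_eq (v1.symm.trans w1)
      have hsep := slab_sep h0 hs h8
      have hdis : Disjoint (slab i n0 s) (slab i n0 t) := by
        rw [Set.disjoint_left]
        intro x hx hx'
        have e1 := abs_le.1 (show |x i - Dd n0 s| ≤ nn n0 s from hx)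
        have e2 := abs_le.1 (show |x i - Dd n0 t| ≤ nn n0 t from hx')
        have e3 : (Dd n0 s : ℤ) + nn n0 s + nn n0 t < Dd n0 t := by exact_mod_cast hsep
        linarith [e1.1, e1.2, e2.1, e2.2]
      exact Set.disjoint_left.1 (In_disj (bondM d) hdis) v2
        (In_mono (bondM d) (Bo_slab hc) w2)

end

end Pool.Agent.Helper401_HS
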