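import Pool.Agent.Helper401_HS.Chain

set_option autoImplicit false

open MeasureTheory Set

/-!
The chain of explorations succeeds with positive probability (helper401).
-/

namespace Pool.Agent.Helper401_HS

open Pool.Agent.Y990.CB Pool.Agent.Y990.OA
open Pool.Agent.W783.PC (pm DepOn Inc bern)
open Pool.Agent.W424.PC

noncomputable section

variable {d : ℕ}

lemma Nw_meas (q : Fin 9) (n : ℕ) (c : Z d) (R T : Finset (Z d)) :
    MeasurableSet {ω : Cf d | Nw ω q n c R = T} := by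
  have hfin : ({x : J (Sym2 (Z d)) | x.2 ∈ In (bondM d) (Bo c n)}).Finite := by
    have h1 : (In (bondM d) (Bo c n)).Finite := In_fin (bondM d) (Bo_finite c n)
    have h2 : {x : J (Sym2 (Z d)) | x.2 ∈ In (bondM d) (Bo c n)} ⊆
        (Set.univ : Set (Fin 9)) ×ˢ (In (bondM d) (Bo c n)) := fun x hx => ⟨trivial, hx⟩
    exact (Set.finite_univ.prod h1).subset h2
  refine Pool.Agent.W45.PC.s_depmeas _ hfin.toFinset _ ?_
  rw [hfin.coe_toFinset]
  have key : ∀ ω ω' : Cf d, (∀ x ∈ {x : J (Sym2 (Z d)) | x.2 ∈ In (bondM d) (Bo c n)},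
      ω x = ω' x) → Nw ω q n c R = T → Nw ω' q n c R = T := by
    intro ω ω' h hT
    rw [Nw_local (ω := ω) (ω' := ω'), hT]
    · intro e he
      exact h (q, e) he
    · intro e _ he
      exact h (0, e) (In_mono (bondM d) sdiff_subset he)
  intro ω ω' h
  exact ⟨key ω ω' h, key ω' ω fun x hx => (h x hx).symm⟩

lemma Rt_meas (i : Fin d) (n0 t : ℕ) (T : Finset (Z d)) :
    MeasurableSet {ω : Cf d | Rt i n0 ω t = T} := by
  induction t generalizing T with
  | zero =>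
    by_cases h : R0 i n0 = T
    · have : {ω : Cf d | Rt i n0 ω 0 = T} = univ := by
        ext ω; simp only [mem_univ, iff_true]; exact h
      rw [this]; exact MeasurableSet.univ
    · have : {ω : Cf d | Rt i n0 ω 0 = T} = ∅ := by
        ext ω; simp only [mem_empty_iff_false, iff_false]; exact h
      rw [this]; exact MeasurableSet.empty
  | succ t ih =>
    have h1 : {ω : Cf d | Rt i n0 ω (t + 1) = T} =
        ⋃ R : Finset (Z d), {ω : Cf d | Rt i n0 ω t = R} ∩ {ω : Cf d | nx i n0 t ω R = T} := by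
      ext ω
      simp only [mem_iUnion, mem_inter_iff]
      constructor
      · intro h
        exact ⟨Rt i n0 ω t, rfl, h⟩
      · rintro ⟨R, hR, h⟩
        have hR' : Rt i n0 ω t = R := hR
        show nx i n0 t ω (Rt i n0 ω t) = T
        rw [hR']
        exact h
    rw [h1]
    refine MeasurableSet.iUnion fun R => (ih R).inter ?_
    by_cases hc : ∃ c ∈ R, c i = (Dd n0 t : ℤ)
    · have h2 : {ω : Cf d | nx i n0 t ω R = T} = ⋃ N : Finset (Z d),
          {ω : Cf d | Nw ω (qq t) (nn n0 t) (pk i (Dd n0 t) R) R = N} ∩ {_ω | R ∪ N = T} := by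
        ext ω
        simp only [mem_iUnion, mem_inter_iff]
        constructor
        · intro h
          refine ⟨_, rfl, ?_⟩
          have h' : nx i n0 t ω R = T := h
          rw [nx_pos hc] at h'
          exact h'
        · rintro ⟨N, hN, h⟩
          have hN' : Nw ω (qq t) (nn n0 t) (pk i (Dd n0 t) R) R = N := hN
          show nx i n0 t ω R = T
          rw [nx_pos hc, hN']
          exact h
      rw [h2]
      exact MeasurableSet.iUnion fun N => (Nw_meas _ _ _ _ N).inter (MeasurableSet.const _)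
    · have h2 : {ω : Cf d | nx i n0 t ω R = T} = {_ω | R = T} := by
        ext ω
        show nx i n0 t ω R = T ↔ R = T
        rw [nx_neg hc]
      rw [h2]
      exact MeasurableSet.const _

/-- The level `Dd n0 t` is reached. -/
def Gt (i : Fin d) (n0 t : ℕ) : Set (Cf d) := {ω | ∃ x ∈ Rt i n0 ω t, x i = (Dd n0 t : ℤ)}

lemma Gt_meas (i : Fin d) (n0 t : ℕ) : MeasurableSet (Gt i n0 t) := by
  have h1 : Gt i n0 t = ⋃ R : Finset (Z d), {ω : Cf d | Rt i n0 ω t = R} ∩
      {_ω | ∃ x ∈ R, x i = (Dd n0 t : ℤ)} := by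
    ext ω
    simp only [mem_iUnion, mem_inter_iff]
    constructor
    · intro h
      exact ⟨Rt i n0 ω t, rfl, h⟩
    · rintro ⟨R, hR, h⟩
      have hR' : Rt i n0 ω t = R := hR
      show ∃ x ∈ Rt i n0 ω t, x i = (Dd n0 t : ℤ)
      rw [hR']
      exact h
  rw [h1]
  exact MeasurableSet.iUnion fun R => (Rt_meas i n0 t R).inter (MeasurableSet.const _)

lemma Gt_zero (i : Fin d) (n0 : ℕ) : Gt i n0 0 = univ := by
  ext ω
  simp only [mem_univ, iff_true]
  exact ⟨Pi.single i ((Dd n0 0 : ℕ) : ℤ), mem_R0.2 ⟨Dd n0 0, le_rfl, rfl⟩, by simp⟩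

/-- **One step of the chain fails with small probability.** -/
lemma step_fail {i : Fin d} {n0 t : ℕ} (h0 : 1 ≤ n0) {p δ : unitInterval} {ε : ENNReal}
    (hε : ∀ (c : Z d) (R : Finset (Z d)), Iv i n0 t R → c ∈ R → c i = (Dd n0 t : ℤ) →
      mr d p δ (Fl (qq t) (nn n0 t) c R (Fc i (c i + nn n0 t))) ≤ ε) :
    mr d p δ (Gt i n0 t \ Gt i n0 (t + 1)) ≤ ε := by
  have h1 : Gt i n0 t \ Gt i n0 (t + 1) ⊆ ⋃ R : Finset (Z d),
      ({ω : Cf d | Rt i n0 ω t = R} ∩ (Gt i n0 t \ Gt i n0 (t + 1))) := by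
    intro ω hω
    rw [mem_iUnion]
    exact ⟨Rt i n0 ω t, rfl, hω⟩
  have h2 : ∀ R : Finset (Z d),
      mr d p δ ({ω : Cf d | Rt i n0 ω t = R} ∩ (Gt i n0 t \ Gt i n0 (t + 1))) ≤
        mr d p δ {ω : Cf d | Rt i n0 ω t = R} * ε := by
    intro R
    by_cases hex : ∃ ω0 : Cf d, Rt i n0 ω0 t = R ∧ ω0 ∈ Gt i n0 t
    · obtain ⟨ω0, hω0, hG⟩ := hex
      have hIv : Iv i n0 t R := by
        rw [← hω0]
        exact Iv_Rt i n0 ω0 t
      have hc : ∃ c ∈ R, c i = (Dd n0 t : ℤ) := by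
        obtain ⟨x, hx, hxi⟩ := hG
        exact ⟨x, hω0 ▸ hx, hxi⟩
      obtain ⟨hpk, hpi⟩ := pk_spec hc
      set c := pk i (Dd n0 t) R with hcdef
      have hsub : {ω : Cf d | Rt i n0 ω t = R} ∩ (Gt i n0 t \ Gt i n0 (t + 1)) ⊆
          {ω : Cf d | Rt i n0 ω t = R} ∩ Fl (qq t) (nn n0 t) c R (Fc i (c i + nn n0 t)) := by
        rintro ω ⟨hR, hG1, hG2⟩
        refine ⟨hR, ?_⟩
        intro e he
        by_contra ho
        rw [Bool.not_eq_false] at ho
        obtain ⟨x, hxF, hxN⟩ := Nw_of_Gd he ho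
        refine hG2 ?_
        have hR' : Rt i n0 ω t = R := hR
        refine ⟨x, ?_, ?_⟩
        · show x ∈ nx i n0 t ω (Rt i n0 ω t)
          rw [hR', nx_pos hc]
          exact Finset.mem_union_right _ hxN
        · have hx' : x i = c i + nn n0 t := hxF
          rw [hx', hpi, Dd_succ]
          push_cast
          ring
      refine (measure_mono hsub).trans ?_
      have hFm : MeasurableSet (Fl (qq t) (nn n0 t) c R (Fc i (c i + nn n0 t)) : Set (Cf d)) := by
        have hfin : (Wt (qq t) (nn n0 t) c R).Finite := by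
          refine (U0_fin c (nn n0 t) (R : Set (Z d))).union ?_
          have h1 : (In (bondM d) (Bo c (nn n0 t))).Finite :=
            In_fin (bondM d) (Bo_finite c (nn n0 t))
          refine (Set.finite_univ.prod h1).subset ?_
          rintro x ⟨_, hx⟩
          exact ⟨trivial, hx⟩
        refine Pool.Agent.W45.PC.s_depmeas _ hfin.toFinset _ ?_
        rw [hfin.coe_toFinset]
        exact Fl_dep _ _ _ _ _
      rw [Pool.Agent.W45.PC.s_indep _ _ _ _ _ _ (Rt_dep i n0 t R)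
        (Fl_dep (qq t) (nn n0 t) c R (Fc i (c i + nn n0 t))) (VW_disj h0 hpi)
        (Rt_meas i n0 t R) hFm]
      exact mul_le_mul_right (hε c R hIv hpk hpi) _
    · have : {ω : Cf d | Rt i n0 ω t = R} ∩ (Gt i n0 t \ Gt i n0 (t + 1)) = ∅ := by
        rw [Set.eq_empty_iff_forall_notMem]
        rintro ω ⟨hR, hG, _⟩
        exact hex ⟨ω, hR, hG⟩
      rw [this, measure_empty]
      exact zero_le
  have h3 : ∑' R : Finset (Z d), mr d p δ {ω : Cf d | Rt i n0 ω t = R} = 1 := by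
    rw [← measure_iUnion]
    · have : (⋃ R : Finset (Z d), {ω : Cf d | Rt i n0 ω t = R}) = univ := by
        ext ω
        simp only [mem_iUnion, mem_univ, iff_true]
        exact ⟨_, rfl⟩
      rw [this, measure_univ]
    · intro R R' hne
      rw [Function.onFun, Set.disjoint_left]
      intro ω hω hω'
      have e1 : Rt i n0 ω t = R := hω
      have e2 : Rt i n0 ω t = R' := hω'
      exact hne (e1.symm.trans e2)
    · exact fun R => Rt_meas i n0 t R
  calc mr d p δ (Gt i n0 t \ Gt i n0 (t + 1))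
      ≤ mr d p δ (⋃ R : Finset (Z d),
          ({ω : Cf d | Rt i n0 ω t = R} ∩ (Gt i n0 t \ Gt i n0 (t + 1)))) := measure_mono h1
    _ ≤ ∑' R : Finset (Z d), mr d p δ ({ω : Cf d | Rt i n0 ω t = R} ∩
          (Gt i n0 t \ Gt i n0 (t + 1))) := measure_iUnion_le _
    _ ≤ ∑' R : Finset (Z d), mr d p δ {ω : Cf d | Rt i n0 ω t = R} * ε :=
        ENNReal.tsum_le_tsum h2
    _ = ε := by rw [ENNReal.tsum_mul_right, h3, one_mul]

/-- All levels are reached. -/
def Ga (i : Fin d) (n0 : ℕ) : Set (Cf d) := ⋂ t : ℕ, Gt i n0 t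

lemma Ga_meas (i : Fin d) (n0 : ℕ) : MeasurableSet (Ga i n0) :=
  MeasurableSet.iInter fun t => Gt_meas i n0 t

lemma Ga_compl (i : Fin d) (n0 : ℕ) : (Ga i n0)ᶜ ⊆ ⋃ t : ℕ, (Gt i n0 t \ Gt i n0 (t + 1)) := by
  intro ω hω
  by_contra hc
  refine hω ?_
  rw [Ga, mem_iInter]
  intro t
  induction t with
  | zero => rw [Gt_zero]; trivial
  | succ t ih =>
    by_contra h
    refine hc ?_
    rw [mem_iUnion]
    exact ⟨t, ih, h⟩

/-! ### Opening the initial path -/

/-- The edges of the initial path. -/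
def Pe (i : Fin d) (n0 : ℕ) : Finset (J (Sym2 (Z d))) :=
  (Finset.range (Dd n0 0)).image
    (fun j : ℕ => ((0 : Fin 9), s((Pi.single i (j : ℤ) : Z d), Pi.single i ((j : ℤ) + 1))))

lemma mem_Pe {i : Fin d} {n0 : ℕ} {x : J (Sym2 (Z d))} (h : x ∈ Pe i n0) :
    ∃ j : ℕ, j < Dd n0 0 ∧ x = (0, s((Pi.single i (j : ℤ) : Z d), Pi.single i ((j : ℤ) + 1))) := by
  unfold Pe at h
  obtain ⟨j, hj, rfl⟩ := Finset.mem_image.1 h
  exact ⟨j, Finset.mem_range.1 hj, rfl⟩

lemma Pe_mem {i : Fin d} {n0 j : ℕ} (h : j < Dd n0 0) :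
    ((0 : Fin 9), s((Pi.single i (j : ℤ) : Z d), Pi.single i ((j : ℤ) + 1))) ∈ Pe i n0 :=
  Finset.mem_image.2 ⟨j, Finset.mem_range.2 h, rfl⟩

/-- The explored sets do not depend on the edges of the initial path. -/
lemma Rt_Pe {i : Fin d} {n0 : ℕ} {ω ω' : Cf d}
    (h : ∀ x ∈ ((Pe i n0 : Finset (J (Sym2 (Z d)))) : Set (J (Sym2 (Z d))))ᶜ, ω x = ω' x) (t : ℕ) :
    Rt i n0 ω' t = Rt i n0 ω t := by
  induction t with
  | zero => rfl
  | succ t ih =>
    show nx i n0 t ω' (Rt i n0 ω' t) = nx i n0 t ω (Rt i n0 ω t)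
    rw [ih]
    refine nx_local ?_ ?_
    · intro e _
      refine h (qq t, e) ?_
      intro hc
      obtain ⟨j, _, hj⟩ := mem_Pe (Finset.mem_coe.1 hc)
      exact qq_ne t (Prod.mk.inj hj).1
    · intro e _ hne
      refine h (0, e) ?_
      intro hc
      obtain ⟨j, hj, hje⟩ := mem_Pe (Finset.mem_coe.1 hc)
      have he : e = s((Pi.single i (j : ℤ) : Z d), Pi.single i ((j : ℤ) + 1)) :=
        (Prod.mk.inj hje).2
      refine hne ⟨Pi.single i (j : ℤ), ?_, ?_⟩
      · exact Finset.mem_coe.2 ((Iv_Rt i n0 ω t).1 (mem_R0.2 ⟨j, hj.le, rfl⟩))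
      · rw [he]
        exact Sym2.mem_mk_left _ _

lemma Ga_dep (i : Fin d) (n0 : ℕ) :
    DepOn (Ga i n0) ((Pe i n0 : Finset (J (Sym2 (Z d)))) : Set (J (Sym2 (Z d))))ᶜ := by
  intro ω ω' h
  unfold Ga
  rw [mem_iInter, mem_iInter]
  refine forall_congr' fun t => ?_
  show (∃ x ∈ Rt i n0 ω t, x i = (Dd n0 t : ℤ)) ↔ (∃ x ∈ Rt i n0 ω' t, x i = (Dd n0 t : ℤ))
  rw [Rt_Pe h t]

/-- The initial path is open. -/
def Po (i : Fin d) (n0 : ℕ) : Set (Cf d) := {ω | ∀ x ∈ Pe i n0, ω x = true}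

lemma Po_dep (i : Fin d) (n0 : ℕ) :
    DepOn (Po i n0) ((Pe i n0 : Finset (J (Sym2 (Z d)))) : Set (J (Sym2 (Z d)))) := by
  intro ω ω' h
  exact forall₂_congr fun x hx => by rw [h x (Finset.mem_coe.2 hx)]

lemma Po_pos (i : Fin d) (n0 : ℕ) {p δ : unitInterval} (hp : 0 < (p : ℝ)) :
    0 < (mr d p δ).real (Po i n0) := by
  have h := Pool.Agent.W45.PC.s_open (J (Sym2 (Z d))) (rr (Sym2 (Z d)) p δ) (Pe i n0) univ
    (fun _ _ _ _ => trivial) MeasurableSet.univ
  rw [univ_inter, probReal_univ, mul_one] at h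
  refine lt_of_lt_of_le ?_ h
  refine Finset.prod_pos fun x hx => ?_
  obtain ⟨j, _, rfl⟩ := mem_Pe hx
  rw [rr_zero]
  exact hp

/-- The half-space. -/
def Hs (i : Fin d) : Set (Z d) := {x | 0 ≤ x i}

/-- The cluster of the origin in the half-space is infinite. -/
def PH (i : Fin d) : Set (Sym2 (Z d) → Bool) := {ω | (cl (bondM d) ω (Hs i) 0).Infinite}

lemma Rt_reach {i : Fin d} {n0 : ℕ} {ω : Cf d} (hP : ω ∈ Po i n0) (t : ℕ) :
    ∀ x ∈ Rt i n0 ω t, (G (bondM d) (un ω) (Hs i)).Reachable 0 x := by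
  induction t with
  | zero =>
    intro x hx
    obtain ⟨j, hj, rfl⟩ := mem_R0.1 (show x ∈ R0 i n0 from hx)
    clear hx
    induction j with
    | zero => simp
    | succ j ih =>
      refine (ih (by omega)).trans (SimpleGraph.Adj.reachable ?_)
      have h1 := hP _ (Pe_mem (i := i) (show j < Dd n0 0 by omega))
      refine adjb.2 ⟨?_, ?_, ?_, ?_⟩
      · have := nb_single i (j : ℤ)
        push_cast
        exact this
      · show 0 ≤ (Pi.single i (j : ℤ) : Z d) i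
        rw [Pi.single_eq_same]; positivity
      · show 0 ≤ (Pi.single i ((j + 1 : ℕ) : ℤ) : Z d) i
        rw [Pi.single_eq_same]; positivity
      · refine decide_eq_true ⟨0, ?_⟩
        push_cast
        exact h1
  | succ t ih =>
    intro x hx
    have hx' : x ∈ nx i n0 t ω (Rt i n0 ω t) := hx
    by_cases hc : ∃ c ∈ Rt i n0 ω t, c i = (Dd n0 t : ℤ)
    · rw [nx_pos hc] at hx'
      rcases Finset.mem_union.1 hx' with h | h
      · exact ih x h
      · obtain ⟨u, hu, hr⟩ := Nw_reach h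
        refine (ih u hu).trans (reach_mono ?_ hr)
        intro y hy
        have hIv := (Iv_Rt i n0 ω (t + 1)).2.1 y (by
          show y ∈ nx i n0 t ω (Rt i n0 ω t)
          rw [nx_pos hc]
          exact Finset.mem_coe.1 hy)
        exact hIv.1
    · rw [nx_neg hc] at hx'
      exact ih x hx'

lemma PH_of {i : Fin d} {n0 : ℕ} (h0 : 1 ≤ n0) {ω : Cf d} (hG : ω ∈ Ga i n0) (hP : ω ∈ Po i n0) :
    un ω ∈ PH i := by
  intro hfin
  have h1 : ∀ t : ℕ, ∃ x ∈ cl (bondM d) (un ω) (Hs i) 0, x i = (Dd n0 t : ℤ) := by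
    intro t
    rw [Ga, mem_iInter] at hG
    obtain ⟨x, hx, hxi⟩ := hG t
    exact ⟨x, Rt_reach hP t x hx, hxi⟩
  obtain ⟨M, hM⟩ := (hfin.image (fun x : Z d => x i)).bddAbove
  obtain ⟨x, hx, hxi⟩ := h1 (M.toNat + 1)
  have h2 : x i ≤ M := hM ⟨x, hx, rfl⟩
  rw [hxi] at h2
  have h3 := Dd_ge h0 (M.toNat + 1)
  have h4 : ((M.toNat + 1 : ℕ) : ℤ) ≤ (Dd n0 (M.toNat + 1) : ℤ) := by exact_mod_cast h3
  push_cast at h4
  have h5 := Int.self_le_toNat M
  linarith

end

end Pool.Agent.Helper401_HS
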