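import Pool.Agent.R959.GF2
import Pool.Agent.R959.GF4

set_option autoImplicit false

/-!
Sharp threshold iteration for decreasing functions (helper401).
-/

namespace Pool.Agent.Helper401_HS

open Pool.Agent.R959.GF
open Pool.Agent.W424.PC

noncomputable section

variable {ι : Type}

lemma EX_decr [DecidableEq ι] {E : Finset ι} {f : (ι → Bool) → ℝ} (hf : ∀ e ∈ E, ∀ ω, DD e f ω ≤ 0)
    {s t : ℝ} (h0 : 0 ≤ s) (hst : s ≤ t) (h1 : t ≤ 1) : EX E t f ≤ EX E s f := by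
  have h := EX_incr (E := E) (f := fun ω => (-1) * f ω) (fun e he ω => by
    have := hf e he ω
    unfold DD at this ⊢
    linarith) h0 hst h1
  rw [EX_mul, EX_mul] at h
  linarith

/-- one step of the iteration, decreasing functions -/
lemma stepd [DecidableEq ι] {E : Finset ι} {f g : (ι → Bool) → ℝ}
    (hf : ∀ e ∈ E, ∀ ω, DD e f ω ≤ 0) (hg : ∀ e ∈ E, ∀ ω, DD e g ω ≤ 0)
    (hf0 : ∀ ω, 0 ≤ f ω) (hgf : ∀ ω, g ω ≤ f ω ^ 2)
    {s t κ : ℝ} (h0 : 0 ≤ s) (hst : s < t) (h1 : t ≤ 1) (hκ : 0 < κ)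
    (hvar : ∀ ξ, s ≤ ξ → ξ ≤ t → κ * (EX E ξ (fun ω => f ω ^ 2) - EX E ξ f ^ 2) ≤
      ∑ e ∈ E, EX E ξ (fun ω => |DD e f ω|)) :
    EX E t g ≤ EX E s f * (EX E s f + 1 / (κ * (t - s))) := by
  obtain ⟨ξ, hξ, he⟩ := exists_hasDerivAt_eq_slope (fun t => EX E t f)
    (fun t => ∑ e ∈ E, EX E t (DD e f)) hst
    (fun x _ => (EX_deriv E f x).continuousAt.continuousWithinAt) (fun x _ => EX_deriv E f x)
  have hts : 0 < t - s := by linarith
  have hξ0 : 0 ≤ ξ := by linarith [hξ.1]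
  have hξ1 : ξ ≤ 1 := by linarith [hξ.2]
  have h3 : (∑ e ∈ E, EX E ξ (DD e f)) = (EX E t f - EX E s f) / (t - s) := he
  have h3' : ∑ e ∈ E, EX E ξ (fun ω => |DD e f ω|) = (EX E s f - EX E t f) / (t - s) := by
    have : ∑ e ∈ E, EX E ξ (fun ω => |DD e f ω|) = - ∑ e ∈ E, EX E ξ (DD e f) := by
      rw [← Finset.sum_neg_distrib]
      refine Finset.sum_congr rfl fun e he => ?_
      rw [show EX E ξ (fun ω => |DD e f ω|) = EX E ξ (fun ω => (-1) * DD e f ω) from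
        EX_congr fun ω => by rw [abs_of_nonpos (hf e he ω)]; ring, EX_mul]
      ring
    rw [this, h3]
    ring
  have h4 := hvar ξ hξ.1.le hξ.2.le
  rw [h3'] at h4
  have hs0 : 0 ≤ EX E t f := EX_nonneg (by linarith) h1 hf0
  have h5 : (EX E s f - EX E t f) / (t - s) ≤ EX E s f / (t - s) :=
    div_le_div_of_nonneg_right (by linarith) hts.le
  have h6 : EX E ξ (fun ω => f ω ^ 2) - EX E ξ f ^ 2 ≤ EX E s f / (κ * (t - s)) := by
    rw [le_div_iff₀ (by positivity)]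
    have h7 := h4.trans h5
    rw [le_div_iff₀ hts] at h7
    linarith
  have h8 : EX E ξ f ≤ EX E s f := EX_decr hf h0 hξ.1.le hξ1
  have h9 : 0 ≤ EX E ξ f := EX_nonneg hξ0 hξ1 hf0
  have h10 : EX E ξ f ^ 2 ≤ EX E s f ^ 2 := pow_le_pow_left₀ h9 h8 2
  have h11 : EX E t g ≤ EX E ξ g := EX_decr hg hξ0 hξ.2.le h1
  have h12 : EX E ξ g ≤ EX E ξ (fun ω => f ω ^ 2) := EX_mono hξ0 hξ1 hgf
  have e : EX E s f * (EX E s f + 1 / (κ * (t - s))) = EX E s f ^ 2 + EX E s f / (κ * (t - s)) := by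
    ring
  rw [e]
  linarith

/-- the iteration, decreasing functions -/
lemma iterd [DecidableEq ι] {E : Finset ι} (f : ℕ → (ι → Bool) → ℝ) (J : ℕ)
    (hf : ∀ j ≤ J, ∀ e ∈ E, ∀ ω, DD e (f j) ω ≤ 0)
    (hf0 : ∀ j ≤ J, ∀ ω, 0 ≤ f j ω) (hgf : ∀ j < J, ∀ ω, f (j + 1) ω ≤ f j ω ^ 2)
    {t s κ c : ℝ} (hκ : 0 < κ) (hc : 0 < c) (hc1 : c ≤ 1) (ht : 0 ≤ t) (hs : 0 < s)
    (hts : t + J * s ≤ 1)
    (hvar : ∀ j < J, ∀ ξ, t ≤ ξ → ξ ≤ t + J * s →
      κ * (EX E ξ (fun ω => f j ω ^ 2) - EX E ξ (f j) ^ 2) ≤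
        ∑ e ∈ E, EX E ξ (fun ω => |DD e (f j) ω|))
    (hη : 1 / (κ * s) ≤ c / 2) (hbase : EX E t (f 0) ≤ 1 - c) :
    ∀ j ≤ J, EX E (t + j * s) (f j) ≤ (1 - c) * (1 - c / 2) ^ j := by
  intro j
  induction j with
  | zero =>
    intro _
    simpa using hbase
  | succ j ih =>
    intro hj
    have ih' := ih (by omega)
    have hjJ : (j : ℝ) + 1 ≤ J := by exact_mod_cast hj
    have hjs : ((j : ℝ) + 1) * s ≤ J * s := mul_le_mul_of_nonneg_right hjJ hs.le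
    have hj0 : 0 ≤ (j : ℝ) * s := by positivity
    have a1 : 0 ≤ t + j * s := by positivity
    have a2 : t + j * s < t + ((j + 1 : ℕ) : ℝ) * s := by push_cast; linarith
    have a3 : t + ((j + 1 : ℕ) : ℝ) * s - (t + (j : ℝ) * s) = s := by push_cast; ring
    have h := stepd (hf j (by omega)) (hf (j + 1) hj) (hf0 j (by omega)) (hgf j (by omega))
      a1 a2 (by push_cast; linarith) hκ (fun ξ h1 h2 => hvar j (by omega) ξ (by linarith)
        (by push_cast at h2; linarith))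
    rw [a3] at h
    set x := EX E (t + j * s) (f j) with hx
    have hx0 : 0 ≤ x := EX_nonneg (by linarith) (by linarith) (hf0 j (by omega))
    have hpow : (1 - c / 2) ^ j ≤ 1 := pow_le_one₀ (by linarith) (by linarith)
    have hx1 : x ≤ 1 - c := ih'.trans (by
      calc (1 - c) * (1 - c / 2) ^ j ≤ (1 - c) * 1 := mul_le_mul_of_nonneg_left hpow (by linarith)
        _ = 1 - c := mul_one _)
    calc EX E (t + ((j + 1 : ℕ) : ℝ) * s) (f (j + 1)) ≤ x * (x + 1 / (κ * s)) := h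
      _ ≤ x * (1 - c / 2) := mul_le_mul_of_nonneg_left (by linarith) hx0
      _ ≤ ((1 - c) * (1 - c / 2) ^ j) * (1 - c / 2) :=
          mul_le_mul_of_nonneg_right ih' (by linarith)
      _ = (1 - c) * (1 - c / 2) ^ (j + 1) := by rw [pow_succ]; ring

/-- the variance bound from the inequality of Talagrand -/
lemma var_le' {E : Finset ι} {f : (ι → Bool) → ℝ} {q u : ℝ} (h0 : 0 ≤ q) (h1 : q ≤ 1) (hu : 0 < u)
    (hD1 : ∀ i ∈ E, ∀ ω, |DD i f ω| ≤ 1)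
    (hI : ∀ i ∈ E, EX E q (fun ω => |DD i f ω|) ≤ u) :
    (Real.log (1 / u) / 2) * (EX E q (fun ω => f ω ^ 2) - EX E q f ^ 2) ≤
      ∑ e ∈ E, EX E q (fun ω => |DD e f ω|) := by
  have h := tal h0 h1 E f u hu hD1 hI
  linarith

end

end Pool.Agent.Helper401_HS
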