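import Pool.Agent.Helper401_HS.Jen

set_option autoImplicit false

open MeasureTheory Set

/-!
Percolation in half-spaces (helper401): one step of the exploration.
-/

namespace Pool.Agent.Helper401_HS

open Pool.Agent.Y990.CB
open Pool.Agent.W783.PC (pm DepOn Inc bern)

noncomputable section

variable {d : ℕ}

/-- Configurations of the nine fields. -/
abbrev Cf (d : ℕ) : Type := J (Sym2 (Z d)) → Bool

/-- The field number `i`. -/
def fl (ω : Cf d) (i : Fin 9) : Sym2 (Z d) → Bool := fun e => ω (i, e)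

/-- The open graph of the field `0`. -/
abbrev G0 (ω : Cf d) (R : Set (Z d)) : SimpleGraph (Z d) := G (bondM d) (fl ω 0) R

/-- The pair `e` touches the set `S`. -/
def Tch (e : Sym2 (Z d)) (S : Set (Z d)) : Prop := ∃ x ∈ S, x ∈ e

lemma adjb {ω : Sym2 (Z d) → Bool} {R : Set (Z d)} {a b : Z d} :
    (G (bondM d) ω R).Adj a b ↔ Nb a b ∧ a ∈ R ∧ b ∈ R ∧ ω s(a, b) = true := by
  constructor
  · rintro ⟨h1, h2, h3, h4⟩
    exact ⟨h1, h2, h3, h4 s(a, b) (Finset.mem_singleton_self _)⟩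
  · rintro ⟨h1, h2, h3, h4⟩
    refine ⟨h1, h2, h3, fun c hc => ?_⟩
    have : c = s(a, b) := Finset.mem_singleton.1 hc
    subst this
    exact h4

/-- The vertices reached from `R` inside the box of radius `n` around `c`: first an open edge of
the field `q` leaving `R`, then open edges of the field `0` outside `R`. -/
def Nw (ω : Cf d) (q : Fin 9) (n : ℕ) (c : Z d) (R : Finset (Z d)) : Finset (Z d) := by
  classical exact (Bf c n).filter (fun x => x ∉ R ∧ ∃ u v, u ∈ R ∧ u ∈ Bo c n ∧ v ∈ Bo c n ∧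
    v ∉ R ∧ Nb u v ∧ ω (q, s(u, v)) = true ∧ (G0 ω (Bo c n \ (R : Set (Z d)))).Reachable v x)

lemma mem_Nw {ω : Cf d} {q : Fin 9} {n : ℕ} {c : Z d} {R : Finset (Z d)} {x : Z d} :
    x ∈ Nw ω q n c R ↔ x ∈ Bo c n ∧ x ∉ R ∧ ∃ u v, u ∈ R ∧ u ∈ Bo c n ∧ v ∈ Bo c n ∧
    v ∉ R ∧ Nb u v ∧ ω (q, s(u, v)) = true ∧
      (G0 ω (Bo c n \ (R : Set (Z d)))).Reachable v x := by
  classical
  unfold Nw
  rw [Finset.mem_filter, mem_Bf]

lemma Nw_closed {ω : Cf d} {q : Fin 9} {n : ℕ} {c : Z d} {R : Finset (Z d)} {x y : Z d}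
    (hx : x ∈ Nw ω q n c R) (h : (G0 ω (Bo c n \ (R : Set (Z d)))).Reachable x y) :
    y ∈ Nw ω q n c R := by
  by_cases hxy : x = y
  · rw [← hxy]; exact hx
  have hy := (mem_of_reach h hxy).2
  obtain ⟨h1, h2, u, v, h3, h4, h5, h6, h7, h8, h9⟩ := mem_Nw.1 hx
  exact mem_Nw.2 ⟨hy.1, fun hc => hy.2 (Finset.mem_coe.2 hc), u, v, h3, h4, h5, h6, h7, h8,
    h9.trans h⟩

/-- Walks from the new vertices are the same in two configurations which agree on the edges
touching the new vertices. -/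
lemma walk_transfer {ω ω' : Cf d} {D : Set (Z d)} {S : Set (Z d)}
    (hcl : ∀ a b, a ∈ S → (G0 ω D).Adj a b → b ∈ S)
    (hag : ∀ e, Tch e S → e ∈ In (bondM d) D → ω (0, e) = ω' (0, e)) {a x : Z d}
    (w : (G0 ω D).Walk a x) (ha : a ∈ S) : (G0 ω' D).Reachable a x := by
  induction w with
  | nil => exact SimpleGraph.Reachable.refl _
  | cons h q ih =>
    rename_i a b c
    have hb := hcl a b ha h
    obtain ⟨h1, h2, h3, h4⟩ := adjb.1 h
    refine (SimpleGraph.Adj.reachable (adjb.2 ⟨h1, h2, h3, ?_⟩)).trans (ih hb)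
    show ω' (0, s(a, b)) = true
    rw [← hag s(a, b) ⟨a, ha, Sym2.mem_mk_left _ _⟩
      ⟨a, h2, b, h3, h1, Finset.mem_singleton_self _⟩]
    exact h4

/-- Locality of the new vertices. -/
lemma Nw_local {ω ω' : Cf d} {q : Fin 9} {n : ℕ} {c : Z d} {R : Finset (Z d)}
    (h1 : ∀ e, e ∈ In (bondM d) (Bo c n) → ω (q, e) = ω' (q, e))
    (h2 : ∀ e, Tch e (Nw ω q n c R : Set (Z d)) →
      e ∈ In (bondM d) (Bo c n \ (R : Set (Z d))) → ω (0, e) = ω' (0, e)) :
    Nw ω' q n c R = Nw ω q n c R := by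
  have hedge : ∀ u v : Z d, u ∈ Bo c n → v ∈ Bo c n → Nb u v → s(u, v) ∈ In (bondM d) (Bo c n) :=
    fun u v hu hv huv => ⟨u, hu, v, hv, huv, Finset.mem_singleton_self _⟩
  have start : ∀ (η : Cf d) (u v : Z d), u ∈ R → u ∈ Bo c n → v ∈ Bo c n → v ∉ R → Nb u v →
      η (q, s(u, v)) = true → v ∈ Nw η q n c R := fun η u v g1 g2 g3 g4 g5 g6 =>
    mem_Nw.2 ⟨g3, g4, u, v, g1, g2, g3, g4, g5, g6, SimpleGraph.Reachable.refl _⟩
  ext x
  constructor
  · intro hx
    obtain ⟨g1, g2, u, v, g3, g4, g5, g6, g7, g8, ⟨w⟩⟩ := mem_Nw.1 hx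
    have hv : v ∈ Nw ω q n c R := start ω u v g3 g4 g5 g6 g7 (by
      rw [h1 _ (hedge u v g4 g5 g7)]; exact g8)
    -- walk in the second configuration
    have key : ∀ (a y : Z d) (w : (G0 ω' (Bo c n \ (R : Set (Z d)))).Walk a y),
        a ∈ Nw ω q n c R → y ∈ Nw ω q n c R := by
      intro a y w
      induction w with
      | nil => exact id
      | cons h q' ih =>
        rename_i a b c'
        intro ha
        obtain ⟨k1, k2, k3, k4⟩ := adjb.1 h
        refine ih (Nw_closed ha (SimpleGraph.Adj.reachable (adjb.2 ⟨k1, k2, k3, ?_⟩)))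
        show ω (0, s(a, b)) = true
        rw [h2 s(a, b) ⟨a, Finset.mem_coe.2 ha, Sym2.mem_mk_left _ _⟩
          ⟨a, k2, b, k3, k1, Finset.mem_singleton_self _⟩]
        exact k4
    exact key v x w hv
  · intro hx
    obtain ⟨g1, g2, u, v, g3, g4, g5, g6, g7, g8, ⟨w⟩⟩ := mem_Nw.1 hx
    have hv : v ∈ Nw ω q n c R := start ω u v g3 g4 g5 g6 g7 g8
    refine mem_Nw.2 ⟨g1, g2, u, v, g3, g4, g5, g6, g7, ?_, ?_⟩
    · rw [← h1 _ (hedge u v g4 g5 g7)]; exact g8
    · refine walk_transfer (S := (Nw ω q n c R : Set (Z d))) ?_ ?_ w (Finset.mem_coe.2 hv)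
      · intro a b ha hab
        exact Finset.mem_coe.2 (Nw_closed (Finset.mem_coe.1 ha) (SimpleGraph.Adj.reachable hab))
      · exact h2

/-- The new vertices are connected through the union of the fields, inside the region. -/
lemma Nw_reach {ω : Cf d} {q : Fin 9} {n : ℕ} {c : Z d} {R : Finset (Z d)} {x : Z d}
    (hx : x ∈ Nw ω q n c R) :
    ∃ u ∈ R, (G (bondM d) (un ω) ((R ∪ Nw ω q n c R : Finset (Z d)) : Set (Z d))).Reachable
      u x := by
  obtain ⟨g1, g2, u, v, g3, g4, g5, g6, g7, g8, ⟨w⟩⟩ := mem_Nw.1 hx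
  have hv : v ∈ Nw ω q n c R :=
    mem_Nw.2 ⟨g5, g6, u, v, g3, g4, g5, g6, g7, g8, SimpleGraph.Reachable.refl _⟩
  refine ⟨u, g3, ?_⟩
  have hcoe : ∀ a : Z d, a ∈ Nw ω q n c R →
      a ∈ ((R ∪ Nw ω q n c R : Finset (Z d)) : Set (Z d)) := fun a ha =>
    Finset.mem_coe.2 (Finset.mem_union_right _ ha)
  have hfirst : (G (bondM d) (un ω) ((R ∪ Nw ω q n c R : Finset (Z d)) : Set (Z d))).Reachable
      u v := by
    refine SimpleGraph.Adj.reachable (adjb.2 ⟨g7, Finset.mem_coe.2 (Finset.mem_union_left _ g3),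
      hcoe v hv, ?_⟩)
    exact decide_eq_true ⟨q, g8⟩
  refine hfirst.trans ?_
  have key : ∀ (a y : Z d) (w : (G0 ω (Bo c n \ (R : Set (Z d)))).Walk a y),
      a ∈ Nw ω q n c R →
      (G (bondM d) (un ω) ((R ∪ Nw ω q n c R : Finset (Z d)) : Set (Z d))).Reachable a y := by
    intro a y w
    induction w with
    | nil => exact fun _ => SimpleGraph.Reachable.refl _
    | cons h q' ih =>
      rename_i a b c'
      intro ha
      have hb := Nw_closed ha (SimpleGraph.Adj.reachable h)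
      obtain ⟨k1, k2, k3, k4⟩ := adjb.1 h
      exact (SimpleGraph.Adj.reachable (adjb.2 ⟨k1, hcoe a ha, hcoe b hb,
        decide_eq_true ⟨0, k4⟩⟩)).trans (ih hb)
  exact key v x w hv

/-! ### The edges leaving `R` which lead to the face -/

/-- The edges leaving `R` which lead to `F`. -/
def Gd (ω : Cf d) (n : ℕ) (c : Z d) (R : Finset (Z d)) (F : Set (Z d)) : Finset (Sym2 (Z d)) := by
  classical exact ((Bf c n ×ˢ Bf c n).filter (fun q => q.1 ∈ R ∧ q.2 ∉ R ∧ Nb q.1 q.2 ∧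
    ∃ x ∈ F, (G0 ω (Bo c n \ (R : Set (Z d)))).Reachable q.2 x)).image (fun q => s(q.1, q.2))

lemma mem_Gd {ω : Cf d} {n : ℕ} {c : Z d} {R : Finset (Z d)} {F : Set (Z d)}
    {e : Sym2 (Z d)} : e ∈ Gd ω n c R F ↔ ∃ u v, u ∈ Bo c n ∧ v ∈ Bo c n ∧ u ∈ R ∧ v ∉ R ∧
      Nb u v ∧ (∃ x ∈ F, (G0 ω (Bo c n \ (R : Set (Z d)))).Reachable v x) ∧ s(u, v) = e := by
  classical
  unfold Gd
  rw [Finset.mem_image]
  constructor
  · rintro ⟨⟨u, v⟩, h, rfl⟩
    rw [Finset.mem_filter, Finset.mem_product, mem_Bf, mem_Bf] at h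
    exact ⟨u, v, h.1.1, h.1.2, h.2.1, h.2.2.1, h.2.2.2.1, h.2.2.2.2, rfl⟩
  · rintro ⟨u, v, h1, h2, h3, h4, h5, h6, rfl⟩
    refine ⟨(u, v), ?_, rfl⟩
    rw [Finset.mem_filter, Finset.mem_product, mem_Bf, mem_Bf]
    exact ⟨⟨h1, h2⟩, h3, h4, h5, h6⟩

/-- The coordinates of the field `0` inside the region `D`. -/
def U0 (D : Set (Z d)) : Set (J (Sym2 (Z d))) := {c | c.1 = 0 ∧ c.2 ∈ In (bondM d) D}

lemma G0_congr {ω ω' : Cf d} {D : Set (Z d)} (h : ∀ c ∈ U0 D, ω c = ω' c) : G0 ω D = G0 ω' D :=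
  graph_congr (M := bondM d) fun e he => h (0, e) ⟨rfl, he⟩

lemma Gd_dep {ω ω' : Cf d} {n : ℕ} {c : Z d} {R : Finset (Z d)} {F : Set (Z d)}
    (h : ∀ e ∈ U0 (Bo c n \ (R : Set (Z d))), ω e = ω' e) : Gd ω n c R F = Gd ω' n c R F := by
  ext e
  rw [mem_Gd, mem_Gd, G0_congr h]

lemma not_in {u v : Z d} {D : Set (Z d)} (hu : u ∉ D) : s(u, v) ∉ In (bondM d) D := by
  rintro ⟨x, hx, y, hy, _, hc⟩
  have h1 : s(u, v) = s(x, y) := Finset.mem_singleton.1 hc
  have h2 : u ∈ s(x, y) := by rw [← h1]; exact Sym2.mem_mk_left _ _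
  rcases Sym2.mem_iff.1 h2 with rfl | rfl
  · exact hu hx
  · exact hu hy

/-- A walk whose support avoids `R`. -/
lemma avoid {ω : Cf d} {n : ℕ} {c : Z d} {R : Finset (Z d)} {a b : Z d}
    (w : (G0 ω (Bo c n)).Walk a b) (hs : ∀ z ∈ w.support, z ∉ R) :
    (G0 ω (Bo c n \ (R : Set (Z d)))).Reachable a b := by
  induction w with
  | nil => exact SimpleGraph.Reachable.refl _
  | cons h q ih =>
    rename_i a b c''
    obtain ⟨k1, k2, k3, k4⟩ := adjb.1 h
    have ha' : a ∉ R := hs a (SimpleGraph.Walk.start_mem_support _)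
    have hb' : b ∉ R := hs b (by
      rw [SimpleGraph.Walk.support_cons]
      exact List.mem_cons_of_mem _ q.start_mem_support)
    have m1 : a ∈ Bo c n \ (R : Set (Z d)) := ⟨k2, fun hc => ha' (Finset.mem_coe.1 hc)⟩
    have m2 : b ∈ Bo c n \ (R : Set (Z d)) := ⟨k3, fun hc => hb' (Finset.mem_coe.1 hc)⟩
    refine (SimpleGraph.Adj.reachable (adjb.2 ⟨k1, m1, m2, k4⟩)).trans (ih ?_)
    intro z hz
    exact hs z (by
      rw [SimpleGraph.Walk.support_cons]
      exact List.mem_cons_of_mem _ hz)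

/-- If `R` is linked to the face through the field `0`, one of the leaving edges is open. -/
lemma Gd_of_Lk {ω : Cf d} {n : ℕ} {c : Z d} {R : Finset (Z d)} {F : Set (Z d)}
    (hRF : ∀ x ∈ R, x ∉ F) (h : fl ω 0 ∈ Lk (bondM d) (Bo c n) (R : Set (Z d)) F) :
    ∃ e ∈ Gd ω n c R F, ω (0, e) = true := by
  obtain ⟨x, hx, y, hy, ⟨w⟩⟩ := h
  have hyR : y ∉ R := fun hc => hRF y hc hy
  classical
  have hlen : ∀ (m : ℕ) (a b : Z d) (w : (G0 ω (Bo c n)).Walk a b), w.length ≤ m →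
      a ∈ R → b ∉ R → b ∈ F → ∃ e ∈ Gd ω n c R F, ω (0, e) = true := by
    intro m
    induction m with
    | zero =>
      intro a b w hw h1 h2 _
      have h0 : w.length = 0 := Nat.le_zero.1 hw
      have := SimpleGraph.Walk.eq_of_length_eq_zero h0
      rw [this] at h1
      exact absurd h1 h2
    | succ m ihm =>
      intro a b w hw h1 h2 h3
      cases w with
      | nil => exact absurd h1 h2
      | cons hadj q' =>
        rename_i b'
        by_cases hz' : ∃ z ∈ q'.support, z ∈ R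
        · obtain ⟨z, hz, hzR⟩ := hz'
          refine ihm z b (q'.dropUntil z hz) ?_ hzR h2 h3
          have g1 := q'.length_dropUntil_le_length hz
          have g2 : (SimpleGraph.Walk.cons hadj q').length = q'.length + 1 := rfl
          omega
        · push Not at hz'
          obtain ⟨k1, k2, k3, k4⟩ := adjb.1 hadj
          exact ⟨s(a, b'), mem_Gd.2 ⟨a, b', k2, k3, h1,
            hz' b' q'.start_mem_support, k1, ⟨b, h3, avoid q' hz'⟩, rfl⟩, k4⟩
  exact hlen _ x y w le_rfl hx hyR hy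

/-- If one of the leaving edges is open in the field `q`, the face is reached. -/
lemma Nw_of_Gd {ω : Cf d} {q : Fin 9} {n : ℕ} {c : Z d} {R : Finset (Z d)} {F : Set (Z d)}
    {e : Sym2 (Z d)} (he : e ∈ Gd ω n c R F) (ho : ω (q, e) = true) :
    ∃ x ∈ F, x ∈ Nw ω q n c R := by
  obtain ⟨u, v, h1, h2, h3, h4, h5, ⟨x, hx, hr⟩, rfl⟩ := mem_Gd.1 he
  have hv : v ∈ Nw ω q n c R :=
    mem_Nw.2 ⟨h2, h4, u, v, h3, h1, h2, h4, h5, ho, SimpleGraph.Reachable.refl _⟩
  exact ⟨x, hx, Nw_closed hv hr⟩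

end

end Pool.Agent.Helper401_HS
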