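import Pool.Agent.Helper401_HS.Arm

set_option autoImplicit false

open MeasureTheory Set

/-!
A set with points at all distances from the centre is connected to a face (helper401).
-/

namespace Pool.Agent.Helper401_HS

open Pool.Agent.Y990.CB Pool.Agent.Y990.OA
open Pool.Agent.W783.PC (pm DepOn Inc bern)
open Pool.Agent.W424.PC
open Pool.Agent.Helper401_FP (two_arm th_mono Perc_dep)

noncomputable section

variable {d : ℕ}

/-- The arm event of the vertex `a`. -/
def Aa (a : Z d) (r : ℕ) : Set (Sym2 (Z d) → Bool) := {ω | Am (bondM d) ω a r a}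

lemma Aa_meas (a : Z d) (r : ℕ) : MeasurableSet (Aa a r) := Am_meas (bondM d) a r a

lemma Aa_dep (a : Z d) (r : ℕ) : DepOn (Aa a r) (In (bondM d) (Bo a r)) :=
  Am_dep (bondM d) a r a

lemma dep_compl {ι : Type} {A : Set (ι → Bool)} {S : Set ι} (h : DepOn A S) : DepOn Aᶜ S :=
  fun ω ω' hh => not_congr (h ω ω' hh)

lemma Aa_prob (p : unitInterval) (a : Z d) (r : ℕ) :
    (mb d p).real (Aa a r) = (mb d p).real (Aa 0 r) := by
  have h := Am_shift (bondM d) p 0 a 0 r
  rw [zero_add] at h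
  exact h

lemma th_le_Aa (p : unitInterval) (a : Z d) (r : ℕ) : th (bondM d) p ≤ (mb d p).real (Aa a r) := by
  rw [Aa_prob]
  refine measureReal_mono ?_ (measure_ne_top _ _)
  intro ω hω
  have h1 : (cl (bondM d) ω univ 0).Infinite := hω
  obtain ⟨y, hy, hy'⟩ := h1.exists_notMem_finset (Bf 0 r)
  exact exit_Am (self_mem_Bo 0 r) (Or.inl fun h => hy' (mem_Bf.2 h)) hy

lemma trunc_shift (p : unitInterval) (a : Z d) (r N : ℕ) :
    (mb d p).real (Aa a r \ Aa a N) =
      (mb d p).real {ω | Am (bondM d) ω 0 r 0 ∧ ¬ Am (bondM d) ω 0 N 0} := by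
  have hm : MeasurableSet {ω : Sym2 (Z d) → Bool | Am (bondM d) ω 0 r 0 ∧ ¬ Am (bondM d) ω 0 N 0} :=
    (Am_meas (bondM d) 0 r 0).inter (Am_meas (bondM d) 0 N 0).compl
  refine Eq.trans ?_ (mu_inv_real (bondM d) p (sf a) hm)
  have e : Aa a r \ Aa a N = {ω | (fun c => ω ((bondM d).tr (sf a) c)) ∈
      {ω : Sym2 (Z d) → Bool | Am (bondM d) ω 0 r 0 ∧ ¬ Am (bondM d) ω 0 N 0}} := by
    ext ω
    have h1 := Am_sym (bondM d) ω 0 a 0 r
    have h2 := Am_sym (bondM d) ω 0 a 0 N
    rw [zero_add] at h1 h2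
    constructor
    · rintro ⟨g1, g2⟩
      exact ⟨h1.2 g1, fun h => g2 (h2.1 h)⟩
    · rintro ⟨g1, g2⟩
      exact ⟨h1.1 g1, fun h => g2 (h2.2 h)⟩
  rw [e]
  rfl

/-- Boxes around points with separated norms are disjoint. -/
lemma Bo_disj_nm (hd : 1 ≤ d) {a b : Z d} {r : ℕ} (h : nm a + 2 * r < nm b) :
    Disjoint (Bo a r) (Bo b r) := by
  rw [Set.disjoint_left]
  intro z hza hzb
  obtain ⟨l, hl⟩ := exists_nm hd b
  have h1 := abs_le_nm a l
  have h2 := hza l
  have h3 := hzb l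
  have h4 : |b l| ≤ |b l - z l| + |z l - a l| + |a l| := by
    have e1 := abs_sub_abs_le_abs_sub (b l) (a l)
    have e2 := abs_sub_le (b l) (z l) (a l)
    linarith
  rw [abs_sub_comm (b l) (z l)] at h4
  have h5 : (nm a : ℤ) + 2 * r < nm b := by exact_mod_cast h
  rw [← hl] at h5
  linarith

/-- None of the separated points has an arm. -/
lemma no_arm (hd : 1 ≤ d) (p : unitInterval) (r K : ℕ) (a : ℕ → Z d)
    (ha : ∀ j < K, nm (a j) = j * (2 * r + 1)) :
    (mb d p).real (⋂ j ∈ Finset.range K, (Aa (a j) r)ᶜ) ≤ (1 - th (bondM d) p) ^ K := by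
  have hi := Pool.Agent.W45.PC.s_indepF (Sym2 (Z d)) (fun _ => p) ℕ (Finset.range K)
    (fun j => In (bondM d) (Bo (a j) r)) (fun j => (Aa (a j) r)ᶜ)
    (fun j _ => dep_compl (Aa_dep (a j) r))
    (fun j hj j' hj' hne => by
      have key : ∀ j j' : ℕ, j < K → j' < K → j < j' →
          Disjoint (In (bondM d) (Bo (a j) r)) (In (bondM d) (Bo (a j') r)) := by
        intro j j' hj hj' hlt
        refine In_disj (bondM d) (Bo_disj_nm hd ?_)
        rw [ha j hj, ha j' hj']
        have : (j + 1) * (2 * r + 1) ≤ j' * (2 * r + 1) := Nat.mul_le_mul_right _ hlt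
        nlinarith
      rcases lt_or_gt_of_ne hne with h | h
      · exact key j j' (Finset.mem_range.1 hj) (Finset.mem_range.1 hj') h
      · exact (key j' j (Finset.mem_range.1 hj') (Finset.mem_range.1 hj) h).symm)
    (fun j _ => (Aa_meas (a j) r).compl)
  have h4 : (mb d p).real (⋂ j ∈ Finset.range K, (Aa (a j) r)ᶜ) =
      ∏ j ∈ Finset.range K, (mb d p).real (Aa (a j) r)ᶜ := by
    unfold Measure.real mb
    rw [hi, ENNReal.toReal_prod]
  rw [h4]
  calc ∏ j ∈ Finset.range K, (mb d p).real (Aa (a j) r)ᶜ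
      ≤ ∏ _j ∈ Finset.range K, (1 - th (bondM d) p) := by
        refine Finset.prod_le_prod (fun _ _ => measureReal_nonneg) fun j _ => ?_
        rw [probReal_compl_eq_one_sub (Aa_meas (a j) r)]
        linarith [th_le_Aa p (a j) r]
    _ = (1 - th (bondM d) p) ^ K := by rw [Finset.prod_const, Finset.card_range]

/-- The union bound. -/
lemma face_union (hd : 1 ≤ d) (p : unitInterval) (i : Fin d) {n k r K : ℕ} (R : Set (Z d))
    (hk : K * (2 * r + 1) ≤ k) (hkn : k ≤ n)
    (hR : ∀ ρ ≤ n, ∃ a ∈ R, nm a = ρ) {t : ℝ}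
    (ht : ∀ N, (mb d p).real {ω | Am (bondM d) ω 0 r 0 ∧ ¬ Am (bondM d) ω 0 N 0} ≤ t) :
    1 - (mb d p).real (Lk (bondM d) (Bo 0 n) R (Fc i n)) ≤
      (1 - th (bondM d) p) ^ K + K * t +
      (1 - (mb d p).real (Lk (bondM d) (Bo 0 n) (Bo 0 k) (Fc i n))) +
      (mb d p).real (Ta (bondM d) 0 k n) := by
  classical
  choose! a haR ha using hR
  set b : ℕ → Z d := fun j => a (j * (2 * r + 1)) with hb
  have hbn : ∀ j < K, j * (2 * r + 1) ≤ k := by
    intro j hj
    exact (Nat.mul_le_mul_right _ hj.le).trans hk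
  have hbm : ∀ j < K, nm (b j) = j * (2 * r + 1) := fun j hj =>
    ha _ ((hbn j hj).trans hkn)
  have hbR : ∀ j < K, b j ∈ R := fun j hj => haR _ ((hbn j hj).trans hkn)
  have hbk : ∀ j < K, b j ∈ Bo (0 : Z d) k := by
    intro j hj
    have h1 := mem_Bo_nm 0 (b j)
    rw [zero_add, hbm j hj] at h1
    exact Bo_mono 0 (hbn j hj) h1
  set T : Set (Sym2 (Z d) → Bool) := Ta (bondM d) 0 k n with hT
  set L1 : Set (Sym2 (Z d) → Bool) := Lk (bondM d) (Bo 0 n) R (Fc i n) with hL1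
  set L2 : Set (Sym2 (Z d) → Bool) := Lk (bondM d) (Bo 0 n) (Bo 0 k) (Fc i n) with hL2
  have mL1 : MeasurableSet L1 := Lk_meas (bondM d) _ _ _
  have mL2 : MeasurableSet L2 := Lk_meas (bondM d) _ _ _
  set N0 : Set (Sym2 (Z d) → Bool) := ⋂ j ∈ Finset.range K, (Aa (b j) r)ᶜ with hN0
  set B0 : Set (Sym2 (Z d) → Bool) := ⋃ j ∈ Finset.range K, (Aa (b j) r \ Aa (b j) (2 * n)) with hB0
  have hsub : L1ᶜ ⊆ ((N0 ∪ B0) ∪ L2ᶜ) ∪ T := by
    intro ω hω
    by_contra hc
    have c1 : ω ∉ N0 := fun h => hc (Or.inl (Or.inl (Or.inl h)))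
    have c2 : ω ∉ B0 := fun h => hc (Or.inl (Or.inl (Or.inr h)))
    have c3 : ω ∈ L2 := by
      by_contra h
      exact hc (Or.inl (Or.inr h))
    have c4 : ω ∉ T := fun h => hc (Or.inr h)
    obtain ⟨x, hx, y, hy, hxy⟩ := c3
    have hxn : x ∈ Bo (0 : Z d) n := Bo_mono 0 hkn hx
    have hyn : y ∈ Bo (0 : Z d) n := by
      by_cases h : x = y
      · rw [← h]; exact hxn
      · exact (mem_of_reach hxy h).2
    have hyF : y ∈ Fr (0 : Z d) n := by
      refine ⟨hyn, i, ?_⟩
      have : y i = n := hy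
      rw [Pi.zero_apply, sub_zero, this]
      simp
    have hAx : Am (bondM d) ω 0 n x := ⟨y, hyF, hxy⟩
    have : ∃ j < K, ω ∈ Aa (b j) r := by
      by_contra h
      push Not at h
      refine c1 ?_
      rw [hN0, mem_iInter₂]
      exact fun j hj => h j (Finset.mem_range.1 hj)
    obtain ⟨j, hj, hjA⟩ := this
    have hj2 : ω ∈ Aa (b j) (2 * n) := by
      by_contra h
      refine c2 ?_
      rw [hB0, mem_iUnion₂]
      exact ⟨j, Finset.mem_range.2 hj, hjA, h⟩
    obtain ⟨z, hz, hjz⟩ := hj2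
    have hAb : Am (bondM d) ω 0 n (b j) := by
      refine exit_Am (Bo_mono 0 hkn (hbk j hj)) ?_ hjz
      obtain ⟨l, hl⟩ := hz.2
      have h1 := Bo_mono (0 : Z d) hkn (hbk j hj) l
      rw [Pi.zero_apply, sub_zero] at h1
      by_cases hzn : z ∈ Bo (0 : Z d) n
      · right
        refine ⟨hzn, l, le_antisymm (hzn l) ?_⟩
        rw [Pi.zero_apply, sub_zero]
        have h2 := abs_sub (z l) (b j l)
        rw [hl] at h2
        push_cast at h2
        linarith
      · exact Or.inl hzn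
    have hreach : (G (bondM d) ω (Bo 0 n)).Reachable (b j) x := by
      by_contra h
      exact c4 ⟨b j, hbk j hj, x, hx, hAb, hAx, h⟩
    exact hω ⟨b j, hbR j hj, y, hy, hreach.trans hxy⟩
  have e1 : (mb d p).real L1ᶜ = 1 - (mb d p).real L1 := probReal_compl_eq_one_sub mL1
  have e2 : (mb d p).real L2ᶜ = 1 - (mb d p).real L2 := probReal_compl_eq_one_sub mL2
  have e3 : (mb d p).real N0 ≤ (1 - th (bondM d) p) ^ K := no_arm hd p r K b hbm
  have e4 : (mb d p).real B0 ≤ K * t := by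
    calc (mb d p).real B0 ≤ ∑ j ∈ Finset.range K, (mb d p).real (Aa (b j) r \ Aa (b j) (2 * n)) :=
          measureReal_biUnion_finset_le _ _
      _ ≤ ∑ _j ∈ Finset.range K, t := Finset.sum_le_sum fun j _ => by
          rw [trunc_shift]; exact ht _
      _ = K * t := by rw [Finset.sum_const, Finset.card_range, nsmul_eq_mul]
  have e5 : (mb d p).real L1ᶜ ≤ (mb d p).real N0 + (mb d p).real B0 + (mb d p).real L2ᶜ +
      (mb d p).real T := by
    refine (measureReal_mono hsub (measure_ne_top _ _)).trans ?_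
    refine (measureReal_union_le _ _).trans (add_le_add ?_ le_rfl)
    refine (measureReal_union_le _ _).trans (add_le_add ?_ le_rfl)
    exact measureReal_union_le _ _
  rw [e1, e2] at e5
  linarith

end

end Pool.Agent.Helper401_HS
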