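import Pool.Agent.Helper401_HS.Face

set_option autoImplicit false

open MeasureTheory Set

/-!
Polynomial bound for the connection to a face (helper401).
-/

namespace Pool.Agent.Helper401_HS

open Pool.Agent.Y990.CB Pool.Agent.Y990.OA
open Pool.Agent.W783.PC (pm DepOn Inc bern)
open Pool.Agent.W424.PC
open Pool.Agent.Helper401_FP (two_arm th_mono Perc_dep)

noncomputable section

variable {d : ℕ}

lemma pow_le_inv {θ : ℝ} (h0 : 0 < θ) (h1 : θ ≤ 1) {m : ℕ} (hm : 1 ≤ m) :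
    (1 - θ) ^ m ≤ θ⁻¹ * (m : ℝ)⁻¹ := by
  have hmR : (0 : ℝ) < m := by exact_mod_cast hm
  have h2 : 1 - θ ≤ (1 + θ)⁻¹ := by
    rw [← one_div, le_div_iff₀ (by linarith)]
    nlinarith
  have h3 : 1 + (m : ℝ) * θ ≤ (1 + θ) ^ m := one_add_mul_le_pow (by linarith) m
  calc (1 - θ) ^ m ≤ ((1 + θ)⁻¹) ^ m := pow_le_pow_left₀ (by linarith) h2 m
    _ = ((1 + θ) ^ m)⁻¹ := by rw [inv_pow]
    _ ≤ (m * θ)⁻¹ := inv_anti₀ (by positivity) (by linarith)
    _ = θ⁻¹ * (m : ℝ)⁻¹ := by rw [mul_inv, mul_comm]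

/-- **A set with points at all distances from the centre is connected to a face** with a failure
probability which is polynomially small. -/
theorem face_poly0 (hd : 3 ≤ d) {p : unitInterval} (hp : pc (bondM d) < p) :
    ∃ C β : ℝ, 0 < C ∧ 0 < β ∧ ∀ (n : ℕ) (i : Fin d) (R : Set (Z d)), 1 ≤ n →
      (∀ ρ ≤ n, ∃ a ∈ R, nm a = ρ) →
      1 - (mb d p).real (Lk (bondM d) (Bo 0 n) R (Fc i n)) ≤ C * (n : ℝ) ^ (-β) := by
  obtain ⟨A, hA2, hA⟩ := two_arm hd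
  obtain ⟨C1, β1, hC1, hβ1, hH⟩ := hole_pc hp
  obtain ⟨C2, β2, hC2, hβ2, hT⟩ := arm_poly hd hp
  have hth : 0 < th (bondM d) p := th_pos_of_gt hp
  set θ := th (bondM d) p with hθ
  have hθ1 : θ ≤ 1 := measureReal_le_one
  obtain ⟨b, hb⟩ := exists_nat_ge (2 / β2)
  have hb1 : 1 ≤ b := by
    by_contra hc
    have : b = 0 := by omega
    rw [this] at hb
    have : 0 < 2 / β2 := by positivity
    simp only [Nat.cast_zero] at hb
    linarith
  have hbβ : 2 ≤ (b : ℝ) * β2 := by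
    rw [div_le_iff₀ hβ2] at hb
    exact hb
  have hdR : (0 : ℝ) < 2 * d := by
    have : (3 : ℝ) ≤ d := by exact_mod_cast hd
    linarith
  set γ : ℝ := min 1 (min (β1 / (2 * d)) (1 / 50)) with hγ
  have hγ0 : 0 < γ := by positivity
  set B : ℕ := (b + 4) * A with hB
  obtain ⟨C', β, hC', hβ, hF⟩ := to_poly 2 B
    (by rw [hB]; exact Nat.mul_pos (by omega) (by omega))
    (θ⁻¹ + C2 + C1 ^ (1 / (2 * d : ℝ)) + 8) γ (by positivity) hγ0
  refine ⟨C', β, hC', hβ, fun n i R hn hR => ?_⟩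
  have key := hF (fun n' => if n' = n then
    1 - (mb d p).real (Lk (bondM d) (Bo 0 n) R (Fc i n)) else 0) ?_ ?_ n hn
  · simpa only [if_true] using key
  · intro k
    by_cases h : k = n
    · simp only [if_pos h]
      have : 0 ≤ (mb d p).real (Lk (bondM d) (Bo 0 n) R (Fc i n)) := measureReal_nonneg
      linarith
    · simp only [if_neg h]
      norm_num
  intro m hm2 hm1 n' hmn
  have hmR : (1 : ℝ) ≤ m := by exact_mod_cast hm1
  have hmR0 : (0 : ℝ) < m := by linarith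
  by_cases hnn : n' = n
  swap
  · simp only [if_neg hnn]
    positivity
  subst hnn
  simp only [if_true]
  -- the parameters
  set r : ℕ := m ^ b with hr
  set k : ℕ := m * (2 * r + 1) with hk
  have hr1 : 1 ≤ r := Nat.one_le_pow _ _ hm1
  have hmk : m ≤ k := Nat.le_mul_of_pos_right _ (by omega)
  have hkA : (k + 2) ^ A ≤ n' := by
    have h1 : k + 2 ≤ m ^ (b + 4) := by
      have e1 : m ^ (b + 4) = m ^ b * m * (m * m * m) := by ring
      have e2 : k = 2 * (m ^ b * m) + m := by rw [hk, hr]; ring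
      have e3 : m ≤ m ^ b * m := Nat.le_mul_of_pos_left _ hr1
      have e4 : 8 ≤ m * m * m := by
        calc 8 = 2 * 2 * 2 := rfl
          _ ≤ m * m * m := Nat.mul_le_mul (Nat.mul_le_mul hm2 hm2) hm2
      rw [e1, e2]
      calc 2 * (m ^ b * m) + m + 2 ≤ m ^ b * m * 8 := by omega
        _ ≤ m ^ b * m * (m * m * m) := Nat.mul_le_mul_left _ e4
    calc (k + 2) ^ A ≤ (m ^ (b + 4)) ^ A := Nat.pow_le_pow_left h1 A
      _ = m ^ B := by rw [hB, pow_mul]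
      _ ≤ n' := hmn
  have hkn : k ≤ n' := by
    calc k ≤ (k + 2) ^ 1 := by rw [pow_one]; omega
      _ ≤ (k + 2) ^ A := Nat.pow_le_pow_right (by omega) (by omega)
      _ ≤ n' := hkA
  have hmn' : m ≤ n' := hmk.trans hkn
  have hu := face_union (by omega) p i (n := n') (k := k) (r := r) (K := m) R le_rfl hkn hR
    (t := C2 * (r : ℝ) ^ (-β2)) (fun N => hT r N hr1)
  -- the terms
  have hg1 : (m : ℝ)⁻¹ ≤ (m : ℝ) ^ (-γ) := by
    rw [← Real.rpow_neg_one]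
    exact Real.rpow_le_rpow_of_exponent_le hmR (neg_le_neg (min_le_left _ _))
  have t1 : (1 - θ) ^ m ≤ θ⁻¹ * (m : ℝ) ^ (-γ) :=
    (pow_le_inv hth hθ1 hm1).trans (mul_le_mul_of_nonneg_left hg1 (by positivity))
  have t2 : (m : ℝ) * (C2 * (r : ℝ) ^ (-β2)) ≤ C2 * (m : ℝ) ^ (-γ) := by
    have e1 : (r : ℝ) ^ (-β2) = (m : ℝ) ^ (-(b * β2)) := by
      rw [hr]
      push_cast
      rw [← Real.rpow_natCast, ← Real.rpow_mul hmR0.le]
      congr 1
      ring
    have e2 : (m : ℝ) ^ (-(b * β2)) ≤ (m : ℝ) ^ (-(2 : ℝ)) :=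
      Real.rpow_le_rpow_of_exponent_le hmR (by linarith)
    have e3 : (m : ℝ) * (m : ℝ) ^ (-(2 : ℝ)) = (m : ℝ)⁻¹ := by
      rw [← Real.rpow_neg_one]
      nth_rewrite 1 [← Real.rpow_one (m : ℝ)]
      rw [← Real.rpow_add hmR0]
      norm_num
    calc (m : ℝ) * (C2 * (r : ℝ) ^ (-β2)) = C2 * (m * (m : ℝ) ^ (-(b * β2))) := by
          rw [e1]; ring
      _ ≤ C2 * (m * (m : ℝ) ^ (-(2 : ℝ))) := by
          refine mul_le_mul_of_nonneg_left ?_ hC2.le
          exact mul_le_mul_of_nonneg_left e2 hmR0.le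
      _ = C2 * (m : ℝ)⁻¹ := by rw [e3]
      _ ≤ C2 * (m : ℝ) ^ (-γ) := mul_le_mul_of_nonneg_left hg1 hC2.le
  have t3 : 1 - (mb d p).real (Lk (bondM d) (Bo 0 n') (Bo 0 k) (Fc i n')) ≤
      C1 ^ (1 / (2 * d : ℝ)) * (m : ℝ) ^ (-γ) := by
    have f1 := face_miss p i k n'
    have f2 := hH k n' (by omega) hkn
    set x := 1 - (mb d p).real (Lk (bondM d) (Bo 0 n') (Bo 0 k) (Fc i n')) with hx
    have hx0 : 0 ≤ x := by
      have : (mb d p).real (Lk (bondM d) (Bo 0 n') (Bo 0 k) (Fc i n')) ≤ 1 := measureReal_le_one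
      rw [hx]; linarith
    have hkR : (m : ℝ) ≤ k := by exact_mod_cast hmk
    have f3 : x ^ (2 * d) ≤ C1 * (m : ℝ) ^ (-β1) := by
      refine (f1.trans f2).trans (mul_le_mul_of_nonneg_left ?_ hC1.le)
      exact Real.rpow_le_rpow_of_nonpos hmR0 hkR (by linarith)
    have f4 : x = (x ^ (2 * d)) ^ (1 / (2 * d : ℝ)) := by
      rw [← Real.rpow_natCast, ← Real.rpow_mul hx0]
      push_cast
      rw [mul_one_div_cancel hdR.ne', Real.rpow_one]
    calc x = (x ^ (2 * d)) ^ (1 / (2 * d : ℝ)) := f4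
      _ ≤ (C1 * (m : ℝ) ^ (-β1)) ^ (1 / (2 * d : ℝ)) :=
          Real.rpow_le_rpow (by positivity) f3 (by positivity)
      _ = C1 ^ (1 / (2 * d : ℝ)) * (m : ℝ) ^ (-(β1 / (2 * d))) := by
          rw [Real.mul_rpow hC1.le (by positivity), ← Real.rpow_mul hmR0.le]
          congr 2
          ring
      _ ≤ C1 ^ (1 / (2 * d : ℝ)) * (m : ℝ) ^ (-γ) := by
          refine mul_le_mul_of_nonneg_left ?_ (by positivity)
          refine Real.rpow_le_rpow_of_exponent_le hmR (neg_le_neg ?_)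
          exact (min_le_right _ _).trans (min_le_left _ _)
  have t4 : (mb d p).real (Ta (bondM d) 0 k n') ≤ 8 * (m : ℝ) ^ (-γ) := by
    have f1 : (mb d p).real (Ta (bondM d) 0 k n') ≤ 8 * (n' : ℝ) ^ (-(1 / 50 : ℝ)) :=
      hA p hp.le k n' hkA
    refine f1.trans (mul_le_mul_of_nonneg_left ?_ (by norm_num))
    calc (n' : ℝ) ^ (-(1 / 50 : ℝ)) ≤ (m : ℝ) ^ (-(1 / 50 : ℝ)) :=
          Real.rpow_le_rpow_of_nonpos hmR0 (by exact_mod_cast hmn') (by norm_num)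
      _ ≤ (m : ℝ) ^ (-γ) := by
          refine Real.rpow_le_rpow_of_exponent_le hmR (neg_le_neg ?_)
          exact (min_le_right _ _).trans (min_le_right _ _)
  calc 1 - (mb d p).real (Lk (bondM d) (Bo 0 n') R (Fc i n'))
      ≤ θ⁻¹ * (m : ℝ) ^ (-γ) + C2 * (m : ℝ) ^ (-γ) + C1 ^ (1 / (2 * d : ℝ)) * (m : ℝ) ^ (-γ) +
        8 * (m : ℝ) ^ (-γ) := by linarith
    _ = (θ⁻¹ + C2 + C1 ^ (1 / (2 * d : ℝ)) + 8) * (m : ℝ) ^ (-γ) := by ring

lemma sf_Fc (c : Z d) (i : Fin d) (s : ℤ) : sf c '' Fc i s = Fc i (c i + s) := by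
  ext x
  constructor
  · rintro ⟨y, hy, rfl⟩
    have hy' : y i = s := hy
    show y i + c i = c i + s
    rw [hy']; ring
  · intro hx
    have hx' : x i = c i + s := hx
    refine ⟨x - c, ?_, sub_add_cancel x c⟩
    show x i - c i = s
    rw [hx']; ring

/-- The same with an arbitrary centre. -/
theorem face_poly (hd : 3 ≤ d) {p : unitInterval} (hp : pc (bondM d) < p) :
    ∃ C β : ℝ, 0 < C ∧ 0 < β ∧ ∀ (n : ℕ) (i : Fin d) (c : Z d) (R : Set (Z d)), 1 ≤ n →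
      (∀ ρ ≤ n, ∃ a ∈ R, nm (a - c) = ρ) →
      1 - (mb d p).real (Lk (bondM d) (Bo c n) R (Fc i (c i + n))) ≤ C * (n : ℝ) ^ (-β) := by
  obtain ⟨C, β, hC, hβ, h⟩ := face_poly0 hd hp
  refine ⟨C, β, hC, hβ, fun n i c R hn hR => ?_⟩
  have h1 := h n i ((sf c).symm '' R) hn (by
    intro ρ hρ
    obtain ⟨a, ha, hn'⟩ := hR ρ hρ
    refine ⟨(sf c).symm a, ⟨a, ha, rfl⟩, ?_⟩
    have : (sf c).symm a = a - c := sub_eq_add_neg a c ▸ rfl
    rw [this]
    exact hn')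
  have h2 := Lk_symm p (sf c) (Nb_sf c) (Bo (0 : Z d) n) ((sf c).symm '' R) (Fc i n)
  rw [sf_image_Bo, zero_add, sf_Fc] at h2
  have h3 : sf c '' ((sf c).symm '' R) = R := by
    rw [Set.image_image]
    simp
  rw [h3] at h2
  rw [h2]
  exact h1

end

end Pool.Agent.Helper401_HS
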