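import Pool.Agent.Helper401_HS.Infl
import Pool.Agent.Helper401_FP.Sub

set_option autoImplicit false

open MeasureTheory Set

/-!
Holes have polynomially small probability above a parameter of percolation (helper401).
-/

namespace Pool.Agent.Helper401_HS

open Pool.Agent.Y990.CB Pool.Agent.Y990.OA
open Pool.Agent.W783.PC (pm DepOn Inc bern)
open Pool.Agent.W424.PC
open Pool.Agent.R959.GF

noncomputable section

variable {d : ℕ}

lemma hol_anti {p q : unitInterval} (h : p ≤ q) (k n : ℕ) :
    hol (bondM d) q k n ≤ hol (bondM d) p k n := by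
  rw [hol_Av, hol_Av]
  have h1 : mb d p (Av d k n) ≤ mb d q (Av d k n) :=
    Pool.Agent.W400.PC.s_mono (Sym2 (Z d)) (fun _ => p) (fun _ => q) (Av d k n) (fun _ => h)
      (Av_inc k n) (Lk_meas (bondM d) _ _ _)
  have h2 : (mb d p).real (Av d k n) ≤ (mb d q).real (Av d k n) :=
    ENNReal.toReal_mono (measure_ne_top _ _) h1
  linarith

theorem hole_poly1 {p0 p : unitInterval} (hp : p0 < p) (hp1 : (p : ℝ) < 1)
    (hth : 0 < th (bondM d) p0) : ∃ C β : ℝ, 0 < C ∧ 0 < β ∧ ∀ k n : ℕ, 1 ≤ k → k ≤ n →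
      hol (bondM d) p k n ≤ C * (k : ℝ) ^ (-β) := by
  have hp0 : 0 < (p0 : ℝ) := by
    rcases eq_or_ne p0 0 with h0 | h0
    · rw [h0, th_zero (bondM d) nd_bond] at hth
      exact absurd hth (lt_irrefl _)
    · have : (0 : unitInterval) < p0 := lt_of_le_of_ne p0.2.1 (Ne.symm h0)
      exact this
  obtain ⟨C0, hC0, htwo⟩ := twoU (bondM d) p0 hp0 p0.2.2
  set c := th (bondM d) p0 with hc
  have hc1 : c ≤ 1 := measureReal_le_one
  have hp' : (p0 : ℝ) < p := hp
  set Δ : ℝ := p - p0 with hΔ
  have hΔ0 : 0 < Δ := by linarith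
  have hΔ1 : Δ ≤ 1 := by linarith [p.2.2]
  have hq1 : 0 < 1 - (p : ℝ) := by linarith
  set D : ℝ := 4 + C0 ^ 2 / (1 - p) with hD
  have hD4 : 4 ≤ D := by
    have : 0 ≤ C0 ^ 2 / (1 - (p : ℝ)) := by positivity
    linarith
  have hD0 : 0 < D := by linarith
  set ε : ℝ := c * Δ / 32 with hε
  have hcΔ : 0 < c * Δ := by positivity
  have hε0 : 0 < ε := by positivity
  have hε1 : ε ≤ 1 := by
    rw [hε, div_le_one (by norm_num)]
    nlinarith
  set M0 : ℝ := max (4 * Real.log D) (32 / (c * Δ)) with hM0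
  obtain ⟨m0, hm0⟩ := exists_nat_ge (Real.exp M0)
  obtain ⟨C', β, hC', hβ, hF⟩ := to_poly m0 4 (by norm_num) (Real.exp (c / 2)) (c * ε / 2)
    (by positivity) (by positivity)
  refine ⟨C', β, hC', hβ, fun k n hk hkn => ?_⟩
  have key := hF (fun k => if k ≤ n then hol (bondM d) p k n else 0) ?_ ?_ k hk
  · simpa only [if_pos hkn] using key
  · intro k
    by_cases h : k ≤ n
    · simp only [if_pos h]
      exact measureReal_le_one
    · simp only [if_neg h]
      norm_num
  · intro m hm hm1 k hkm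
    have hmR : (1 : ℝ) ≤ m := by exact_mod_cast hm1
    have hmR0 : (0 : ℝ) < m := by linarith
    by_cases h : k ≤ n
    swap
    · simp only [if_neg h]
      positivity
    simp only [if_pos h]
    -- the logarithm of m
    have hlog : M0 ≤ Real.log m := by
      have h1 : Real.exp M0 ≤ m := hm0.trans (by exact_mod_cast hm)
      have := Real.log_le_log (Real.exp_pos _) h1
      rwa [Real.log_exp] at this
    have hlogD : 4 * Real.log D ≤ Real.log m := (le_max_left _ _).trans hlog
    have hlogc : 32 / (c * Δ) ≤ Real.log m := (le_max_right _ _).trans hlog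
    have hlogpos : 0 < Real.log m := lt_of_lt_of_le (by positivity) hlogc
    set l := Real.log m with hl
    set J := ⌊ε * l⌋₊ with hJ
    have hJle : (J : ℝ) ≤ ε * l := Nat.floor_le (by positivity)
    have hJlt : ε * l < J + 1 := Nat.lt_floor_add_one _
    have hlm : l ≤ m - 1 := Real.log_le_sub_one_of_pos hmR0
    have hJm : J + 1 ≤ m := by
      have h1 : (J : ℝ) ≤ m - 1 := by nlinarith
      have h2 : (J : ℝ) + 1 ≤ m := by linarith
      exact_mod_cast h2
    have hsq : 0 < √(m : ℝ) := Real.sqrt_pos.2 hmR0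
    have hsq1 : 1 ≤ √(m : ℝ) := by
      rw [Real.one_le_sqrt]; exact hmR
    have hsqm : √(m : ℝ) * √(m : ℝ) = m := Real.mul_self_sqrt hmR0.le
    set u : ℝ := D / √m with hu
    have hu0 : 0 < u := by positivity
    have hlogu : Real.log (1 / u) = l / 2 - Real.log D := by
      rw [hu, one_div_div, Real.log_div hsq.ne' hD0.ne', Real.log_sqrt hmR0.le]
    have hlogu2 : l / 4 ≤ Real.log (1 / u) := by rw [hlogu]; linarith
    have hu1 : u < 1 := by
      by_contra hc'
      push Not at hc'
      have : Real.log (1 / u) ≤ 0 := by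
        refine Real.log_nonpos (by positivity) ?_
        rw [div_le_one hu0]; exact hc'
      linarith
    have hJ1 : (0 : ℝ) < (J : ℝ) + 1 := by positivity
    have hJw : (J + 1) * m ^ 3 ≤ k := by
      calc (J + 1) * m ^ 3 ≤ m * m ^ 3 := Nat.mul_le_mul_right _ hJm
        _ = m ^ 4 := by ring
        _ ≤ k := hkm
    have hmain := hole_iter (d := d) (p0 := p0) (p := p) hp1 (b := C0 ^ 2 / √m) (by positivity)
      (r := m) (w := m ^ 3) (n := n) (J := J) hm1 (Nat.one_le_pow _ _ hm1)
      (fun q hq0 hq1' x => by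
        have := htwo q hq0 x 1 m hm1
        exact this)
      (u := u) (s := Δ / (J + 1)) ?_ hu0 hu1 (by positivity) ?_ hth ?_ hJw h le_rfl
    · refine hmain.trans ?_
      have h1 : (1 - c / 2) ^ J ≤ Real.exp (-(c / 2) * J) := by
        have h2 : 1 - c / 2 ≤ Real.exp (-(c / 2)) := by
          have := Real.add_one_le_exp (-(c / 2))
          linarith
        calc (1 - c / 2) ^ J ≤ Real.exp (-(c / 2)) ^ J :=
              pow_le_pow_left₀ (by linarith) h2 J
          _ = Real.exp (-(c / 2) * J) := by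
              rw [← Real.exp_nat_mul]
              congr 1
              ring
      refine h1.trans ?_
      rw [Real.rpow_def_of_pos hmR0, ← Real.exp_add]
      refine Real.exp_le_exp.2 ?_
      have h3 : (c / 2) * (ε * l) ≤ (c / 2) * (J + 1) :=
        mul_le_mul_of_nonneg_left hJlt.le (by linarith)
      have h4 : l * (-(c * ε / 2)) = -((c / 2) * (ε * l)) := by ring
      rw [← hl, h4]
      linarith
    · -- influences
      have hm3 : (0 : ℝ) < ((m ^ 3 : ℕ) : ℝ) := by positivity
      have h1 : 2 * ((m : ℝ) + 1) / ((m ^ 3 : ℕ) : ℝ) ≤ 4 / √m := by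
        rw [div_le_div_iff₀ hm3 hsq]
        push_cast
        have e1 : √(m : ℝ) ≤ m := by nlinarith
        have e2 : 2 * ((m : ℝ) + 1) * √m ≤ 2 * (2 * m) * m := by
          refine mul_le_mul (by linarith) e1 hsq.le (by positivity)
        have e3 : (m : ℝ) * m ≤ m ^ 3 := by
          have : (m : ℝ) ^ 3 = m * m * m := by ring
          rw [this]
          exact le_mul_of_one_le_right (by positivity) hmR
        nlinarith
      have h2 : C0 ^ 2 / √(m : ℝ) / (1 - (p : ℝ)) = (C0 ^ 2 / (1 - p)) / √m := by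
        field_simp
      rw [h2, hu, hD, add_div]
      linarith
    · have h1 : (J : ℝ) * (Δ / (J + 1)) ≤ Δ := by
        rw [mul_div_assoc', div_le_iff₀ hJ1]
        have : Δ * ((J : ℝ) + 1) = J * Δ + Δ := by ring
        linarith
      linarith
    · have hκ : l / 8 ≤ Real.log (1 / u) / 2 := by linarith
      have h1 : 0 < l / 8 := by positivity
      have h2 : 1 / (Real.log (1 / u) / 2 * (Δ / (J + 1))) ≤ 1 / (l / 8 * (Δ / (J + 1))) := by
        refine one_div_le_one_div_of_le (by positivity) ?_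
        exact mul_le_mul_of_nonneg_right hκ (by positivity)
      refine h2.trans ?_
      have h3 : 1 / (l / 8 * (Δ / (J + 1))) = 8 * (J + 1) / (l * Δ) := by
        field_simp
      rw [h3, div_le_iff₀ (by positivity)]
      have h4 : 8 * ((J : ℝ) + 1) ≤ 8 * (ε * l) + 8 := by linarith
      have h5 : 8 * (ε * l) = c * Δ * l / 4 := by rw [hε]; ring
      have h6 : 32 ≤ l * (c * Δ) := by
        rw [div_le_iff₀ hcΔ] at hlogc
        exact hlogc
      have h7 : c / 2 * (l * Δ) = l * (c * Δ) / 4 + l * (c * Δ) / 4 := by ring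
      rw [h7]
      have h8 : c * Δ * l / 4 = l * (c * Δ) / 4 := by ring
      linarith

/-- **Holes have polynomially small probability.** -/
theorem hole_poly {p0 p : unitInterval} (hp : p0 < p)
    (hth : 0 < th (bondM d) p0) : ∃ C β : ℝ, 0 < C ∧ 0 < β ∧ ∀ k n : ℕ, 1 ≤ k → k ≤ n →
      hol (bondM d) p k n ≤ C * (k : ℝ) ^ (-β) := by
  have hp' : (p0 : ℝ) < p := hp
  set q : unitInterval := ⟨((p0 : ℝ) + p) / 2, by linarith [p0.2.1, p.2.1],
    by linarith [p0.2.2, p.2.2]⟩ with hq
  have h1 : p0 < q := by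
    show (p0 : ℝ) < ((p0 : ℝ) + p) / 2
    linarith
  have h2 : (q : ℝ) < 1 := by
    show ((p0 : ℝ) + p) / 2 < 1
    linarith [p.2.2]
  have h3 : q ≤ p := by
    show ((p0 : ℝ) + p) / 2 ≤ p
    linarith
  obtain ⟨C, β, hC, hβ, h⟩ := hole_poly1 (d := d) h1 h2 hth
  exact ⟨C, β, hC, hβ, fun k n hk hkn => (hol_anti h3 k n).trans (h k n hk hkn)⟩

end

end Pool.Agent.Helper401_HS
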