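import Mathlib

set_option autoImplicit false

/-!
Polynomial bounds along a sequence of scales (helper401).
-/

namespace Pool.Agent.Helper401_HS

lemma exists_root (B : ℕ) (hB : 1 ≤ B) (k : ℕ) (hk : 1 ≤ k) :
    ∃ m : ℕ, 1 ≤ m ∧ m ^ B ≤ k ∧ k ≤ (2 * m) ^ B := by
  classical
  have hex : ∃ m : ℕ, k < (m + 1) ^ B := by
    refine ⟨k, ?_⟩
    calc k < k + 1 := Nat.lt_succ_self k
      _ = (k + 1) ^ 1 := (pow_one _).symm
      _ ≤ (k + 1) ^ B := Nat.pow_le_pow_right (by omega) hB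
  set m := Nat.find hex with hm
  have h1 : k < (m + 1) ^ B := Nat.find_spec hex
  have hm1 : 1 ≤ m := by
    rcases Nat.eq_zero_or_pos m with h0 | h0
    · rw [h0] at h1
      simp at h1
      omega
    · exact h0
  refine ⟨m, hm1, ?_, ?_⟩
  · have := Nat.find_min hex (m := m - 1) (by omega)
    rw [not_lt, Nat.sub_add_cancel hm1] at this
    exact this
  · exact h1.le.trans (Nat.pow_le_pow_left (by omega) B)

/-- A polynomial bound along the scales `m ^ B` gives a polynomial bound. -/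
theorem to_poly (m0 B : ℕ) (hB : 1 ≤ B) (C α : ℝ) (hC : 0 ≤ C) (hα : 0 < α) :
    ∃ C' β : ℝ, 0 < C' ∧ 0 < β ∧ ∀ F : ℕ → ℝ, (∀ k, F k ≤ 1) →
      (∀ m : ℕ, m0 ≤ m → 1 ≤ m → ∀ k : ℕ, m ^ B ≤ k → F k ≤ C * (m : ℝ) ^ (-α)) →
      ∀ k : ℕ, 1 ≤ k → F k ≤ C' * (k : ℝ) ^ (-β) := by
  have hBR : (0 : ℝ) < B := by exact_mod_cast hB
  set D : ℝ := (2 * (m0 + 1 : ℕ) : ℝ) ^ α with hD
  have hD0 : 0 < D := by positivity
  refine ⟨2 ^ α * C + D, α / B, by positivity, by positivity, fun F hF1 hF k hk => ?_⟩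
  obtain ⟨m, hm1, h1, h2⟩ := exists_root B hB k hk
  have hkR : (0 : ℝ) < k := by exact_mod_cast hk
  have hmR : (0 : ℝ) < m := by exact_mod_cast hm1
  have h3 : (k : ℝ) ≤ (2 * m : ℝ) ^ B := by exact_mod_cast h2
  have h4 : (k : ℝ) ^ (α / B) ≤ (2 * m : ℝ) ^ α := by
    calc (k : ℝ) ^ (α / B) ≤ ((2 * m : ℝ) ^ B) ^ (α / B) :=
          Real.rpow_le_rpow hkR.le h3 (by positivity)
      _ = (2 * m : ℝ) ^ α := by
          rw [← Real.rpow_natCast, ← Real.rpow_mul (by positivity)]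
          congr 1
          field_simp
  have h5 : 0 < (k : ℝ) ^ (α / B) := Real.rpow_pos_of_pos hkR _
  rw [Real.rpow_neg hkR.le, ← div_eq_mul_inv, le_div_iff₀ h5]
  by_cases hm : m0 ≤ m
  · have h6 := hF m hm hm1 k h1
    rw [Real.rpow_neg hmR.le, ← div_eq_mul_inv] at h6
    have h7 : 0 < (m : ℝ) ^ α := Real.rpow_pos_of_pos hmR _
    have h8 : (2 * m : ℝ) ^ α = 2 ^ α * (m : ℝ) ^ α := Real.mul_rpow (by norm_num) hmR.le
    have h9 : 0 ≤ C / (m : ℝ) ^ α := by positivity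
    calc F k * (k : ℝ) ^ (α / B) ≤ C / (m : ℝ) ^ α * (k : ℝ) ^ (α / B) :=
          mul_le_mul_of_nonneg_right h6 h5.le
      _ ≤ C / (m : ℝ) ^ α * (2 ^ α * (m : ℝ) ^ α) :=
          mul_le_mul_of_nonneg_left (by rw [← h8]; exact h4) h9
      _ = 2 ^ α * C := by field_simp
      _ ≤ 2 ^ α * C + D := by linarith
  · push Not at hm
    have h6 : (2 * m : ℝ) ^ α ≤ D := by
      rw [hD]
      refine Real.rpow_le_rpow (by positivity) ?_ hα.le
      have : m ≤ m0 + 1 := by omega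
      have : (m : ℝ) ≤ (m0 + 1 : ℕ) := by exact_mod_cast this
      linarith
    have h7 : 0 ≤ 2 ^ α * C := by positivity
    calc F k * (k : ℝ) ^ (α / B) ≤ 1 * (k : ℝ) ^ (α / B) :=
          mul_le_mul_of_nonneg_right (hF1 k) h5.le
      _ ≤ D := by rw [one_mul]; exact h4.trans h6
      _ ≤ 2 ^ α * C + D := by linarith

end Pool.Agent.Helper401_HS
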