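import Pool.Agent.Helper401_HS.Piv
import Pool.Agent.Helper401_HS.Root
import Pool.Agent.Y990.OA.Main6

set_option autoImplicit false

open MeasureTheory Set

/-!
Influences for the averaged connection events (helper401).
-/

namespace Pool.Agent.Helper401_HS

open Pool.Agent.Y990.CB Pool.Agent.Y990.OA
open Pool.Agent.W783.PC (pm DepOn Inc bern)
open Pool.Agent.W424.PC
open Pool.Agent.R959.GF

noncomputable section

variable {d : ℕ}

/-- Bernoulli bond percolation. -/
abbrev mb (d : ℕ) (q : unitInterval) : Measure (Sym2 (Z d) → Bool) := pm (fun _ : Sym2 (Z d) => q)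

lemma mu_mb (q : unitInterval) : mu (bondM d) q = mb d q := rfl

lemma mb_EX {E : Finset (Sym2 (Z d))} {A : Set (Sym2 (Z d) → Bool)}
    (h : DepOn A (E : Set (Sym2 (Z d)))) (q : unitInterval) : (mb d q).real A = EX E q (I1 A) :=
  pm_eq_EE Pool.Agent.W45.PC.s_indep Pool.Agent.W45.PC.s_depmeas (fun _ => q) h

lemma EX_sum {ι κ : Type} (E : Finset ι) (q : ℝ) (s : Finset κ) (f : κ → (ι → Bool) → ℝ) :
    EX E q (fun ω => ∑ i ∈ s, f i ω) = ∑ i ∈ s, EX E q (f i) := by
  classical
  induction s using Finset.induction_on with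
  | empty =>
    simp only [Finset.sum_empty]
    exact EX_const E q 0
  | insert a s ha ih =>
    rw [Finset.sum_insert ha, ← ih, ← EX_add]
    exact EX_congr fun ω => by rw [Finset.sum_insert ha]

/-- The average of the probabilities. -/
lemma EX_Sv {E : Finset (Sym2 (Z d))} {K N w : ℕ}
    (hE : In (bondM d) (Bo 0 (N + w)) ⊆ (E : Set (Sym2 (Z d)))) (q : unitInterval) :
    EX E q (Sv d K N w) = (∑ a ∈ Finset.range w, ∑ b ∈ Finset.range w,
      (mb d q).real (Av d (K + a) (N + b))) / (w * w) := by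
  have h1 : EX E q (Sv d K N w) = EX E q (fun ω => (1 / (w * w : ℝ)) *
      ∑ a ∈ Finset.range w, ∑ b ∈ Finset.range w, I1 (Av d (K + a) (N + b)) ω) :=
    EX_congr fun ω => by unfold Sv; ring
  rw [h1, EX_mul, EX_sum]
  rw [one_div, inv_mul_eq_div]
  congr 1
  refine Finset.sum_congr rfl fun a _ => ?_
  rw [EX_sum]
  refine Finset.sum_congr rfl fun b hb => ?_
  have hb' := Finset.mem_range.1 hb
  refine (mb_EX ?_ q).symm
  refine Pool.Agent.W424.PC.dep_mono (Av_dep (K + a) (N + b)) ?_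
  exact (In_mono (bondM d) (Bo_mono 0 (by omega))).trans hE

lemma EX_twob {E : Finset (Sym2 (Z d))} {e : Sym2 (Z d)} {x : Z d} {r : ℕ}
    (hE : In (bondM d) (Bo x r) ⊆ (E : Set (Sym2 (Z d)))) {q : unitInterval}
    (hq : (q : ℝ) < 1) {b : ℝ} (hb : (mb d q).real (Ta (bondM d) x 1 r) ≤ b) :
    EX E q (I1 {ω | upd e false ω ∈ Ta (bondM d) x 1 r}) ≤ b / (1 - q) := by
  have h0 : DepOn (Ta (bondM d) x 1 r) (E : Set (Sym2 (Z d))) :=
    Pool.Agent.W424.PC.dep_mono (Ta_dep (bondM d) x 1 r) hE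
  have h1 : DepOn {ω | upd e false ω ∈ Ta (bondM d) x 1 r} (E : Set (Sym2 (Z d))) :=
    Pool.Agent.W424.PC.dep_mono (depOn_upd h0 e false) sdiff_subset
  rw [← mb_EX h1 q]
  have h2 := pm_split Pool.Agent.W45.PC.s_indep (fun _ : Sym2 (Z d) => q)
    (Ta_meas (bondM d) x 1 r) e
  have h3 : (mb d q).real (Ta (bondM d) x 1 r) =
      (q : ℝ) * (mb d q).real {ω | upd e true ω ∈ Ta (bondM d) x 1 r} +
      (1 - (q : ℝ)) * (mb d q).real {ω | upd e false ω ∈ Ta (bondM d) x 1 r} := h2
  have h4 : 0 ≤ (q : ℝ) * (mb d q).real {ω | upd e true ω ∈ Ta (bondM d) x 1 r} :=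
    mul_nonneg q.2.1 measureReal_nonneg
  rw [le_div_iff₀ (by linarith)]
  linarith

/-- The edges of the box. -/
def Eb (d R : ℕ) : Finset (Sym2 (Z d)) := (In_fin (bondM d) (Bo_finite (0 : Z d) R)).toFinset

lemma mem_Eb {R : ℕ} {e : Sym2 (Z d)} : e ∈ Eb d R ↔ e ∈ In (bondM d) (Bo (0 : Z d) R) := by
  exact Set.Finite.mem_toFinset (In_fin (bondM d) (Bo_finite (0 : Z d) R))

lemma coe_Eb (R : ℕ) : ((Eb d R : Finset (Sym2 (Z d))) : Set (Sym2 (Z d))) =
    In (bondM d) (Bo (0 : Z d) R) := by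
  ext e
  exact mem_Eb

/-- the influences are small -/
lemma inflb {K N w r B : ℕ} {b : ℝ} (hw : 1 ≤ w) (hr : 1 ≤ r) (hb : 0 ≤ b)
    (hB : N + w ≤ B) {q : unitInterval} (hq : (q : ℝ) < 1)
    (hT : ∀ x : Z d, (mb d q).real (Ta (bondM d) x 1 r) ≤ b) {e : Sym2 (Z d)}
    (he : e ∈ Eb d (B + r)) :
    EX (Eb d (B + r)) q (DD e (Sv d K N w)) ≤ 2 * (r + 1) / w + b / (1 - q) := by
  obtain ⟨x, hx, y, hy, hxy, hc⟩ := mem_Eb.1 he
  have hc' : e = s(x, y) := Finset.mem_singleton.1 hc
  subst hc'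
  have hq1 : 0 < 1 - (q : ℝ) := by linarith
  by_cases hxB : nm x ≤ B
  · have hsub : In (bondM d) (Bo x r) ⊆ ((Eb d (B + r) : Finset _) : Set (Sym2 (Z d))) := by
      rw [coe_Eb]
      refine In_mono (bondM d) (Bo_sub (D := nm x) ?_ (by omega))
      have := mem_Bo_nm 0 x
      rwa [zero_add] at this
    calc EX (Eb d (B + r)) q (DD s(x, y) (Sv d K N w))
        ≤ EX (Eb d (B + r)) q (fun ω => 2 * (r + 1) / w +
          I1 {ω | upd s(x, y) false ω ∈ Ta (bondM d) x 1 r} ω) :=
          EX_mono q.2.1 q.2.2 fun ω => DD_Sv_le hw hr K N hxy ω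
      _ = 2 * (r + 1) / w +
          EX (Eb d (B + r)) q (I1 {ω | upd s(x, y) false ω ∈ Ta (bondM d) x 1 r}) := by
          rw [EX_add, EX_const]
      _ ≤ _ := by
          have := EX_twob (e := s(x, y)) hsub hq (hT x)
          linarith
  · have h0 : ∀ ω, DD s(x, y) (Sv d K N w) ω = 0 := by
      intro ω
      rw [DD_Sv, Finset.sum_eq_zero, zero_div]
      intro a _
      refine Finset.sum_eq_zero fun b' hb' => ?_
      have hb'' := Finset.mem_range.1 hb'
      refine I1_not fun hp => hxB ?_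
      have := (piv_out hxy hp).2
      omega
    rw [EX_congr (g := fun _ => (0 : ℝ)) h0, EX_const]
    positivity

/-- The box is connected to infinity at least as often as the origin. -/
lemma th_le_Av (p : unitInterval) (k n : ℕ) : th (bondM d) p ≤ (mb d p).real (Av d k n) := by
  refine measureReal_mono ?_ (measure_ne_top _ _)
  intro ω hω
  have h1 : (cl (bondM d) ω univ 0).Infinite := hω
  obtain ⟨y, hy, hy'⟩ := h1.exists_notMem_finset (Bf 0 n)
  obtain ⟨x', h2, h3⟩ := exit_Am (self_mem_Bo 0 n) (Or.inl fun h => hy' (mem_Bf.2 h)) hy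
  exact ⟨0, self_mem_Bo 0 k, x', h2, h3⟩

lemma hol_Av (p : unitInterval) (k n : ℕ) :
    hol (bondM d) p k n = 1 - (mb d p).real (Av d k n) := by
  have h1 : {ω | ω ∉ Av d k n} = (Av d k n)ᶜ := rfl
  unfold hol
  exact (congrArg (mb d p).real h1).trans
    (probReal_compl_eq_one_sub (Lk_meas (bondM d) (Bo 0 n) (Bo 0 k) (Fr 0 n)))

/-- One application of the iteration. -/
theorem hole_iter {p0 p : unitInterval} (hp1 : (p : ℝ) < 1) {b : ℝ} (hb : 0 ≤ b)
    {r w n J : ℕ} (hr : 1 ≤ r) (hw : 1 ≤ w)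
    (hT : ∀ q : unitInterval, p0 ≤ q → q ≤ p → ∀ x : Z d, (mb d q).real (Ta (bondM d) x 1 r) ≤ b)
    {u s : ℝ} (hu : 2 * ((r : ℝ) + 1) / w + b / (1 - p) ≤ u) (hu0 : 0 < u) (hu1 : u < 1)
    (hs : 0 < s) (hsJ : (p0 : ℝ) + J * s ≤ p) (hth : 0 < th (bondM d) p0)
    (hη : 1 / (Real.log (1 / u) / 2 * s) ≤ th (bondM d) p0 / 2) {k n' : ℕ}
    (hk : (J + 1) * w ≤ k) (hkn : k ≤ n') (hn' : n' ≤ n) :
    hol (bondM d) p k n' ≤ (1 - th (bondM d) p0 / 2) ^ J := by
  classical
  set c := th (bondM d) p0 with hc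
  have hc1 : c ≤ 1 := measureReal_le_one
  set B := n + (J + 1) * w with hBdef
  set E := Eb d (B + r) with hE
  set f : ℕ → (Sym2 (Z d) → Bool) → ℝ := fun j ω => 1 - Sv d (j * w) (n + (J - j) * w) w ω with hf
  have hNB : ∀ j ≤ J, n + (J - j) * w + w ≤ B := by
    intro j _
    have : (J - j) * w ≤ J * w := Nat.mul_le_mul_right _ (Nat.sub_le _ _)
    have h2 : (J + 1) * w = J * w + w := by ring
    omega
  have hDD : ∀ j e ω, DD e (f j) ω = - DD e (Sv d (j * w) (n + (J - j) * w) w) ω := by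
    intro j e ω
    simp only [hf]
    unfold DD
    ring
  have hκ : 0 < Real.log (1 / u) / 2 := by
    have : 0 < Real.log (1 / u) := Real.log_pos (by rw [lt_div_iff₀ hu0]; linarith)
    linarith
  have hp0 : (0 : ℝ) ≤ p0 := p0.2.1
  have hit := iterd (E := E) f J
    (fun j _ e _ ω => by rw [hDD]; linarith [DD_Sv_nonneg (d := d) (j * w) (n + (J - j) * w) w e ω])
    (fun j _ ω => by
      have := Sv_le_one (d := d) hw (j * w) (n + (J - j) * w) ω
      simp only [hf]; linarith)
    (fun j hj ω => by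
      simp only [hf]
      have g1 := Sv_nonneg (d := d) ((j + 1) * w) (n + (J - (j + 1)) * w) w ω
      by_cases hpos : 0 < Sv d (j * w) (n + (J - j) * w) w ω
      · have e1 : (j + 1) * w = j * w + w := by ring
        have e2 : (J - j) * w = (J - (j + 1)) * w + w := by
          have : J - j = J - (j + 1) + 1 := by omega
          rw [this]; ring
        have e3 : (j + 1) * w + w ≤ (J + 1) * w := by
          have : (j + 2) * w ≤ (J + 1) * w := Nat.mul_le_mul_right _ (by omega)
          linarith [this, (by ring : (j + 2) * w = (j + 1) * w + w)]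
        have := Sv_chain (d := d) hw (K := j * w) (N := n + (J - j) * w) (K' := (j + 1) * w)
          (N' := n + (J - (j + 1)) * w) (by omega) (by omega) (by omega) ω hpos
        rw [this]
        nlinarith
      · have g2 := Sv_nonneg (d := d) (j * w) (n + (J - j) * w) w ω
        have g3 : Sv d (j * w) (n + (J - j) * w) w ω = 0 := le_antisymm (not_lt.1 hpos) g2
        rw [g3]
        linarith)
    (t := p0) (s := s) (κ := Real.log (1 / u) / 2) (c := c) hκ hth hc1 hp0 hs
    (by linarith [p.2.2])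
    (fun j hj ξ hξ1 hξ2 => by
      have hξp : ξ ≤ p := by linarith
      set q : unitInterval := ⟨ξ, by linarith, by linarith [p.2.2]⟩ with hq
      refine var_le' (E := E) (q := ξ) (by linarith) (by linarith [p.2.2]) hu0 ?_ ?_
      · intro e _ ω
        rw [hDD, abs_neg, abs_of_nonneg (DD_Sv_nonneg _ _ _ _ _)]
        exact DD_Sv_le_one hw _ _ _ _
      · intro e he
        have h1 : EX E ξ (fun ω => |DD e (f j) ω|) =
            EX E ξ (DD e (Sv d (j * w) (n + (J - j) * w) w)) :=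
          EX_congr fun ω => by rw [hDD, abs_neg, abs_of_nonneg (DD_Sv_nonneg _ _ _ _ _)]
        rw [h1]
        have h2 := inflb (d := d) (K := j * w) (N := n + (J - j) * w) hw hr hb
          (hNB j hj.le) (q := q) (by show ξ < 1; linarith)
          (hT q (by show (p0 : ℝ) ≤ ξ; exact hξ1) (by show ξ ≤ p; exact hξp)) he
        refine h2.trans (le_trans ?_ hu)
        have h3 : b / (1 - ξ) ≤ b / (1 - p) :=
          div_le_div_of_nonneg_left hb (by linarith) (by linarith)
        have h4 : ((q : unitInterval) : ℝ) = ξ := rfl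
        rw [h4]
        linarith)
    hη
    (by
      have h1 : EX E p0 (f 0) = 1 - EX E p0 (Sv d (0 * w) (n + (J - 0) * w) w) := by
        simp only [hf]
        rw [show (EX E (p0 : ℝ) fun ω => 1 - Sv d (0 * w) (n + (J - 0) * w) w ω) =
          EX E (p0 : ℝ) (fun ω => (fun _ => (1 : ℝ)) ω - Sv d (0 * w) (n + (J - 0) * w) w ω) from rfl,
          EX_sub, EX_const]
      rw [h1, EX_Sv (by
        rw [hE, coe_Eb]
        exact In_mono (bondM d) (Bo_mono 0 ((hNB 0 (Nat.zero_le _)).trans (Nat.le_add_right _ _)))) p0]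
      have h2 := avg_le hw (f := fun _ _ => c)
        (g := fun a b => (mb d p0).real (Av d (0 * w + a) (n + (J - 0) * w + b)))
        (fun a _ b _ => th_le_Av p0 _ _)
      rw [avg_const hw] at h2
      linarith)
  have hfin := hit J le_rfl
  have h1 : EX E p (f J) ≤ EX E (p0 + J * s) (f J) :=
    EX_decr (fun e _ ω => by rw [hDD]; linarith [DD_Sv_nonneg (d := d) (J * w) (n + (J - J) * w) w e ω])
      (by positivity) hsJ p.2.2
  have h2 : hol (bondM d) p k n' ≤ EX E p (f J) := by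
    have e1 : EX E p (f J) = 1 - EX E p (Sv d (J * w) (n + (J - J) * w) w) := by
      simp only [hf]
      rw [show (EX E (p : ℝ) fun ω => 1 - Sv d (J * w) (n + (J - J) * w) w ω) =
        EX E (p : ℝ) (fun ω => (fun _ => (1 : ℝ)) ω - Sv d (J * w) (n + (J - J) * w) w ω) from rfl,
        EX_sub, EX_const]
    rw [e1, EX_Sv (by
      rw [hE, coe_Eb]
      exact In_mono (bondM d) (Bo_mono 0 ((hNB J le_rfl).trans (Nat.le_add_right _ _)))) p, hol_Av]
    have h3 := avg_le hw (f := fun a b => (mb d p).real (Av d (J * w + a) (n + (J - J) * w + b)))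
      (g := fun _ _ => (mb d p).real (Av d k n'))
      (fun a ha b' hb' => by
        refine measureReal_mono ?_ (measure_ne_top _ _)
        refine Av_mono ?_ ?_ hkn
        · have : (J + 1) * w = J * w + w := by ring
          omega
        · omega)
    rw [avg_const hw] at h3
    linarith
  have hc2 : 0 ≤ 1 - c / 2 := by linarith
  calc hol (bondM d) p k n' ≤ (1 - c) * (1 - c / 2) ^ J := (h2.trans h1).trans hfin
    _ ≤ 1 * (1 - c / 2) ^ J := mul_le_mul_of_nonneg_right (by linarith) (by positivity)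
    _ = (1 - c / 2) ^ J := one_mul _

end

end Pool.Agent.Helper401_HS
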