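import Pool.Agent.Helper401_HS.Union

set_option autoImplicit false

open MeasureTheory Set

/-!
Percolation in half-spaces (helper401): closing a random set of coordinates.
-/

namespace Pool.Agent.Helper401_HS

open Pool.Agent.Y990.CB
open Pool.Agent.W783.PC (pm DepOn Inc bern)

noncomputable section

lemma closed_real {κ : Type} (r : κ → unitInterval) (F : Finset κ) (s : ℝ)
    (h : ∀ c ∈ F, (r c : ℝ) = s) :
    (pm r).real {ω | ∀ c ∈ F, ω c = false} = (1 - s) ^ F.card := by
  have h1 : {ω : κ → Bool | ∀ c ∈ F, ω c = false} = Set.pi F fun _ => {false} := by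
    ext ω
    simp [Set.mem_pi]
  rw [Measure.real, h1, Pool.Agent.W400.PC.pm_pi, ENNReal.toReal_prod]
  have h2 : ∀ c ∈ F, (bern (r c) {false}).toReal = 1 - s := by
    intro c hc
    rw [Pool.Agent.W400.PC.bern_false, ENNReal.toReal_ofReal (by linarith [(r c).2.2]), h c hc]
  rw [Finset.prod_congr rfl h2, Finset.prod_const]

/-- The probability that a random set of coordinates, determined by other coordinates, is
closed. -/
lemma sum_closed {ι κ : Type} [DecidableEq ι] (r : κ → unitInterval) (S : (κ → Bool) → Finset ι)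
    (E0 : Finset ι) (U : Set κ) (hS0 : ∀ ω, S ω ⊆ E0)
    (hdep : ∀ ω ω' : κ → Bool, (∀ c ∈ U, ω c = ω' c) → S ω = S ω')
    (hSm : ∀ T, MeasurableSet {ω | S ω = T}) (φ : ι → κ) (hφ : Function.Injective φ)
    (hU : ∀ ω, ∀ e ∈ S ω, φ e ∉ U) (s : ℝ) (hr : ∀ e, (r (φ e) : ℝ) = s) :
    (pm r).real {ω | ∀ e ∈ S ω, ω (φ e) = false} =
      ∑ T ∈ E0.powerset, (pm r).real {ω | S ω = T} * (1 - s) ^ T.card := by
  classical
  have h1 : {ω : κ → Bool | ∀ e ∈ S ω, ω (φ e) = false} =
      ⋃ T ∈ E0.powerset, ({ω | S ω = T} ∩ {ω | ∀ c ∈ T.image φ, ω c = false}) := by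
    ext ω
    simp only [mem_ofPred_eq, mem_iUnion, mem_inter_iff, Finset.mem_powerset, exists_prop,
      Finset.mem_image, forall_exists_index, and_imp, forall_apply_eq_imp_iff₂]
    constructor
    · intro h
      exact ⟨S ω, hS0 ω, rfl, h⟩
    · rintro ⟨T, -, rfl, h⟩
      exact h
  have hcm : ∀ T : Finset ι, MeasurableSet {ω : κ → Bool | ∀ c ∈ T.image φ, ω c = false} := by
    intro T
    apply Pool.Agent.W45.PC.s_depmeas κ (T.image φ)
    intro ω ω' h
    constructor
    · intro h2 c hc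
      rw [← h c hc]; exact h2 c hc
    · intro h2 c hc
      rw [h c hc]; exact h2 c hc
  rw [h1, measureReal_biUnion_finset]
  · refine Finset.sum_congr rfl fun T _ => ?_
    by_cases hne : ∃ ω, S ω = T
    · obtain ⟨ω0, hω0⟩ := hne
      have hind := Pool.Agent.W45.PC.s_indep κ r U ((T.image φ : Finset κ) : Set κ) {ω | S ω = T}
        {ω | ∀ c ∈ T.image φ, ω c = false} ?_ ?_ ?_ (hSm T) (hcm T)
      · rw [Measure.real, hind, ENNReal.toReal_mul]
        change (pm r).real _ * (pm r).real _ = _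
        rw [closed_real r (T.image φ) s, Finset.card_image_of_injective _ hφ]
        intro c hc
        obtain ⟨e, -, rfl⟩ := Finset.mem_image.1 hc
        exact hr e
      · intro ω ω' h
        show S ω = T ↔ S ω' = T
        rw [hdep ω ω' h]
      · intro ω ω' h
        constructor
        · intro h2 c hc
          rw [← h c hc]; exact h2 c hc
        · intro h2 c hc
          rw [h c hc]; exact h2 c hc
      · rw [Set.disjoint_right]
        intro c hc
        rw [Finset.mem_coe, Finset.mem_image] at hc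
        obtain ⟨e, he, rfl⟩ := hc
        exact hU ω0 e (by rw [hω0]; exact he)
    · have he : {ω | S ω = T} = ∅ := by
        rw [eq_empty_iff_forall_notMem]
        exact fun ω hω => hne ⟨ω, hω⟩
      rw [he, empty_inter, measureReal_empty, zero_mul]
  · intro T _ T' _ hTT'
    rw [Function.onFun, Set.disjoint_left]
    rintro ω ⟨h2, -⟩ ⟨h3, -⟩
    exact hTT' (h2.symm.trans h3)
  · intro T _
    exact (hSm T).inter (hcm T)

lemma sum_law {ι κ : Type} [DecidableEq ι] (r : κ → unitInterval) (S : (κ → Bool) → Finset ι)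
    (E0 : Finset ι) (hS0 : ∀ ω, S ω ⊆ E0) (hSm : ∀ T, MeasurableSet {ω | S ω = T}) :
    ∑ T ∈ E0.powerset, (pm r).real {ω | S ω = T} = 1 := by
  rw [← measureReal_biUnion_finset]
  · have : (⋃ T ∈ E0.powerset, {ω | S ω = T}) = univ := by
      ext ω
      simp only [mem_iUnion, mem_univ, iff_true, Finset.mem_powerset, exists_prop, mem_ofPred_eq]
      exact ⟨S ω, hS0 ω, rfl⟩
    rw [this]
    exact probReal_univ
  · intro T _ T' _ hTT'
    rw [Function.onFun, Set.disjoint_left]
    intro ω h2 h3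
    exact hTT' (h2.symm.trans h3)
  · intro T _
    exact hSm T

/-- Closing a random set of coordinates in a sparser independent field. -/
theorem jensen {ι κ : Type} [DecidableEq ι] (r : κ → unitInterval) (S : (κ → Bool) → Finset ι)
    (E0 : Finset ι) (U : Set κ) (hS0 : ∀ ω, S ω ⊆ E0)
    (hdep : ∀ ω ω' : κ → Bool, (∀ c ∈ U, ω c = ω' c) → S ω = S ω')
    (hSm : ∀ T, MeasurableSet {ω | S ω = T}) (φ ψ : ι → κ) (hφ : Function.Injective φ)
    (hψ : Function.Injective ψ)
    (hU : ∀ ω, ∀ e ∈ S ω, φ e ∉ U) (hU' : ∀ ω, ∀ e ∈ S ω, ψ e ∉ U) (p δ : ℝ)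
    (hr : ∀ e, (r (φ e) : ℝ) = p) (hr' : ∀ e, (r (ψ e) : ℝ) = δ) (a : ℝ) (ha : 0 < a)
    (ha1 : a ≤ 1) (hp : p < 1) (hpa : (1 - p) ^ a = 1 - δ) :
    (pm r).real {ω | ∀ e ∈ S ω, ω (ψ e) = false} ≤
      (pm r).real {ω | ∀ e ∈ S ω, ω (φ e) = false} ^ a := by
  rw [sum_closed r S E0 U hS0 hdep hSm φ hφ hU p hr, sum_closed r S E0 U hS0 hdep hSm ψ hψ hU' δ hr']
  have h1p : 0 ≤ 1 - p := by linarith
  have key := Real.arith_mean_le_rpow_mean E0.powerset (fun T => (pm r).real {ω | S ω = T})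
    (fun T => ((1 - p) ^ T.card) ^ a) (fun T _ => measureReal_nonneg)
    (sum_law r S E0 hS0 hSm) (fun T _ => Real.rpow_nonneg (pow_nonneg h1p _) _)
    (show (1 : ℝ) ≤ 1 / a by rw [le_div_iff₀ ha]; linarith)
  have e1 : ∀ T : Finset ι, (((1 - p) ^ T.card) ^ a) ^ (1 / a) = (1 - p) ^ T.card := by
    intro T
    rw [← Real.rpow_mul (pow_nonneg h1p _), mul_one_div_cancel ha.ne', Real.rpow_one]
  have e2 : ∀ T : Finset ι, ((1 - p) ^ T.card) ^ a = (1 - δ) ^ T.card := by
    intro T
    rw [← Real.rpow_natCast, ← Real.rpow_mul h1p, mul_comm, Real.rpow_mul h1p, hpa,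
      Real.rpow_natCast]
  have e3 : (1 : ℝ) / (1 / a) = a := by rw [one_div_one_div]
  rw [e3] at key
  simp only [e1] at key
  simp only [e2] at key
  exact key

end

end Pool.Agent.Helper401_HS
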