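import Pool.Agent.Helper401_HS.Dec
import Pool.Agent.Helper401_HS.Expl

set_option autoImplicit false

open MeasureTheory Set

/-!
Averaged connection events of boxes and their influences (helper401).
-/

namespace Pool.Agent.Helper401_HS

open Pool.Agent.Y990.CB
open Pool.Agent.W783.PC (pm DepOn Inc bern)
open Pool.Agent.W424.PC
open Pool.Agent.R959.GF

noncomputable section

variable {d : ℕ}

/-- The box of radius `k` is connected to the frame of the box of radius `n`. -/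
def Av (d k n : ℕ) : Set (Sym2 (Z d) → Bool) := Lk (bondM d) (Bo 0 n) (Bo 0 k) (Fr 0 n)

lemma Av_inc (k n : ℕ) : Inc (Av d k n) := Lk_inc (bondM d) _ _ _

lemma Av_dep (k n : ℕ) : DepOn (Av d k n) (In (bondM d) (Bo 0 n)) := Lk_dep (bondM d) _ _ _

lemma Av_mono {k k' n n' : ℕ} (hk : k ≤ k') (hn : n' ≤ n) (hkn : k' ≤ n') :
    Av d k n ⊆ Av d k' n' := by
  rintro ω ⟨x, hx, y, hy, h⟩
  have hx' : x ∈ Bo (0 : Z d) k' := Bo_mono 0 hk hx
  have hxn : x ∈ Bo (0 : Z d) n' := Bo_mono 0 hkn hx'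
  have hy' : y ∉ Bo (0 : Z d) n' ∨ y ∈ Fr (0 : Z d) n' := by
    by_cases hb : y ∈ Bo (0 : Z d) n'
    · right
      refine ⟨hb, ?_⟩
      obtain ⟨i, hi⟩ := hy.2
      refine ⟨i, le_antisymm (hb i) ?_⟩
      rw [hi]
      exact_mod_cast hn
    · exact Or.inl hb
  obtain ⟨x', h1, h2⟩ := exit_Am hxn hy' h
  exact ⟨x, hx', x', h1, h2⟩

lemma adj_updf {ω : Sym2 (Z d) → Bool} {R : Set (Z d)} {e : Sym2 (Z d)} {a b : Z d}
    (hne : s(a, b) ≠ e) (h : (G (bondM d) (upd e true ω) R).Adj a b) :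
    (G (bondM d) (upd e false ω) R).Adj a b := by
  obtain ⟨h1, h2, h3, h4⟩ := adjb.1 h
  exact adjb.2 ⟨h1, h2, h3,
    ((upd_ne hne false ω).trans ((upd_ne hne true ω).symm.trans h4) : upd e false ω s(a, b) = true)⟩

lemma walk_splitb {R : Set (Z d)} {e : Sym2 (Z d)} {ω : Sym2 (Z d) → Bool} {a b : Z d}
    (p : (G (bondM d) (upd e true ω) R).Walk a b) :
    (G (bondM d) (upd e false ω) R).Reachable a b ∨
      ∃ u v, s(u, v) = e ∧ (G (bondM d) (upd e false ω) R).Reachable a u ∧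
        (G (bondM d) (upd e false ω) R).Reachable v b := by
  induction p with
  | nil => exact Or.inl (SimpleGraph.Reachable.refl _)
  | cons h q ih =>
    rename_i a a' b
    by_cases he : s(a, a') = e
    · rcases ih with h1 | ⟨u, v, h1, h2, h3⟩
      · exact Or.inr ⟨a, a', he, SimpleGraph.Reachable.refl _, h1⟩
      · rw [← he, Sym2.eq_iff] at h1
        rcases h1 with ⟨rfl, rfl⟩ | ⟨rfl, rfl⟩
        · exact Or.inr ⟨u, v, he, SimpleGraph.Reachable.refl _, h3⟩
        · exact Or.inl h3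
    · have hadj := (adj_updf he h).reachable
      rcases ih with h1 | ⟨u, v, h1, h2, h3⟩
      · exact Or.inl (hadj.trans h1)
      · exact Or.inr ⟨u, v, h1, hadj.trans h2, h3⟩

lemma Nb_mem_Bo {x y : Z d} (h : Nb x y) : y ∈ Bo x 1 := by
  intro i
  have := Nb_coord (Nb_comm.1 h) i
  exact_mod_cast this

/-- The pivotal edges lie outside the small box. -/
lemma piv_out {k n : ℕ} {x y : Z d} (h : Nb x y) {ω : Sym2 (Z d) → Bool}
    (hp : ω ∈ Piv (Av d k n) s(x, y)) : k ≤ nm x ∧ nm x ≤ n := by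
  obtain ⟨⟨a, ha, b, hb, ⟨w⟩⟩, hf⟩ := hp
  rcases walk_splitb w with h1 | ⟨u, v, h1, h2, h3⟩
  · exact absurd ⟨a, ha, b, hb, h1⟩ hf
  · constructor
    · by_contra hc
      push Not at hc
      have hx : x ∈ Bo (0 : Z d) (nm x) := by
        have := mem_Bo_nm 0 x
        rwa [zero_add] at this
      have hxk : x ∈ Bo (0 : Z d) k := Bo_mono 0 hc.le hx
      have hyk : y ∈ Bo (0 : Z d) k := Bo_sub hx (by omega : 1 + nm x ≤ k) (Nb_mem_Bo h)
      have hv : v ∈ Bo (0 : Z d) k := by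
        rw [Sym2.eq_iff] at h1
        rcases h1 with ⟨_, rfl⟩ | ⟨_, rfl⟩
        · exact hyk
        · exact hxk
      exact hf ⟨v, hv, b, hb, h3⟩
    · by_contra hc
      push Not at hc
      have hxn : x ∉ Bo (0 : Z d) n := by
        intro hx
        have : nm x ≤ n := nm_le.2 fun i => by
          have := hx i
          simpa using this
        omega
      have hG : G (bondM d) (upd s(x, y) true ω) (Bo 0 n) =
          G (bondM d) (upd s(x, y) false ω) (Bo 0 n) := by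
        refine graph_congr (M := bondM d) fun c hc => ?_
        have : c ≠ s(x, y) := by
          rintro rfl
          exact not_in hxn hc
        exact (upd_ne this _ _).trans (upd_ne this _ _).symm
      refine hf ⟨a, ha, b, hb, ?_⟩
      show (G (bondM d) (upd s(x, y) false ω) (Bo 0 n)).Reachable a b
      rw [← hG]
      exact ⟨w⟩

/-- A pivotal edge far from the two spheres has two arms. -/
lemma piv_Ta {k n r : ℕ} {x y : Z d} (h : Nb x y) {ω : Sym2 (Z d) → Bool}
    (hp : ω ∈ Piv (Av d k n) s(x, y)) (hr : 1 ≤ r) (h1 : k + r + 1 ≤ nm x) (h2 : nm x + r ≤ n) :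
    upd s(x, y) false ω ∈ Ta (bondM d) x 1 r := by
  obtain ⟨⟨a, ha, b, hb, ⟨w⟩⟩, hf⟩ := hp
  have hd : 1 ≤ d := by
    rcases Nat.eq_zero_or_pos d with h0 | h0
    · subst h0
      obtain ⟨i, _⟩ := hb.2
      exact i.elim0
    · exact h0
  rcases walk_splitb w with g1 | ⟨u, v, g1, g2, g3⟩
  · exact absurd ⟨a, ha, b, hb, g1⟩ hf
  · have hx1 : x ∈ Bo x 1 := self_mem_Bo x 1
    have hy1 : y ∈ Bo x 1 := Nb_mem_Bo h
    have hu : u ∈ Bo x 1 ∧ v ∈ Bo x 1 := by
      rw [Sym2.eq_iff] at g1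
      rcases g1 with ⟨rfl, rfl⟩ | ⟨rfl, rfl⟩
      · exact ⟨hx1, hy1⟩
      · exact ⟨hy1, hx1⟩
    have har : a ∉ Bo x r := by
      intro hc
      obtain ⟨i, hi⟩ := exists_nm hd x
      have e1 := abs_le.1 (ha i)
      have e2 := abs_le.1 (hc i)
      simp only [Pi.zero_apply, sub_zero] at e1
      have e3 : (k : ℤ) + r + 1 ≤ nm x := by exact_mod_cast h1
      rw [← hi] at e3
      rcases abs_cases (x i) with ⟨e4, _⟩ | ⟨e4, _⟩ <;> rw [e4] at e3 <;> linarith [e1.1, e1.2, e2.1, e2.2]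
    have hbr : b ∉ Bo x r ∨ b ∈ Fr x r := by
      by_cases hc : b ∈ Bo x r
      · right
        refine ⟨hc, ?_⟩
        obtain ⟨i, hi⟩ := hb.2
        simp only [Pi.zero_apply, sub_zero] at hi
        refine ⟨i, le_antisymm (hc i) ?_⟩
        have e1 := abs_le_nm x i
        have e3 : (nm x : ℤ) + r ≤ n := by exact_mod_cast h2
        have e4 := abs_sub_abs_le_abs_sub (b i) (x i)
        rw [hi] at e4
        linarith
      · exact Or.inl hc
    have hsub : Bo x r ⊆ Bo (0 : Z d) n := by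
      refine Bo_sub (D := nm x) ?_ (by omega)
      have := mem_Bo_nm 0 x
      rwa [zero_add] at this
    refine ⟨u, hu.1, v, hu.2, ?_, ?_, ?_⟩
    · exact exit_Am (Bo_mono x hr hu.1) (Or.inl har) g2.symm
    · exact exit_Am (Bo_mono x hr hu.2) hbr g3
    · intro hc
      exact hf ⟨a, ha, b, hb, (g2.trans (reach_mono hsub hc)).trans g3⟩

/-- The average over the two radii. -/
def Sv (d K N w : ℕ) (ω : Sym2 (Z d) → Bool) : ℝ :=
  (∑ a ∈ Finset.range w, ∑ b ∈ Finset.range w, I1 (Av d (K + a) (N + b)) ω) / (w * w)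

lemma I1_nonneg {ι : Type} (A : Set (ι → Bool)) (ω : ι → Bool) : 0 ≤ I1 A ω := by
  by_cases h : ω ∈ A
  · rw [I1_mem h]; norm_num
  · rw [I1_not h]

lemma I1_le_one {ι : Type} (A : Set (ι → Bool)) (ω : ι → Bool) : I1 A ω ≤ 1 := by
  by_cases h : ω ∈ A
  · rw [I1_mem h]
  · rw [I1_not h]; norm_num

lemma sum2_const (w : ℕ) (c : ℝ) :
    ∑ _a ∈ Finset.range w, ∑ _b ∈ Finset.range w, c = w * w * c := by
  simp only [Finset.sum_const, Finset.card_range, nsmul_eq_mul]
  ring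

lemma avg_const {w : ℕ} (hw : 1 ≤ w) (c : ℝ) :
    (∑ _a ∈ Finset.range w, ∑ _b ∈ Finset.range w, c) / (w * w : ℝ) = c := by
  have hw' : (0 : ℝ) < w := by exact_mod_cast hw
  rw [sum2_const, mul_div_assoc, mul_comm, div_mul_eq_mul_div, mul_comm]
  field_simp

lemma avg_le {w : ℕ} (hw : 1 ≤ w) {f g : ℕ → ℕ → ℝ}
    (h : ∀ a < w, ∀ b < w, f a b ≤ g a b) :
    (∑ a ∈ Finset.range w, ∑ b ∈ Finset.range w, f a b) / (w * w : ℝ) ≤
      (∑ a ∈ Finset.range w, ∑ b ∈ Finset.range w, g a b) / (w * w : ℝ) := by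
  have hw' : (0 : ℝ) < w := by exact_mod_cast hw
  refine div_le_div_of_nonneg_right ?_ (by positivity)
  exact Finset.sum_le_sum fun a ha => Finset.sum_le_sum fun b hb =>
    h a (Finset.mem_range.1 ha) b (Finset.mem_range.1 hb)

lemma Sv_nonneg (K N w : ℕ) (ω : Sym2 (Z d) → Bool) : 0 ≤ Sv d K N w ω :=
  div_nonneg (Finset.sum_nonneg fun _ _ => Finset.sum_nonneg fun _ _ => I1_nonneg _ _)
    (by positivity)

lemma Sv_le_one {w : ℕ} (hw : 1 ≤ w) (K N : ℕ) (ω : Sym2 (Z d) → Bool) : Sv d K N w ω ≤ 1 := by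
  unfold Sv
  exact (avg_le hw (g := fun _ _ => 1) fun _ _ _ _ => I1_le_one _ _).trans
    (avg_const hw 1).le

lemma DD_Sv (K N w : ℕ) (e : Sym2 (Z d)) (ω : Sym2 (Z d) → Bool) :
    DD e (Sv d K N w) ω = (∑ a ∈ Finset.range w, ∑ b ∈ Finset.range w,
      I1 (Piv (Av d (K + a) (N + b)) e) ω) / (w * w) := by
  unfold DD Sv
  rw [← sub_div, ← Finset.sum_sub_distrib]
  congr 1
  refine Finset.sum_congr rfl fun a _ => ?_
  rw [← Finset.sum_sub_distrib]
  refine Finset.sum_congr rfl fun b _ => ?_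
  exact DD_I1 (Av_inc _ _) e ω

lemma DD_Sv_nonneg (K N w : ℕ) (e : Sym2 (Z d)) (ω : Sym2 (Z d) → Bool) :
    0 ≤ DD e (Sv d K N w) ω := by
  rw [DD_Sv]
  exact div_nonneg (Finset.sum_nonneg fun _ _ => Finset.sum_nonneg fun _ _ => I1_nonneg _ _)
    (by positivity)

lemma DD_Sv_le_one {w : ℕ} (hw : 1 ≤ w) (K N : ℕ) (e : Sym2 (Z d)) (ω : Sym2 (Z d) → Bool) :
    DD e (Sv d K N w) ω ≤ 1 := by
  rw [DD_Sv]
  exact (avg_le hw (g := fun _ _ => 1) fun _ _ _ _ => I1_le_one _ _).trans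
    (avg_const hw 1).le

lemma count_le (K w c r : ℕ) :
    ∑ a ∈ Finset.range w, (if c ≤ K + a ∧ K + a ≤ c + r then (1 : ℝ) else 0) ≤ r + 1 := by
  rw [Finset.sum_ite]
  simp only [Finset.sum_const_zero, add_zero, Finset.sum_const, nsmul_eq_mul, mul_one]
  have h1 : ((Finset.range w).filter (fun a => c ≤ K + a ∧ K + a ≤ c + r)).card ≤
      (Finset.Icc c (c + r)).card := by
    refine Finset.card_le_card_of_injOn (fun a => K + a) ?_ ?_
    · intro a ha
      have := (Finset.mem_filter.1 ha).2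
      simp only [Finset.coe_Icc, Set.mem_Icc]
      exact this
    · intro a _ a' _ h
      simp only at h
      omega
  rw [Nat.card_Icc] at h1
  have h2 : c + r + 1 - c = r + 1 := by omega
  rw [h2] at h1
  exact_mod_cast h1

/-- The influence of an edge on the average. -/
lemma DD_Sv_le {w r : ℕ} (hw : 1 ≤ w) (hr : 1 ≤ r) (K N : ℕ) {x y : Z d} (h : Nb x y)
    (ω : Sym2 (Z d) → Bool) : DD s(x, y) (Sv d K N w) ω ≤
      2 * (r + 1) / w + I1 {ω | upd s(x, y) false ω ∈ Ta (bondM d) x 1 r} ω := by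
  have hw' : (0 : ℝ) < w := by exact_mod_cast hw
  rw [DD_Sv]
  set T : ℝ := I1 {ω | upd s(x, y) false ω ∈ Ta (bondM d) x 1 r} ω with hT
  have hT0 : 0 ≤ T := I1_nonneg _ _
  set f : ℕ → ℝ := fun a => if nm x - r ≤ K + a ∧ K + a ≤ nm x - r + r then (1 : ℝ) else 0 with hf
  set g : ℕ → ℝ := fun b => if nm x ≤ N + b ∧ N + b ≤ nm x + r then (1 : ℝ) else 0 with hg
  have hf0 : ∀ a, 0 ≤ f a := by intro a; simp only [hf]; split_ifs <;> norm_num
  have hg0 : ∀ b, 0 ≤ g b := by intro a; simp only [hg]; split_ifs <;> norm_num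
  have key : ∀ a < w, ∀ b < w, I1 (Piv (Av d (K + a) (N + b)) s(x, y)) ω ≤ f a + g b + T := by
    intro a _ b _
    by_cases hp : ω ∈ Piv (Av d (K + a) (N + b)) s(x, y)
    · rw [I1_mem hp]
      obtain ⟨o1, o2⟩ := piv_out h hp
      by_cases c1 : K + a + r + 1 ≤ nm x
      · by_cases c2 : nm x + r ≤ N + b
        · have : T = 1 := by rw [hT]; exact I1_mem (piv_Ta h hp hr c1 c2)
          rw [this]
          linarith [hf0 a, hg0 b]
        · have : g b = 1 := by
            simp only [hg]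
            rw [if_pos ⟨o2, by omega⟩]
          rw [this]
          linarith [hf0 a]
      · have : f a = 1 := by
          simp only [hf]
          rw [if_pos ⟨by omega, by omega⟩]
        rw [this]
        linarith [hg0 b]
    · rw [I1_not hp]
      linarith [hf0 a, hg0 b]
  refine (avg_le hw (g := fun a b => f a + g b + T) key).trans ?_
  have e1 : ∑ a ∈ Finset.range w, ∑ b ∈ Finset.range w, (f a + g b + T) =
      w * ∑ a ∈ Finset.range w, f a + w * ∑ b ∈ Finset.range w, g b + w * w * T := by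
    simp only [Finset.sum_add_distrib, Finset.sum_const, Finset.card_range, nsmul_eq_mul]
    rw [← Finset.mul_sum]
    ring
  rw [e1]
  have h1 := count_le K w (nm x - r) r
  have h2 := count_le N w (nm x) r
  rw [div_le_iff₀ (by positivity)]
  have e2 : (2 * ((r : ℝ) + 1) / w + T) * (w * w) = w * (2 * (r + 1)) + w * w * T := by
    field_simp
  rw [e2]
  have h3 : (w : ℝ) * ∑ a ∈ Finset.range w, f a ≤ w * (r + 1) := mul_le_mul_of_nonneg_left h1 hw'.le
  have h4 : (w : ℝ) * ∑ b ∈ Finset.range w, g b ≤ w * (r + 1) := mul_le_mul_of_nonneg_left h2 hw'.le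
  linarith

/-- The chain of the averages. -/
lemma Sv_chain {w K N K' N' : ℕ} (hw : 1 ≤ w) (hK : K + w ≤ K') (hN : N' + w ≤ N)
    (hKN : K' + w ≤ N') (ω : Sym2 (Z d) → Bool) (h : 0 < Sv d K N w ω) : Sv d K' N' w ω = 1 := by
  have hw' : (0 : ℝ) < w := by exact_mod_cast hw
  have h1 : ∃ a < w, ∃ b < w, ω ∈ Av d (K + a) (N + b) := by
    by_contra hc
    push Not at hc
    have : Sv d K N w ω = 0 := by
      unfold Sv
      rw [Finset.sum_eq_zero, zero_div]
      intro a ha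
      refine Finset.sum_eq_zero fun b hb => ?_
      exact I1_not (hc a (Finset.mem_range.1 ha) b (Finset.mem_range.1 hb))
    linarith
  obtain ⟨a, ha, b, hb, hm⟩ := h1
  unfold Sv
  have h2 : ∀ a' ∈ Finset.range w, ∀ b' ∈ Finset.range w,
      I1 (Av d (K' + a') (N' + b')) ω = 1 := by
    intro a' ha' b' hb'
    have ha'' := Finset.mem_range.1 ha'
    have hb'' := Finset.mem_range.1 hb'
    exact I1_mem (Av_mono (by omega) (by omega) (by omega) hm)
  rw [Finset.sum_congr rfl fun a' ha' => Finset.sum_congr rfl fun b' hb' => h2 a' ha' b' hb']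
  exact avg_const hw 1

end

end Pool.Agent.Helper401_HS
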