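import Pool.Agent.Helper401_HS.Face2

set_option autoImplicit false

open MeasureTheory Set

/-!
One sprinkled step (helper401).
-/

namespace Pool.Agent.Helper401_HS

open Pool.Agent.Y990.CB Pool.Agent.Y990.OA
open Pool.Agent.W783.PC (pm DepOn Inc bern)
open Pool.Agent.W424.PC

noncomputable section

variable {d : ℕ}

/-- The law of the nine fields. -/
abbrev mr (d : ℕ) (p δ : unitInterval) : Measure (Cf d) := pm (rr (Sym2 (Z d)) p δ)

lemma rr_zero (p δ : unitInterval) (e : Sym2 (Z d)) : rr (Sym2 (Z d)) p δ (0, e) = p := by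
  simp [rr]

lemma rr_ne (p δ : unitInterval) {q : Fin 9} (hq : q ≠ 0) (e : Sym2 (Z d)) :
    rr (Sym2 (Z d)) p δ (q, e) = δ := by
  simp [rr, hq]

/-- The law of the field `0`. -/
lemma fl_law (p δ : unitInterval) {A : Set (Sym2 (Z d) → Bool)} (hA : MeasurableSet A) :
    (mr d p δ).real {ω | fl ω 0 ∈ A} = (mb d p).real A := by
  have h := pm_inj (fun e : Sym2 (Z d) => ((0 : Fin 9), e))
    (fun a b h => (Prod.mk.inj h).2) (rr (Sym2 (Z d)) p δ) hA
  unfold Measure.real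
  have h2 : (fun e : Sym2 (Z d) => rr (Sym2 (Z d)) p δ ((0 : Fin 9), e)) = fun _ => p :=
    funext fun e => rr_zero p δ e
  rw [h2] at h
  rw [← h]
  rfl

/-- The failure event of one step. -/
def Fl (q : Fin 9) (n : ℕ) (c : Z d) (R : Finset (Z d)) (F : Set (Z d)) : Set (Cf d) :=
  {ω | ∀ e ∈ Gd ω n c R F, ω (q, e) = false}

lemma Gd_sub {ω : Cf d} {n : ℕ} {c : Z d} {R : Finset (Z d)} {F : Set (Z d)} {e : Sym2 (Z d)}
    (h : e ∈ Gd ω n c R F) : e ∈ In (bondM d) (Bo c n) := by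
  obtain ⟨u, v, h1, h2, h3, h4, h5, h6, rfl⟩ := mem_Gd.1 h
  exact ⟨u, h1, v, h2, h5, Finset.mem_singleton_self _⟩

lemma Gd_notU {ω : Cf d} {n : ℕ} {c : Z d} {R : Finset (Z d)} {F : Set (Z d)} {e : Sym2 (Z d)}
    (h : e ∈ Gd ω n c R F) : e ∉ In (bondM d) (Bo c n \ (R : Set (Z d))) := by
  obtain ⟨u, v, h1, h2, h3, h4, h5, h6, rfl⟩ := mem_Gd.1 h
  exact not_in fun hc => hc.2 (Finset.mem_coe.2 h3)

lemma U0_fin (c : Z d) (n : ℕ) (R : Set (Z d)) : (U0 (Bo c n \ R)).Finite := by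
  have h1 : (In (bondM d) (Bo c n \ R)).Finite :=
    In_fin (bondM d) ((Bo_finite c n).subset sdiff_subset)
  have h2 : U0 (Bo c n \ R) ⊆ (fun e : Sym2 (Z d) => ((0 : Fin 9), e)) ''
      (In (bondM d) (Bo c n \ R)) := by
    rintro ⟨i, e⟩ ⟨h, h'⟩
    exact ⟨e, h', Prod.ext h.symm rfl⟩
  exact (h1.image _).subset h2

/-- **One step fails with small probability.** -/
theorem fail_le {p δ : unitInterval} (hδ0 : 0 < (δ : ℝ)) (hδp : δ ≤ p) (hp1 : (p : ℝ) < 1)
    {q : Fin 9} (hq : q ≠ 0) {n : ℕ} {c : Z d} {R : Finset (Z d)} {F : Set (Z d)}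
    (hRF : ∀ x ∈ R, x ∉ F) :
    (mr d p δ).real (Fl q n c R F) ≤
      (1 - (mb d p).real (Lk (bondM d) (Bo c n) (R : Set (Z d)) F)) ^
        (Real.log (1 - δ) / Real.log (1 - p)) := by
  classical
  have hδp' : (δ : ℝ) ≤ p := hδp
  have hp0 : 0 < (p : ℝ) := by linarith
  have hlp : Real.log (1 - p) < 0 := Real.log_neg (by linarith) (by linarith)
  have hlδ : Real.log (1 - δ) < 0 := Real.log_neg (by linarith) (by linarith)
  have hle : Real.log (1 - p) ≤ Real.log (1 - δ) :=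
    Real.log_le_log (by linarith) (by linarith)
  set a := Real.log (1 - δ) / Real.log (1 - p) with ha
  have ha0 : 0 < a := div_pos_of_neg_of_neg hlδ hlp
  have ha1 : a ≤ 1 := by
    rw [ha, div_le_one_of_neg hlp]
    exact hle
  have hpa : (1 - (p : ℝ)) ^ a = 1 - δ := by
    rw [Real.rpow_def_of_pos (by linarith), ha, mul_div_cancel₀ _ hlp.ne,
      Real.exp_log (by linarith)]
  set E0 : Finset (Sym2 (Z d)) := (In_fin (bondM d) (Bo_finite c n)).toFinset with hE0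
  have hmE0 : ∀ e : Sym2 (Z d), e ∈ E0 ↔ e ∈ In (bondM d) (Bo c n) := fun e =>
    Set.Finite.mem_toFinset (In_fin (bondM d) (Bo_finite c n))
  have hU : ∀ ω : Cf d, ∀ e ∈ Gd ω n c R F,
      ((0 : Fin 9), e) ∉ U0 (Bo c n \ (R : Set (Z d))) := by
    intro ω e he hc
    exact Gd_notU he hc.2
  have hU' : ∀ ω : Cf d, ∀ e ∈ Gd ω n c R F, (q, e) ∉ U0 (Bo c n \ (R : Set (Z d))) := by
    intro ω e he hc
    exact hq hc.1
  have hSm : ∀ T : Finset (Sym2 (Z d)), MeasurableSet {ω : Cf d | Gd ω n c R F = T} := by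
    intro T
    have hfin := U0_fin c n (R : Set (Z d))
    refine Pool.Agent.W45.PC.s_depmeas _ hfin.toFinset _ ?_
    rw [hfin.coe_toFinset]
    intro ω ω' h
    show Gd ω n c R F = T ↔ Gd ω' n c R F = T
    rw [Gd_dep h]
  have hj := jensen (rr (Sym2 (Z d)) p δ) (fun ω => Gd ω n c R F) E0
    (U0 (Bo c n \ (R : Set (Z d)))) (fun ω e he => (hmE0 e).2 (Gd_sub he))
    (fun ω ω' h => Gd_dep h) hSm (fun e => ((0 : Fin 9), e)) (fun e => (q, e))
    (fun a b h => (Prod.mk.inj h).2) (fun a b h => (Prod.mk.inj h).2) hU hU' p δ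
    (fun e => by rw [rr_zero]) (fun e => by rw [rr_ne p δ hq]) a ha0 ha1 hp1 hpa
  refine hj.trans ?_
  obtain ⟨L, hLd⟩ : ∃ L : Set (Sym2 (Z d) → Bool),
    L = Lk (bondM d) (Bo c n) (R : Set (Z d)) F := ⟨_, rfl⟩
  have hL : MeasurableSet L := by rw [hLd]; exact Lk_meas (bondM d) _ _ _
  have h1 : (mr d p δ).real {ω | ∀ e ∈ Gd ω n c R F, ω ((0 : Fin 9), e) = false} ≤
      1 - (mb d p).real L := by
    rw [← probReal_compl_eq_one_sub hL, ← fl_law p δ hL.compl]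
    refine measureReal_mono ?_ (measure_ne_top _ _)
    intro ω hω hc
    have hc' : fl ω 0 ∈ Lk (bondM d) (Bo c n) (R : Set (Z d)) F := by
      rw [← hLd]; exact hc
    obtain ⟨e, he, ho⟩ := Gd_of_Lk hRF hc'
    have := hω e he
    rw [this] at ho
    exact absurd ho (by simp)
  rw [hLd] at h1
  exact Real.rpow_le_rpow measureReal_nonneg h1 ha0.le

end

end Pool.Agent.Helper401_HS
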