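import Pool.Agent.Y990.OA.Main6
import Pool.Agent.Y448.CB2.Ctc

set_option autoImplicit false

open MeasureTheory Set

/-!
Percolation in half-spaces (helper401): several independent fields, and their union.
-/

namespace Pool.Agent.Helper401_HS

open Pool.Agent.Y990.CB
open Pool.Agent.W783.PC (pm DepOn Inc bern)

noncomputable section

/-- Reading a product configuration along an injection. -/
lemma map_inj {ι κ : Type} (φ : κ → ι) (hφ : Function.Injective φ) (r : ι → unitInterval) :
    (pm r).map (fun (ω : ι → Bool) (e : κ) => ω (φ e)) = pm (fun e => r (φ e)) := by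
  classical
  have hm : Measurable (fun (ω : ι → Bool) (e : κ) => ω (φ e)) := by fun_prop
  unfold pm
  apply Measure.eq_infinitePi
  intro s t ht
  rw [Measure.map_apply hm (MeasurableSet.pi s.countable_toSet fun i _ =>
    MeasurableSet.of_discrete)]
  have h1 : (fun (ω : ι → Bool) (e : κ) => ω (φ e)) ⁻¹' (Set.pi s t) =
      Set.pi ((s.map ⟨φ, hφ⟩ : Finset ι) : Set ι)
        (fun c => if h : ∃ e, φ e = c then t h.choose else univ) := by
    ext ω
    simp only [Set.mem_preimage, Set.mem_pi, Finset.mem_coe, Finset.mem_map,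
      Function.Embedding.coeFn_mk]
    have key : ∀ e : κ, (if h : ∃ e', φ e' = φ e then t h.choose else univ) = t e := by
      intro e
      have h : ∃ e', φ e' = φ e := ⟨e, rfl⟩
      rw [dif_pos h]
      exact congrArg t (hφ h.choose_spec)
    constructor
    · rintro h _ ⟨c, hc, rfl⟩
      rw [key]
      exact h c hc
    · intro h c hc
      have := h (φ c) ⟨c, hc, rfl⟩
      rwa [key] at this
  rw [h1]
  rw [Measure.infinitePi_pi _ (fun i _ => MeasurableSet.of_discrete), Finset.prod_map]
  refine Finset.prod_congr rfl fun c _ => ?_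
  simp only [Function.Embedding.coeFn_mk]
  have h : ∃ e', φ e' = φ c := ⟨c, rfl⟩
  rw [dif_pos h]
  congr 1
  exact congrArg t (hφ h.choose_spec)

/-- Probability of an event of the configuration read along an injection. -/
lemma pm_inj {ι κ : Type} (φ : κ → ι) (hφ : Function.Injective φ) (r : ι → unitInterval)
    {A : Set (κ → Bool)} (hA : MeasurableSet A) :
    pm r {ω | (fun e => ω (φ e)) ∈ A} = pm (fun e => r (φ e)) A := by
  have hm : Measurable (fun (ω : ι → Bool) (e : κ) => ω (φ e)) := by fun_prop
  rw [← map_inj φ hφ r, Measure.map_apply hm hA]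
  rfl

/-- The index set of the fields. -/
abbrev J (ι : Type) : Type := Fin 9 × ι

/-- The parameters of the fields. -/
def rr (ι : Type) (p δ : unitInterval) : J ι → unitInterval :=
  fun c => if c.1 = 0 then p else δ

/-- The union of the fields. -/
def un {ι : Type} (ω : J ι → Bool) : ι → Bool := fun e => decide (∃ i : Fin 9, ω (i, e) = true)

lemma un_meas {ι : Type} : Measurable (un (ι := ι)) := by
  rw [measurable_pi_iff]
  intro e
  refine measurable_to_bool ?_
  have h1 : (fun ω : J ι → Bool => un ω e) ⁻¹' {true} = ⋃ i : Fin 9, {ω | ω (i, e) = true} := by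
    ext ω
    simp [un]
  rw [h1]
  refine MeasurableSet.iUnion fun i => ?_
  have h' : MeasurableSet ((fun f : J ι → Bool => f (i, e)) ⁻¹' {true}) :=
    measurable_pi_apply _ (measurableSet_singleton true)
  exact h'

/-- The parameter of the union. -/
def pu (p δ : unitInterval) : unitInterval :=
  ⟨1 - (1 - (p : ℝ)) * (1 - (δ : ℝ)) ^ 8, by
    have h1 : (1 - (p : ℝ)) * (1 - (δ : ℝ)) ^ 8 ≤ 1 :=
      mul_le_one₀ (by linarith [p.2.1]) (pow_nonneg (by linarith [δ.2.2]) _)
        (pow_le_one₀ (by linarith [δ.2.2]) (by linarith [δ.2.1]))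
    linarith, by
    have h1 : 0 ≤ (1 - (p : ℝ)) * (1 - (δ : ℝ)) ^ 8 :=
      mul_nonneg (by linarith [p.2.2]) (pow_nonneg (by linarith [δ.2.2]) _)
    linarith⟩

lemma un_false {ι : Type} (p δ : unitInterval) (e : ι) :
    pm (rr ι p δ) {ω | un ω e = false} = ENNReal.ofReal (1 - (pu p δ : ℝ)) := by
  classical
  have h1 : {ω : J ι → Bool | un ω e = false} =
      Set.pi (((Finset.univ : Finset (Fin 9)) ×ˢ {e} : Finset (J ι)) : Set (J ι))
        fun _ => {false} := by
    ext ω
    simp only [un, Set.mem_pi, mem_ofPred_eq, decide_eq_false_iff_not, not_exists,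
      Bool.not_eq_true, Finset.coe_product, Finset.coe_univ, Finset.coe_singleton, mem_prod,
      mem_univ, true_and, mem_singleton_iff, Prod.forall]
    constructor
    · rintro h i b rfl
      exact h i
    · intro h i
      exact h i e rfl
  rw [h1, Pool.Agent.W400.PC.pm_pi, Finset.prod_product]
  simp only [Finset.prod_singleton, Pool.Agent.W400.PC.bern_false]
  rw [Fin.prod_univ_succ]
  have h2 : ∀ i : Fin 8, ENNReal.ofReal (1 - (rr ι p δ (i.succ, e) : ℝ)) =
      ENNReal.ofReal (1 - (δ : ℝ)) := by
    intro i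
    unfold rr
    rw [if_neg (Fin.succ_ne_zero i)]
  rw [Finset.prod_congr rfl fun i _ => h2 i, Finset.prod_const, Finset.card_univ, Fintype.card_fin]
  unfold rr
  rw [if_pos rfl, ← ENNReal.ofReal_pow (by linarith [δ.2.2]),
    ← ENNReal.ofReal_mul (by linarith [p.2.2])]
  congr 1
  unfold pu
  simp

lemma un_bern {ι : Type} (p δ : unitInterval) (e : ι) (S : Set Bool) :
    pm (rr ι p δ) {ω | un ω e ∈ S} = bern (pu p δ) S := by
  have hm : Measurable (fun ω : J ι → Bool => un ω e) := (measurable_pi_apply e).comp un_meas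
  have h1 : (pm (rr ι p δ)).map (fun ω => un ω e) = bern (pu p δ) := by
    have hpr : IsProbabilityMeasure ((pm (rr ι p δ)).map (fun ω => un ω e)) :=
      Measure.isProbabilityMeasure_map hm.aemeasurable
    have hf : (pm (rr ι p δ)).map (fun ω => un ω e) {false} =
        ENNReal.ofReal (1 - (pu p δ : ℝ)) := by
      rw [Measure.map_apply hm (measurableSet_singleton _)]
      exact un_false p δ e
    refine Measure.ext_of_singleton fun b => ?_
    cases b with
    | false => rw [hf, Pool.Agent.W400.PC.bern_false]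
    | true =>
      have h2 : ({true} : Set Bool) = {false}ᶜ := by ext b; cases b <;> simp
      rw [h2, prob_compl_eq_one_sub (measurableSet_singleton _),
        prob_compl_eq_one_sub (measurableSet_singleton _), hf, Pool.Agent.W400.PC.bern_false]
  rw [← h1, Measure.map_apply hm MeasurableSet.of_discrete]
  rfl

/-- The law of the union of the fields. -/
lemma map_un {ι : Type} (p δ : unitInterval) :
    (pm (rr ι p δ)).map un = pm (fun _ : ι => pu p δ) := by
  classical
  conv_rhs => unfold pm
  apply Measure.eq_infinitePi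
  intro s t ht
  rw [Measure.map_apply un_meas (MeasurableSet.pi s.countable_toSet fun i _ =>
    MeasurableSet.of_discrete)]
  have h1 : un ⁻¹' (Set.pi s t) = ⋂ e ∈ s, {ω : J ι → Bool | un ω e ∈ t e} := by
    ext ω
    simp [Set.mem_pi]
  rw [h1, Pool.Agent.W45.PC.s_indepF (J ι) (rr ι p δ) ι s (fun e => {c | c.2 = e})
    (fun e => {ω | un ω e ∈ t e})]
  · exact Finset.prod_congr rfl fun e _ => un_bern p δ e (t e)
  · intro e _ ω ω' h
    have : un ω e = un ω' e := by
      unfold un
      congr 1
      simp only [eq_iff_iff]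
      constructor
      · rintro ⟨i, hi⟩
        exact ⟨i, by rw [← h (i, e) rfl]; exact hi⟩
      · rintro ⟨i, hi⟩
        exact ⟨i, by rw [h (i, e) rfl]; exact hi⟩
    show un ω e ∈ t e ↔ un ω' e ∈ t e
    rw [this]
  · intro e _ e' _ hne
    rw [Set.disjoint_left]
    rintro c hc hc'
    exact hne (hc.symm.trans hc')
  · intro e _
    exact ((measurable_pi_apply e).comp un_meas) MeasurableSet.of_discrete

/-- Increasing events and the union of the fields. -/
theorem un_le {ι : Type} (p δ q : unitInterval) (h : pu p δ ≤ q) {A : Set (ι → Bool)}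
    (hA : MeasurableSet A) (hi : Inc A) :
    pm (rr ι p δ) {ω | un ω ∈ A} ≤ pm (fun _ : ι => q) A := by
  have h1 : pm (rr ι p δ) {ω | un ω ∈ A} = pm (fun _ : ι => pu p δ) A := by
    rw [← map_un, Measure.map_apply un_meas hA]
    rfl
  rw [h1]
  exact Pool.Agent.W400.PC.s_mono ι _ _ A (fun _ => h) hi hA

end

end Pool.Agent.Helper401_HS
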